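import Mathlib

/-!
# Hemisystem graphs: working definitions (all counts are sums of indicators in `ℤ`)

`q = 2 k + 1`, `q^2 + 1 = 4 k^2 + 4 k + 2 = 2 hh k`, `hh k = 2 k^2 + 2 k + 1`,
`th k = (q^2 + q) / 2 = 2 k^2 + 3 k + 1 = hh k + k`.
-/

set_option autoImplicit false

namespace Pool.Agent.Lib.MP0ea612

/-- the indicator of a proposition -/
noncomputable def ind (p : Prop) : ℤ := by
  classical exact if p then 1 else 0

theorem ind_pos {p : Prop} (h : p) : ind p = 1 := by simp [ind, h]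
theorem ind_neg {p : Prop} (h : ¬ p) : ind p = 0 := by simp [ind, h]
theorem ind_nonneg (p : Prop) : 0 ≤ ind p := by unfold ind; split_ifs <;> simp
theorem ind_le_one (p : Prop) : ind p ≤ 1 := by unfold ind; split_ifs <;> simp
theorem ind_and (p q : Prop) : ind (p ∧ q) = ind p * ind q := by
  unfold ind; by_cases hp : p <;> by_cases hq : q <;> simp [hp, hq]
theorem ind_not (p : Prop) : ind (¬ p) = 1 - ind p := by
  unfold ind; by_cases hp : p <;> simp [hp]
theorem ind_congr {p q : Prop} (h : p ↔ q) : ind p = ind q := by rw [propext h]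
theorem ind_sq (p : Prop) : ind p * ind p = ind p := by
  unfold ind; by_cases hp : p <;> simp [hp]

theorem sum_ind_eq_card {α : Type} [Fintype α] (p : α → Prop) [DecidablePred p] :
    ∑ a, ind (p a) = ((Finset.univ.filter p).card : ℤ) := by
  rw [Finset.card_filter, Nat.cast_sum]
  refine Finset.sum_congr rfl fun a _ => ?_
  unfold ind; by_cases h : p a <;> simp [h]

theorem sum_ind_nonneg {α : Type} [Fintype α] (p : α → Prop) : 0 ≤ ∑ a, ind (p a) :=
  Finset.sum_nonneg fun _ _ => ind_nonneg _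

/-- a sum of indicators over a subsingleton property -/
theorem sum_ind_of_unique {α : Type} [Fintype α] (p : α → Prop) (a : α) (ha : p a)
    (hu : ∀ b, p b → b = a) : ∑ b, ind (p b) = 1 := by
  classical
  rw [Finset.sum_eq_single a (fun b _ hb => ind_neg fun h => hb (hu b h))
    (fun h => absurd (Finset.mem_univ a) h), ind_pos ha]

theorem sum_ind_eq_zero {α : Type} [Fintype α] (p : α → Prop) (h : ∀ a, ¬ p a) :
    ∑ a, ind (p a) = 0 := Finset.sum_eq_zero fun a _ => ind_neg (h a)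

/-- if every `a` with `q a` has exactly one partner `b`, the count of `a` is a double sum -/
theorem sum_ind_fiber {α β : Type} [Fintype α] [Fintype β] (p : α → Prop) (r : α → β → Prop)
    (h : ∀ a, p a → ∑ b, ind (r a b) = 1) :
    ∑ a, ind (p a) = ∑ b, ∑ a, ind (p a ∧ r a b) := by
  rw [Finset.sum_comm]
  refine Finset.sum_congr rfl fun a _ => ?_
  by_cases ha : p a
  · rw [ind_pos ha, ← h a ha]
    exact Finset.sum_congr rfl fun b _ => ind_congr ⟨fun hb => ⟨ha, hb⟩, fun hb => hb.2⟩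
  · rw [ind_neg ha]
    exact (Finset.sum_eq_zero fun b _ => ind_neg fun hb => ha hb.1).symm

theorem exists_of_sum_ind_pos {α : Type} [Fintype α] {p : α → Prop} (h : 0 < ∑ a, ind (p a)) :
    ∃ a, p a := by
  by_contra hne
  push Not at hne
  rw [sum_ind_eq_zero p hne] at h
  exact lt_irrefl _ h

/-- `(q^2+1)/2` -/
def hh (k : ℤ) : ℤ := 2 * k ^ 2 + 2 * k + 1
/-- `(q^2+q)/2` -/
def th (k : ℤ) : ℤ := 2 * k ^ 2 + 3 * k + 1
/-- `q^2+1` -/
def KK (k : ℤ) : ℤ := 4 * k ^ 2 + 4 * k + 2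

/-- the line `x` (incidence `I`) and the line `y` (incidence `J`) have a common point -/
def Mt {P L M : Type} (I : P → L → Prop) (J : P → M → Prop) (x : L) (y : M) : Prop :=
  ∃ p, I p x ∧ J p y

/-- two distinct lines with a common point -/
def Adj {P L : Type} (I : P → L → Prop) (x y : L) : Prop := x ≠ y ∧ ∃ p, I p x ∧ I p y

/-- generalized quadrangle of order `(q^2, q)`, `q = 2k+1` -/
structure GQ {P L : Type} [Fintype P] [Fintype L] (I : P → L → Prop) (k : ℤ) : Prop where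
  ne : Nonempty P
  c : ∀ x, ∑ p, ind (I p x) = KK k
  d : ∀ p, ∑ x, ind (I p x) = 2 * k + 2
  u : ∀ p p' x x', p ≠ p' → I p x → I p' x → I p x' → I p' x' → x = x'
  e : ∀ p x, ¬ I p x → ∃ p' y, I p' x ∧ I p y ∧ I p' y
  e' : ∀ p x p' p'' y y', ¬ I p x → I p' x → I p y → I p' y → I p'' x → I p y' → I p'' y' → p' = p''

/-- `p` and `p'` are on a common line of one of the two families -/
def Col {P L1 L2 : Type} (I1 : P → L1 → Prop) (I2 : P → L2 → Prop) (p p' : P) : Prop :=
  (∃ x, I1 p x ∧ I1 p' x) ∨ ∃ y, I2 p y ∧ I2 p' y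

/-- two families of lines on the same points which together form a generalized quadrangle of order
`(q^2, q)`, `q = 2k+1`, such that every point is on `k+1 = (q+1)/2` lines of each family -/
structure Pair {P L1 L2 : Type} [Fintype P] [Fintype L1] [Fintype L2]
    (I1 : P → L1 → Prop) (I2 : P → L2 → Prop) (k : ℤ) : Prop where
  ne : Nonempty P
  c1 : ∀ x, ∑ p, ind (I1 p x) = KK k
  c2 : ∀ y, ∑ p, ind (I2 p y) = KK k
  d1 : ∀ p, ∑ x, ind (I1 p x) = k + 1
  d2 : ∀ p, ∑ y, ind (I2 p y) = k + 1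
  u11 : ∀ p p' x x', p ≠ p' → I1 p x → I1 p' x → I1 p x' → I1 p' x' → x = x'
  u22 : ∀ p p' y y', p ≠ p' → I2 p y → I2 p' y → I2 p y' → I2 p' y' → y = y'
  u12 : ∀ p p' x y, p ≠ p' → I1 p x → I1 p' x → I2 p y → I2 p' y → False
  e1 : ∀ p x, ¬ I1 p x → ∃ p', I1 p' x ∧ Col I1 I2 p p'
  e1' : ∀ p x p' p'', ¬ I1 p x → I1 p' x → Col I1 I2 p p' → I1 p'' x → Col I1 I2 p p'' → p' = p''
  e2 : ∀ p y, ¬ I2 p y → ∃ p', I2 p' y ∧ Col I1 I2 p p'
  e2' : ∀ p y p' p'', ¬ I2 p y → I2 p' y → Col I1 I2 p p' → I2 p'' y → Col I1 I2 p p'' → p' = p''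

theorem Col.swap {P L1 L2 : Type} {I1 : P → L1 → Prop} {I2 : P → L2 → Prop} {p p' : P}
    (h : Col I1 I2 p p') : Col I2 I1 p p' := h.symm

theorem Pair.symm {P L1 L2 : Type} [Fintype P] [Fintype L1] [Fintype L2]
    {I1 : P → L1 → Prop} {I2 : P → L2 → Prop} {k : ℤ} (h : Pair I1 I2 k) : Pair I2 I1 k where
  ne := h.ne
  c1 := h.c2
  c2 := h.c1
  d1 := h.d2
  d2 := h.d1
  u11 := h.u22
  u22 := h.u11
  u12 := fun p p' y x hp a b c d => h.u12 p p' x y hp c d a b
  e1 := fun p y hp => (h.e2 p y hp).imp fun _ h' => ⟨h'.1, h'.2.swap⟩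
  e1' := fun p y p' p'' hp a b c d => h.e2' p y p' p'' hp a b.swap c d.swap
  e2 := fun p x hp => (h.e1 p x hp).imp fun _ h' => ⟨h'.1, h'.2.swap⟩
  e2' := fun p x p' p'' hp a b c d => h.e1' p x p' p'' hp a b.swap c d.swap

/-- two quadrangles `H ∪ A` and `H ∪ B` of order `(q^2,q)` which share the hemisystem `H` -/
structure Two {P H A B : Type} [Fintype P] [Fintype H] [Fintype A] [Fintype B]
    (IH : P → H → Prop) (IA : P → A → Prop) (IB : P → B → Prop) (k : ℤ) : Prop where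
  hk : 1 ≤ k
  SA : Pair IH IA k
  SB : Pair IH IB k

theorem Two.symm {P H A B : Type} [Fintype P] [Fintype H] [Fintype A] [Fintype B]
    {IH : P → H → Prop} {IA : P → A → Prop} {IB : P → B → Prop} {k : ℤ} (h : Two IH IA IB k) :
    Two IH IB IA k := ⟨h.hk, h.SB, h.SA⟩

/-- `c(X, m)`: the number of lines of `H` which meet the `B`-line `X` and the `A`-line `m` -/
noncomputable def cc {P H A B : Type} [Fintype H] (IH : P → H → Prop) (IA : P → A → Prop)
    (IB : P → B → Prop) (X : B) (m : A) : ℤ := ∑ l, ind (Mt IH IB l X ∧ Mt IH IA l m)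

/-- the number of common points of the `B`-line `X` and the `A`-line `m` -/
noncomputable def kap {P A B : Type} [Fintype P] (IA : P → A → Prop) (IB : P → B → Prop)
    (X : B) (m : A) : ℤ := ∑ p, ind (IB p X ∧ IA p m)

/-- the number of points of `X` which are equal to `p` or on a common `A`-line with `p` -/
noncomputable def cl {P A B : Type} [Fintype P] (IA : P → A → Prop) (IB : P → B → Prop)
    (X : B) (p : P) : ℤ := ∑ p', ind (IB p' X ∧ (p' = p ∨ ∃ m, IA p m ∧ IA p' m))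

/-- `e_p(m)`: the number of lines of `H` through `p` which meet the `A`-line `m` -/
noncomputable def ee {P H A : Type} [Fintype H] (IH : P → H → Prop) (IA : P → A → Prop)
    (p : P) (m : A) : ℤ := ∑ l, ind (IH p l ∧ Mt IH IA l m)

/-- `e^2 (θ - e)` for `e = c(X,m) - (q^2+1)/2`, `θ = (q^2+q)/2` -/
noncomputable def EE {P H A B : Type} [Fintype H] (k : ℤ) (IH : P → H → Prop) (IA : P → A → Prop)
    (IB : P → B → Prop) (X : B) (m : A) : ℤ :=
  (cc IH IA IB X m - hh k) ^ 2 * (th k - (cc IH IA IB X m - hh k))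

/-- `F(x) = x^2 - x (5 k^2 + 6 k + 3) + ((q^2+1)/2)^2` -/
def FF (k x : ℤ) : ℤ := x ^ 2 - x * (5 * k ^ 2 + 6 * k + 3) + hh k ^ 2

end Pool.Agent.Lib.MP0ea612
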