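import Mathlib

/-!
# Isomorphic hemisystem graphs: definitions used by the statements
-/

set_option autoImplicit false

namespace Pool.Agent.Lib.MP0ea612

/-- `I p l`: the point `p` lies on the line `l`.  A finite (nonempty) generalized quadrangle of
order `(s, t)`. -/
structure IsGQ {P L : Type} (I : P → L → Prop) (s t : ℕ) : Prop where
  finP : Finite P
  finL : Finite L
  nonempty : Nonempty P
  line_card : ∀ l : L, {p | I p l}.ncard = s + 1
  point_card : ∀ p : P, {l | I p l}.ncard = t + 1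
  unique_line : ∀ (p p' : P) (l l' : L), p ≠ p' → I p l → I p' l → I p l' → I p' l' → l = l'
  proj : ∀ (p : P) (l : L), ¬ I p l → ∃! p' : P, I p' l ∧ ∃ m : L, I p m ∧ I p' m

/-- a hemisystem of lines of a quadrangle of order `(q^2, q)`: every point lies on exactly
`(q+1)/2` lines of `H` -/
def IsHemisystem {P L : Type} (I : P → L → Prop) (q : ℕ) (H : Set L) : Prop :=
  ∀ p : P, {l | l ∈ H ∧ I p l}.ncard = (q + 1) / 2

/-- the graph `Γ(H)`: the vertices are the lines of `H`, two distinct lines are adjacent when they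
meet in a point -/
def hemiGraph {P L : Type} (I : P → L → Prop) (H : Set L) : SimpleGraph H where
  Adj l m := l ≠ m ∧ ∃ p : P, I p l ∧ I p m
  symm := ⟨fun _ _ h => ⟨h.1.symm, h.2.imp fun _ h' => ⟨h'.2, h'.1⟩⟩⟩
  loopless := ⟨fun _ h => h.1 rfl⟩

/-- isomorphic incidence structures -/
def Isomorphic {P₁ L₁ P₂ L₂ : Type} (I₁ : P₁ → L₁ → Prop) (I₂ : P₂ → L₂ → Prop) : Prop :=
  ∃ (e : P₁ ≃ P₂) (f : L₁ ≃ L₂), ∀ p l, I₁ p l ↔ I₂ (e p) (f l)

/-- A special set `X` of a quadrangle of order `(q^2, q)` which is compatible with the set `H` of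
lines: `q^2+1` pairwise noncollinear points, every point `r` outside `X` is collinear with no point
or with exactly two points `p`, `p'` of `X`, and in the second case the line `r p` is in `H` and the
line `r p'` is not in `H`. -/
def IsSpecial {P L : Type} (I : P → L → Prop) (H : Set L) (q : ℕ) (X : Set P) : Prop :=
  X.ncard = q ^ 2 + 1 ∧
  (∀ p ∈ X, ∀ p' ∈ X, p ≠ p' → ¬ ∃ l, I p l ∧ I p' l) ∧
  ∀ r ∉ X, (∀ p ∈ X, ¬ ∃ l, I r l ∧ I p l) ∨
    ∃ p ∈ X, ∃ p' ∈ X, p ≠ p' ∧ (∃ l ∈ H, I r l ∧ I p l) ∧ (∃ l, l ∉ H ∧ I r l ∧ I p' l) ∧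
      ∀ p'' ∈ X, (∃ l, I r l ∧ I p'' l) → p'' = p ∨ p'' = p'

/-- The incidence structure on the points of the first quadrangle whose lines are the lines outside
`H₁` of the first quadrangle and the lines outside `H₂` of the second one, transported by the
bijection `e` of the points. -/
def third {P₁ L₁ P₂ L₂ : Type} (I₁ : P₁ → L₁ → Prop) (H₁ : Set L₁) (I₂ : P₂ → L₂ → Prop)
    (H₂ : Set L₂) (e : P₁ ≃ P₂) : P₁ → ({l : L₁ // l ∉ H₁} ⊕ {m : L₂ // m ∉ H₂}) → Prop
  | p, .inl l => I₁ p l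
  | p, .inr m => I₂ (e p) m

end Pool.Agent.Lib.MP0ea612
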