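import Pool.Agent.Lib.MP_0ea612_co.Base

/-!
# Specifications: two quadrangles which share a hemisystem

Notation in the proofs: `q = 2k+1`, `K = KK k = q^2+1 = 2h`, `h = hh k`, `θ = th k = h + k`,
`r = k+1` (lines of one family on a point).  `V = V(X)` = lines of `H` meeting the `B`-line `X`.
-/

set_option autoImplicit false

namespace Pool.Agent.Lib.MP0ea612

/-! ## one quadrangle -/

/-- `ADJ` [120 lines].
(1) Every `y` adjacent to `x` meets `x` in exactly one point (`u`), so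
`∑_y ind (Adj x y) = ∑_{p ∈ x} (number of lines on p other than x) = K (2k+1)` (`sum_ind_fiber`).
(2) `x, y` meet at `p`.  If `z` is adjacent to both then `z ∋ p` (by (4)), conversely every line on
`p` other than `x, y` is adjacent to both: `2k+2-2`.
(3) `x ≠ y` without common point: for `p ∈ x` there is, by `e`, a line `z ∋ p` which meets `y`; `z` is
unique (`e'` gives the same point of `y`, then `u`); `z ≠ x, y`.  Conversely each `z` adjacent to both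
meets `x` in exactly one point.  So the number is the number of points of `x`.
(4) `a ∈ x ∩ y`, `b ∈ y ∩ z`, `c ∈ x ∩ z`.  If `c ∈ y` take `c`.  Otherwise `c ∉ y`, `c ~ a` by `x`,
`c ~ b` by `z`, so `a = b` by `e'`; take `a`.
(5) Fix a line `x` (there is one: `ne`, `d`).  Let `N` be the number of `y ≠ x` not adjacent to `x`.
Count the pairs `(z,y)`, `z` adjacent to `x`, `y ≠ x` adjacent to `z` and not adjacent to `x`:
`N K` (by (3)) `= K (2k+1) (K (2k+1) - 1 - 2k) = K (2k+1)^2 (K-1)`, and `K-1 = (2k+1)^2`, `K ≠ 0`.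
So `|L| = 1 + K (2k+1) + (2k+1)^4`.  (`1 ≤ k`.) -/
def SpecADJ : Prop := ∀ {P L : Type} [Fintype P] [Fintype L] (I : P → L → Prop) (k : ℤ), 1 ≤ k →
  GQ I k →
  (∀ x, ∑ y, ind (Adj I x y) = KK k * (2 * k + 1)) ∧
  (∀ x y, Adj I x y → ∑ z, ind (Adj I z x ∧ Adj I z y) = 2 * k) ∧
  (∀ x y, x ≠ y → ¬ Adj I x y → ∑ z, ind (Adj I z x ∧ Adj I z y) = KK k) ∧
  (∀ x y z, Adj I x y → Adj I y z → Adj I x z → ∃ p, I p x ∧ I p y ∧ I p z) ∧
  (∑ _x : L, (1 : ℤ)) = (2 * k + 2) * ((2 * k + 1) ^ 3 + 1)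

/-- `HD` [60 lines].  `h` contains exactly `k+1` lines on every point.
(1) as in `ADJ` (1): `∑_{y} ind (h y ∧ Adj x y) = ∑_{p ∈ x} (k+1 - ind (h x))`.
(2) `|P| (2k+2) = ∑_p ∑_x ind (I p x) = K |L|`, so `|P| = K ((2k+1)^3+1)` (by `ADJ` (5)), and
`|P| (k+1) = ∑_p ∑_x ind (I p x ∧ h x) = K ∑_x ind (h x)`. -/
def SpecHD : Prop := ∀ {P L : Type} [Fintype P] [Fintype L] (I : P → L → Prop) (k : ℤ), 1 ≤ k →
  GQ I k → ∀ h : L → Prop, (∀ p, ∑ x, ind (I p x ∧ h x) = k + 1) →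
  (∀ x, ∑ y, ind (h y ∧ Adj I x y) = KK k * (k + 1 - ind (h x))) ∧
  ∑ x, ind (h x) = (k + 1) * ((2 * k + 1) ^ 3 + 1)

/-- `TRI` [120 lines]: three pairwise disjoint lines have exactly `q+1` transversals.
Uses only the conclusions (1)-(5) of `ADJ` (apply `hADJ`).  Fix `x1 ≠ x2` not adjacent.  `T` = set
of the `z` adjacent to both, `|T| = K`.  `f m = ∑_z ind (Adj z x1 ∧ Adj z x2 ∧ Adj z m)`.
* Two different `t, t' ∈ T` are not adjacent (else `x1, t, t'` pairwise adjacent, so they have a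
  common point `p`, in the same way `x2, t, t'` have a common point `p'`, `p = p'` by `u` as
  `t ≠ t'`, so `x1, x2` meet).  So `f m = 0` for `m ∈ T`.
* `f x1 = f x2 = K`.
* `m` adjacent to `x1` and not to `x2`, `m ≠ x2`: `f m = 1`.  (The point `a = m ∩ x1` is not on
  `x2`; the line `t` on `a` that meets `x2` is in `T` and `≠ m`, adjacent to `m`.  Any
  other `z ∈ T` adjacent to `m`: `z, m, x1` pairwise adjacent, so `z ∋ a` [the common point of the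
  three is the point of `m ∩ x1`], so `z = t` by `e'`, `u`.)  The number of such `m` is
  `K(2k+1) - K`.  The same with `x1, x2` exchanged.
* `∑_m f m = ∑_{t ∈ T} ∑_m ind (Adj t m) = K · K(2k+1)`.
* `∑_m (f m)^2 = ∑_{t,t' ∈ T} ∑_m ind (Adj t m ∧ Adj t' m) = K · K(2k+1) + K(K-1) · K`.
* Let `D` = the `m ≠ x1, x2` adjacent to none of them.  `|D| = |L| - 2 - K - 2(K(2k+1)-K)`,
  `∑_D f = K^2(2k+1) - 2K - 2(K(2k+1)-K)`, `∑_D f^2 = K^2(2k+1) + K^2(K-1) - 2K^2 - 2(K(2k+1)-K)`.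
  Then `∑_D (f - (2k+2))^2 = 0` (polynomial identity in `k`), so `f = 2k+2` on `D`. -/
def SpecTRI : Prop := ∀ {P L : Type} [Fintype P] [Fintype L] (I : P → L → Prop) (k : ℤ), 1 ≤ k →
  GQ I k → ∀ x1 x2 x3, x1 ≠ x2 → x1 ≠ x3 → x2 ≠ x3 → ¬ Adj I x1 x2 → ¬ Adj I x1 x3 →
  ¬ Adj I x2 x3 → ∑ z, ind (Adj I z x1 ∧ Adj I z x2 ∧ Adj I z x3) = 2 * k + 2

/-- `SRG` [150 lines]: transversals in the hemisystem.  `h` as in `HD`; `T`, `f` as in `TRI`.
(S1) `x1, x2 ∈ h` disjoint, `a = ∑_z ind (h z ∧ z ∈ T)`.  Count `S = ∑_{m ∈ h} f m` twice.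
`S = ∑_{t ∈ T} ∑_m ind (h m ∧ Adj t m) = ∑_{t ∈ T} K (k+1 - ind (h t)) = K (K (k+1) - a)`.
`S`: `m = x1, x2`: `2K`.  `m ∈ T`: `0`.  `m ∈ h` adjacent to exactly one of `x1, x2`: `1`, there are
`2 (K k - a)` of them.  `m ∈ h` adjacent to none, `m ≠ x1, x2`: `2k+2` by `TRI`, there are
`|h| - 2 - a - 2 (K k - a)`.  Solve: `a ((2k+2) - 2 + K) = ...` gives `a = 2 k^2`.
(S2) `x1 ∈ h`, `x2 ∉ h` disjoint, `b = ∑_z ind (h z ∧ z ∈ T)`.  `S = K (K (k+1) - b)`.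
`m = x1`: `K`;  `m ∈ T`: 0; `m ∈ h` adjacent to `x1` only: `K k - b`; to `x2` only: `K (k+1) - b`;
to none, `m ≠ x1`: `|h| - 1 - b - (K k - b) - (K (k+1) - b)`, each with `f = 2k+2`.
So `b = 2k^2+2k+1`.  (The values of `f` on `T`, on `x1, x2` and on the lines adjacent to exactly one of
`x1, x2` are as in the docstring of `TRI`; prove them again here.) -/
def SpecSRG : Prop := ∀ {P L : Type} [Fintype P] [Fintype L] (I : P → L → Prop) (k : ℤ), 1 ≤ k →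
  GQ I k → ∀ h : L → Prop, (∀ p, ∑ x, ind (I p x ∧ h x) = k + 1) →
  (∀ x y, h x → h y → x ≠ y → ¬ Adj I x y → ∑ z, ind (h z ∧ Adj I z x ∧ Adj I z y) = 2 * k ^ 2) ∧
  (∀ x y, h x → ¬ h y → ¬ Adj I x y → ∑ z, ind (h z ∧ Adj I z x ∧ Adj I z y) = hh k)

/-- `PR` [150 lines]: translation to a `Pair`.  Apply `ADJ`, `HD`, `TRI`, `SRG` to the quadrangle with
lines `L1 ⊕ L2` and incidence `J p (inl x) = I1 p x`, `J p (inr y) = I2 p y` (it is a `GQ`), with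
`h = (· ∈ range inl)`; sums over `L1 ⊕ L2` split (`Fintype.sum_sum_type`).
(3) for `x ≠ x'` in `L1` without common point: all `K = KK k` transversals minus the `2k^2` in `L1`. -/
def SpecPR : Prop := ∀ {P L1 L2 : Type} [Fintype P] [Fintype L1] [Fintype L2]
  (I1 : P → L1 → Prop) (I2 : P → L2 → Prop) (k : ℤ), 1 ≤ k → Pair I1 I2 k →
  (∀ x : L1, ∑ y, ind (Mt I1 I2 x y) = KK k * (k + 1)) ∧
  (∀ x x' : L1, x ≠ x' → Mt I1 I1 x x' → ∑ y, ind (Mt I1 I2 x y ∧ Mt I1 I2 x' y) = k + 1) ∧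
  (∀ x x' : L1, ¬ Mt I1 I1 x x' → ∑ y, ind (Mt I1 I2 x y ∧ Mt I1 I2 x' y) = 2 * (k + 1) ^ 2) ∧
  (∀ (x : L1) (y : L2), ¬ Mt I1 I2 x y → ∑ z : L1, ind (Mt I1 I1 z x ∧ Mt I1 I2 z y) = hh k) ∧
  (∀ x1 x2 x3 : L1, ¬ Mt I1 I1 x1 x2 → ¬ Mt I1 I1 x1 x3 → ¬ Mt I1 I1 x2 x3 →
    ∑ z : L1, ind (Mt I1 I1 z x1 ∧ Mt I1 I1 z x2 ∧ Mt I1 I1 z x3) +
      ∑ y : L2, ind (Mt I1 I2 x1 y ∧ Mt I1 I2 x2 y ∧ Mt I1 I2 x3 y) = 2 * k + 2) ∧
  (∑ _y : L2, (1 : ℤ)) = (k + 1) * ((2 * k + 1) ^ 3 + 1) ∧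
  (∑ _x : L1, (1 : ℤ)) = (k + 1) * ((2 * k + 1) ^ 3 + 1) ∧
  (∀ x x' : L1, ¬ Mt I1 I1 x x' → ∑ z : L1, ind (Mt I1 I1 z x ∧ Mt I1 I1 z x') = 2 * k ^ 2)

/-! ## two quadrangles: local structure -/

/-- `LA` [150 lines].  In a `Pair`, `p` not on a line `y`: the point of `y` collinear with `p` is unique.
(0) `p ≠ p'` on `X`, `l ∋ p`, `l' ∋ p'` lines of `H`: no common point.  If `l, l'` have a common point
`a`: `a = p` or `a = p'` gives two points of `X` on a line of `H` (`SB.u12`; also if `l = l'`);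
otherwise `a ∉ X` (same reason) and `p`, `p'` are two points of `X` collinear with `a`: `SB.e2'`.
(1) Suppose `m ≠ m'`.  `p ∉ m'` (`p, a ∈ m ∩ m'`), and `a` is the only point of `m'` which is
collinear with `p` in `SA`, so `Col IH IA p p'` is false.  For each of the `k+1` lines `l ∋ p` of `H`:
`p' ∉ l`, there are `b ∈ l` and a line `n ∋ b, p'`; `n ∈ H` contradicts (0), so `n` is an `A`-line.
The map `l ↦ n` from the `H`-lines on `p` to the `A`-lines on `p'` is injective (`p ∉ n`; the point of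
`n` collinear with `p` is unique, it is `b`; `l` is the line `p b`), so it is surjective (`k+1` on both
sides): `m' = n` for some `l`, then `b = a` (uniqueness on `m'`), so `p, a` are on `l` and on `m`:
`SA.u12`.
(2) `q ∉ m`, so there are `b ∈ m` and a line `n ∋ q, b` (`SA.e2`).  `n ∈ A`: one of `p, p'` is `≠ b`, say
`p`; (1) with `p, q, a := b, m, n` gives `m = n`, contradiction to `q ∉ m`.  So `n ∈ H`; `b ∉ X` by
`SB.u12`.
(3a) `q ∉ m`; `b, n` as in (2).  `n ∈ A`: `b ≠ p` by hypothesis (no `A`-line through `p` and `q`),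
(1) gives `m = n`, contradiction.  So `n ∈ H`.
(3b) `p` is the only point of `m` collinear with `q` (by `m1`), so `b = p` and `l` has the points `p, q`
of `X`: `SB.u12`.
(4) If `m ≠ m'`, then `p'' ∉ m` and (2) with `q = p''` gives a line `l ∋ p''` of `H` and `b ∈ l ∩ m`,
`b ∉ X`; but `p'' ~ p` (by `m'`), so `b = p ∈ X` by uniqueness. -/
def SpecLA : Prop := ∀ {P H A B : Type} [Fintype P] [Fintype H] [Fintype A] [Fintype B]
  (IH : P → H → Prop) (IA : P → A → Prop) (IB : P → B → Prop) (k : ℤ), Two IH IA IB k → ∀ X : B,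
  (∀ p p' l l', IB p X → IB p' X → p ≠ p' → IH p l → IH p' l' → ¬ Mt IH IH l l') ∧
  (∀ p p' a m m', IB p X → IB p' X → p ≠ p' → a ≠ p → a ≠ p' → IA p m → IA a m → IA p' m' →
    IA a m' → m = m') ∧
  (∀ m p p' q, p ≠ p' → IB p X → IA p m → IB p' X → IA p' m → IB q X → ¬ IA q m →
    ∃ l b, IH q l ∧ IH b l ∧ IA b m ∧ ¬ IB b X) ∧
  (∀ m p q, IB p X → IA p m → (∀ p', IB p' X → IA p' m → p' = p) → IB q X → q ≠ p →
    (¬ ∃ m1, IA p m1 ∧ IA q m1) → ∃ l, IH q l ∧ Mt IH IA l m) ∧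
  (∀ m p q m1, IB p X → IA p m → IB q X → ¬ IA q m → IA p m1 → IA q m1 →
    ¬ ∃ l, IH q l ∧ Mt IH IA l m) ∧
  (∀ m m' p p' p'', p ≠ p' → IB p X → IA p m → IB p' X → IA p' m → p ≠ p'' → IA p m' →
    IB p'' X → IA p'' m' → m = m')

/-- `CV` [150 lines]: values of `c`, from `LA`.  First: every `l ∈ V(X)` has exactly one point on `X`
(`SB.u12`), so `cc X m = ∑_{q ∈ X} ee q m`.  `ee q m = k+1` if `q ∈ m`; `ee q m ∈ {0,1}` if
`q ∉ m` (two `H`-lines `l, l' ∋ q` which meet `m`: they meet it in the same point `b` by `SA.e2'`, so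
`l = l'` by `u11`).
(1) `0 ≤ cc`; (2) if `kap = 0` then `cc ≤ K` (`∑_{q ∈ X} 1`).
(3) `2 ≤ kap`: `ee q m = 1` for all `q ∈ X` not on `m` (`LA` (2)): `cc = kap (k+1) + (K - kap)`.
(4) `kap = 1`, `p ∈ X ∩ m`: `ee q m = 1` for `q ∈ X`, `q ≠ p`, not on a common `A`-line with `p`
(`LA` (3a)), `= 0` if on a common `A`-line with `p` (`LA` (3b)): `cc = (k+1) + (K - cl p)`.
(5) `2 ≤ kap X m`, `p ∈ X ∩ m`: `cl p = kap X m` (a point `q ∈ X`, `q ≠ p` on an `A`-line `m' ∋ p` is on `m`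
by `LA` (4)).
(6) if every `A`-line on `p` has `kap ≤ 1` then `cl p = 1`.
(7) `1 ≤ cl p ≤ K`.  (8) `0 ≤ kap ≤ K` and if `kap X m = K` then `X` and `m` have the same points
(both have `K` points). -/
def SpecCV : Prop := ∀ {P H A B : Type} [Fintype P] [Fintype H] [Fintype A] [Fintype B]
  (IH : P → H → Prop) (IA : P → A → Prop) (IB : P → B → Prop) (k : ℤ), Two IH IA IB k → ∀ X : B,
  (∀ m, 0 ≤ cc IH IA IB X m) ∧
  (∀ m, kap IA IB X m = 0 → cc IH IA IB X m ≤ KK k) ∧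
  (∀ m, 2 ≤ kap IA IB X m →
    cc IH IA IB X m = kap IA IB X m * (k + 1) + (KK k - kap IA IB X m)) ∧
  (∀ m p, kap IA IB X m = 1 → IB p X → IA p m →
    cc IH IA IB X m = (k + 1) + (KK k - cl IA IB X p)) ∧
  (∀ m p, 2 ≤ kap IA IB X m → IB p X → IA p m → cl IA IB X p = kap IA IB X m) ∧
  (∀ p, IB p X → (∀ m, IA p m → kap IA IB X m ≤ 1) → cl IA IB X p = 1) ∧
  (∀ p, IB p X → 1 ≤ cl IA IB X p ∧ cl IA IB X p ≤ KK k) ∧
  (∀ m, 0 ≤ kap IA IB X m ∧ kap IA IB X m ≤ KK k ∧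
    (kap IA IB X m = KK k → ∀ p, IB p X ↔ IA p m))

/-- `FT` [200 lines]: lines through a point `b` of a line `m1` with `2 ≤ kap X m1`, `b ∉ X`.
(1) `m ∋ b`, `m ≠ m1` has no point on `X`: suppose `q ∈ X ∩ m`.  `q ∉ m1` (`q, b ∈ m ∩ m1`).  By `LA` (2) there
are a line `l ∋ q` of `H` and `b' ∈ l ∩ m1`; `b' = b` by `SA.e2'` (`q ~ b` by `m`); `l, m` share `q, b`: `u12`.
(2) `g = ∑_l ind (IH b l ∧ Mt IH IB l X) = 1`.  `g ≤ 1`: `l, l' ∋ b` meeting `X` at `p, p'`; `p ≠ p'` contradicts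
`LA` (0), `p = p'` gives `l = l'` (`u11`, `b ≠ p`).  `g ≥ 1`: the `K - kap` points `q ∈ X`, `q ∉ m1`
are mapped by `LA` (2) to points `b_q ∈ m1`, `b_q ∉ X` (`K - kap` points, as `m1` has `K` points) which have
`g ≥ 1`; the map is injective (two different `q` with the same `b_q` contradict `LA` (0)), so
surjective.
(3) `∑_{m ∋ b} cc X m = ∑_{l ∈ V} ∑_{m ∋ b} ind (Mt l m)`.  `b ∈ l`: `k+1`.  `b ∉ l`: exactly one line of `SA` on `b`
meets `l` (`SA.e1`, `e1'`, `u12`, `u11`): `= 1 - ∑_{l0 ∋ b} ind (Mt l0 l)`.  `|V| = K (k+1)`.  Exactly one `l1 ∈ V` has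
`b ∈ l1` (by (2)).  `∑_{l ∈ V, b ∉ l} ∑_{l0 ∋ b} ind (Mt l0 l)`: for `l0 = l1` (meets `X` at `q`): the `l ∈ V`, `b ∉ l`
meeting `l1` are the `k` other `H`-lines on `q` (`LA` (0); a line on another point of `X` does not
meet `l1`; `b ∉ l` by `u11`); for each of the `k` other `l0 ∋ b` (not meeting `X`): `PR` (4) for
`(l0, X)` in `SB` gives `hh k` lines of `V` meeting `l0`, one of them is `l1` (meets `l0` at `b`), the other
ones do not contain `b`: `hh k - 1`.  Total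
`(k+1) + (K (k+1) - 1) - k - k (hh k - 1) = 2 (k+1)^3`. -/
def SpecFT : Prop := ∀ {P H A B : Type} [Fintype P] [Fintype H] [Fintype A] [Fintype B]
  (IH : P → H → Prop) (IA : P → A → Prop) (IB : P → B → Prop) (k : ℤ), Two IH IA IB k → ∀ X : B,
  ∀ m1, 2 ≤ kap IA IB X m1 → ∀ b, IA b m1 → ¬ IB b X →
  (∀ m, IA b m → m ≠ m1 → kap IA IB X m = 0) ∧
  ∑ m, ind (IA b m) * cc IH IA IB X m = 2 * (k + 1) ^ 3

/-! ## moments -/

/-- `TA` [120 lines].  For fixed `X`, all from `PR` for `SA`, `LA` (0) and double counting.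
(1) `∑_m cc X m = ∑_{l ∈ V} ∑_m ind (Mt l m) = K (k+1) · K (k+1)` (`|V| = K (k+1)`).
(2) `∑_m kap X m = ∑_{p ∈ X} (k+1)`.
(3) `p ≠ p'` on `X`: `∑_m ind (p ∈ m) ee p' m = ∑_{l' ∋ p'} ∑_{m ∋ p} ind (Mt l' m)`, and for each `l' ∋ p'`: `p ∉ l'`,
exactly one line of `SA` on `p` meets `l'` and it is not in `H` (`LA` (0)): `= k+1`.
(4) `ee p m = k+1` if `p ∈ m` and `ee p m ∈ {0, 1}` otherwise (see `CV`), for all `p ∈ X` (true for all
points).
(5) `cc X m = ∑_p ind (IB p X) ee p m` (each `l ∈ V` has exactly one point on `X`). -/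
def SpecTA : Prop := ∀ {P H A B : Type} [Fintype P] [Fintype H] [Fintype A] [Fintype B]
  (IH : P → H → Prop) (IA : P → A → Prop) (IB : P → B → Prop) (k : ℤ), Two IH IA IB k → ∀ X : B,
  ∑ m, cc IH IA IB X m = (KK k * (k + 1)) ^ 2 ∧
  ∑ m, kap IA IB X m = KK k * (k + 1) ∧
  (∀ p p', IB p X → IB p' X → p ≠ p' → ∑ m, ind (IA p m) * ee IH IA p' m = k + 1) ∧
  (∀ p m, (IA p m → ee IH IA p m = k + 1) ∧
    (¬ IA p m → ee IH IA p m = 0 ∨ ee IH IA p m = 1)) ∧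
  (∀ m, cc IH IA IB X m = ∑ p, ind (IB p X) * ee IH IA p m)

/-- `TB` [100 lines].
(1) `p ≠ p'` on `X`: `∑_m ee p m ee p' m = ∑_{l ∋ p, l' ∋ p'} ∑_m ind (Mt l m ∧ Mt l' m) = (k+1)^2 · 2(k+1)^2`
(`PR` (3), `LA` (0)).
(2) `p, p', p''` different points of `X`: `∑_m ee p m ee p' m ee p'' m = ∑_{l ∋ p, l' ∋ p', l'' ∋ p''} (number of A-lines
meeting all three) = (k+1)^3 (2k+2) - ∑_{l0 : H} g p l0 g p' l0 g p'' l0` with `g p l0 = ∑_l ind (IH p l ∧ Mt l l0)`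
(`PR` (5), `LA` (0)). -/
def SpecTB : Prop := ∀ {P H A B : Type} [Fintype P] [Fintype H] [Fintype A] [Fintype B]
  (IH : P → H → Prop) (IA : P → A → Prop) (IB : P → B → Prop) (k : ℤ), Two IH IA IB k → ∀ X : B,
  (∀ p p', IB p X → IB p' X → p ≠ p' →
    ∑ m, ee IH IA p m * ee IH IA p' m = 2 * (k + 1) ^ 4) ∧
  (∀ p p' p'', IB p X → IB p' X → IB p'' X → p ≠ p' → p ≠ p'' → p' ≠ p'' →
    ∑ m, ee IH IA p m * ee IH IA p' m * ee IH IA p'' m = 2 * (k + 1) ^ 4 -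
      ∑ l0, ee IH IH p l0 * ee IH IH p' l0 * ee IH IH p'' l0)

/-- `TC` [120 lines].  `∑_{p,p',p'' ∈ X different} ∑_{l0 : H} g p l0 g p' l0 g p'' l0`, `g = ee IH IH`.  Fix `l0`.
If `l0` meets `X` at `p0`: `g p l0 = 0` for `p ∈ X`, `p ≠ p0` (`LA` (0)), so the sum over different triples
is `0`.  If `l0` does not meet `X`: `g p l0 ∈ {0,1}` for `p ∈ X` (two `H`-lines on `p` meeting `l0`, `p ∉ l0`:
`e1'`, `u11`), and `∑_{p ∈ X} g p l0 = ∑_l ind (Mt l l0 ∧ Mt l X) = hh k` (`PR` (4) for `(l0, X)` in `SB`; each such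
`l` has exactly one point on `X`): `h (h-1) (h-2)` ordered triples.  The number of `l0` not meeting `X` is
`|H| - K (k+1)`. -/
def SpecTC : Prop := ∀ {P H A B : Type} [Fintype P] [Fintype H] [Fintype A] [Fintype B]
  (IH : P → H → Prop) (IA : P → A → Prop) (IB : P → B → Prop) (k : ℤ), Two IH IA IB k → ∀ X : B,
  ∑ p, ∑ p', ∑ p'', ind (IB p X ∧ IB p' X ∧ IB p'' X ∧ p ≠ p' ∧ p ≠ p'' ∧ p' ≠ p'') *
      (∑ l0, ee IH IH p l0 * ee IH IH p' l0 * ee IH IH p'' l0) =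
    ((k + 1) * ((2 * k + 1) ^ 3 + 1) - KK k * (k + 1)) * (hh k * (hh k - 1) * (hh k - 2))

/-- `MO` [150 lines]: the moment identity, from `PR` (for `|A|`), `TA`, `TB`, `TC`.
With `s p = ind (IB p X)`, `e p = ee p m` (fixed `m`), `κ = kap X m = ∑_p s p ind (IA p m)`:
`s e^2 = s (e + ind(p ∈ m) k (k+1))`, `s e^3 = s (e + ind(p ∈ m) ((k+1)^3 - (k+1)))` (`TA` (4)).
`cc^2 = D2 + ∑ s e^2`, `D2 = ∑_{p ≠ p' ∈ X} e p e p'`;
`cc^3 = D3 + 3 ∑_{p ≠ p' ∈ X} e(p)^2 e(p') + ∑ s e^3`, `D3` = sum over different triples of `X`.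
So `cc^2 = D2 + cc + κ k (k+1)`,
`cc^3 = D3 + 3 D2 + 3 k (k+1) ∑_{p ≠ p' ∈ X} ind (p ∈ m) e(p') + cc + κ ((k+1)^3 - (k+1))`.
Sum over `m`: `∑ cc = (K(k+1))^2`, `∑ κ = K (k+1)`, `∑_m D2 = K (K-1) 2 (k+1)^4`,
`∑_m ∑_{p ≠ p'} ind (p ∈ m) e(p') = K (K-1) (k+1)`,
`∑_m D3 = K (K-1) (K-2) 2 (k+1)^4 - ((k+1)((2k+1)^3+1) - K (k+1)) h (h-1) (h-2)`, `∑_m 1 = (k+1)((2k+1)^3+1)`.
Then `∑_m (cc - h)^2 (θ - (cc - h)) = 0` is a polynomial identity in `k` (checked). -/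
def SpecMO : Prop := ∀ {P H A B : Type} [Fintype P] [Fintype H] [Fintype A] [Fintype B]
  (IH : P → H → Prop) (IA : P → A → Prop) (IB : P → B → Prop) (k : ℤ), Two IH IA IB k → ∀ X : B,
  ∑ m, EE k IH IA IB X m = 0

/-! ## the inequality -/

/-- `SM` [150 lines]: from `CV`, `LA` (4).  Put `η = cc - h`.
* `kap X m = 1`, `X ∩ m = {p}`: `η = θ - (cl p - 1)`, `EE = (θ - cl p + 1)^2 (cl p - 1) =: g (cl p)`, `g 1 = 0`.
* `κ = kap X m ≥ 2`: `η = θ + (κ-1) k`, `EE = - (θ + (κ-1) k)^2 (κ-1) k`.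
`∑_m ind (kap = 1) EE = ∑_{p ∈ X} g (cl p) ∑_{m ∋ p} ind (kap X m = 1)`.  For `p ∈ X`: if no `m ∋ p` has
`kap ≥ 2` then `cl p = 1`, `g = 0`.  Otherwise exactly one `m1 ∋ p` has `kap ≥ 2` (`LA` (4)), `cl p = kap X m1`, and the
`k` other `A`-lines on `p` have `kap = 1`.  So the sum is `∑_{p ∈ X} ∑_{m1 ∋ p} ind (2 ≤ kap X m1) k g (kap X m1) =
∑_{m1} ind (2 ≤ kap X m1) κ k g (κ)`.  Finally `κ (θ - κ + 1)^2 - (θ + (κ-1) k)^2 = (κ-1) FF k κ`. -/
def SpecSM : Prop := ∀ {P H A B : Type} [Fintype P] [Fintype H] [Fintype A] [Fintype B]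
  (IH : P → H → Prop) (IA : P → A → Prop) (IB : P → B → Prop) (k : ℤ), Two IH IA IB k → ∀ X : B,
  ∑ m, ind (kap IA IB X m ≠ 0) * EE k IH IA IB X m =
    ∑ m, ind (2 ≤ kap IA IB X m) * ((kap IA IB X m - 1) ^ 2 * k * FF k (kap IA IB X m))

/-- `LB` [200 lines]: from `CV`, `FT`, `LA` (4).  `η = cc - h`, `p(x) = x^2 (θ - x)`, `EE = p(η)`.
Fix `m1` with `κ = kap X m1 ≥ 2`, and `b ∈ m1`, `b ∉ X`.
(1) `∑_{m ∋ b, m ≠ m1} η = 2(k+1)^3 - (κ (k+1) + K - κ) - k h = -(κ-1) k` (`FT`, `CV` (3); there are `k`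
`A`-lines on `b` other than `m1`), they have `kap = 0`, so `cc ≤ K`, `η ≤ h ≤ θ`.  Tangent line at `t = -(κ-1) ≤ 0`:
`p(η) - p(t) - p'(t)(η - t) = (η - t)^2 (θ - η - 2t) ≥ 0`, `p'(t) = 2θt - 3t^2`; sum over the `k` lines:
`∑_{m ∋ b, m ≠ m1} EE ≥ k p(t) = k (κ-1)^2 (θ + κ - 1)`.
(2) `EE ≥ 0` if `kap = 0`.  For every `m` with `kap X m = 0`:
`∑_{m1} ind (2 ≤ kap X m1 ∧ Mt IA IA m1 m) kap X m1 ≤ K`, because `∑_{m1} ind (2 ≤ kap X m1) kap X m1 =
∑_{p ∈ X} ∑_{m1 ∋ p} ind (2 ≤ kap X m1) ≤ ∑_{p ∈ X} 1` (`LA` (4)).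
(3) `K ∑_m ind (kap = 0) EE ≥ ∑_{m1} ind (2 ≤ kap X m1) kap X m1 ∑_m ind (kap X m = 0 ∧ Mt IA IA m1 m) EE`, and
for fixed `m1` the lines `m` with `kap X m = 0` meeting `m1` are, for `b ∈ m1`, `b ∉ X`, the lines `m ∋ b`, `m ≠ m1`
(`FT` (1); each such `m` meets `m1` in exactly one point): the inner sum is
`≥ (K - κ) k (κ-1)^2 (θ + κ - 1)` by (1). -/
def SpecLB : Prop := ∀ {P H A B : Type} [Fintype P] [Fintype H] [Fintype A] [Fintype B]
  (IH : P → H → Prop) (IA : P → A → Prop) (IB : P → B → Prop) (k : ℤ), Two IH IA IB k → ∀ X : B,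
  ∑ m, ind (2 ≤ kap IA IB X m) * (kap IA IB X m * (KK k - kap IA IB X m) * k *
      (kap IA IB X m - 1) ^ 2 * (th k + kap IA IB X m - 1)) ≤
    KK k * ∑ m, ind (kap IA IB X m = 0) * EE k IH IA IB X m

/-- `NU` [60 lines]: integers `k ≥ 1`, `2 ≤ x ≤ h + 1`, `K = 2h`, `h = 2k^2+2k+1`, `θ = h + k`.
Identity (`ring`): `x (K-x)(θ+x-1) + K FF k x = (K-x) (x^2 - x h + h^2 + x (k-1)) - (2k+1) x h`.
For `k ≥ 2`: `4 (x^2 - x h + h^2) ≥ 3 h^2`, `K - x ≥ h - 1`, `x ≤ h+1`, so 4 times the value is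
`≥ 3 (h-1) h^2 - 4 (2k+1)(h+1) h > 0`, because `3 (h-1) h > 4 (2k+1)(h+1)` (`h = 2k^2+2k+1 ≥ 13`).
For `k = 1` (`h = 5`, `2 ≤ x ≤ 6`) check the five cases. -/
def SpecNU : Prop := ∀ k x : ℤ, 1 ≤ k → 2 ≤ x → x ≤ hh k + 1 →
  0 < x * (KK k - x) * (th k + x - 1) + KK k * FF k x

/-- `DX` [100 lines]: from `CV`, `FT`, `MO`, `SM`, `LB`, `NU`: a `B`-line with two points on an `A`-line `m1` has
the same points as `m1`.  Suppose `2 ≤ kap X m1 < K`.
* Every `m` has `kap X m < K`: if `kap X m = K` then `X` and `m` have the same points (`CV` (8)), then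
`m1` and `m` have two common points, `m1 = m`, contradiction.
* If `2 ≤ κ = kap X m` (`< K`) there is `b ∈ m`, `b ∉ X`; `FT` and `0 ≤ cc` give
`κ (k+1) + K - κ = cc X m ≤ 2 (k+1)^3`, i.e. `κ k ≤ 2k^3+2k^2+2k`, `κ ≤ h + 1`.
* `0 = K ∑ EE = K ∑ ind (kap = 0) EE + K ∑ ind (kap ≠ 0) EE ≥ ∑_m ind (2 ≤ κ) (κ-1)^2 k (κ (K-κ)(θ+κ-1) + K FF k κ) > 0`
by `LB`, `SM`, `NU`. -/
def SpecDX : Prop := ∀ {P H A B : Type} [Fintype P] [Fintype H] [Fintype A] [Fintype B]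
  (IH : P → H → Prop) (IA : P → A → Prop) (IB : P → B → Prop) (k : ℤ), Two IH IA IB k → ∀ X : B,
  ∀ m p p', p ≠ p' → IB p X → IA p m → IB p' X → IA p' m → ∀ b, IB b X ↔ IA b m

/-! ## global structure -/

/-- `GL` [150 lines]: from `DX`, `LA` (1), `PR` (8) (for `SB.symm : Pair IB IH k`), `PR` (6), (7).
Suppose the second alternative fails: by `DX` some `X0 : B` and `m0 : A` have the same points.
Claim: if `X` has the same points as `m`, and `X' : B` meets `X` (at `p`), then `X'` has the same points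
as some `A`-line.  `X' ≠ X` wlog.  Otherwise (by `DX`) every `A`-line has at most one point on `X'`.  Take `q ∈ X'`,
`q ≠ p` (`K ≥ 10` points); `q ∉ X`, `q ∉ m`.  By `SA.e2` there are `b ∈ m` and a line `n ∋ q, b` of `H` or `A`.
`b = p`: `n ∋ p, q ∈ X'`: `n ∈ H` contradicts `SB.u12`, `n ∈ A` contradicts the assumption.  `b ≠ p`: if `n ∈ H`:
`b, p` are two points of `X` collinear with `q ∉ X` in `SB`: `SB.e2'`.  If `n ∈ A`: `LA` (1) (line `X'`, points `p, q`,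
`a := b`, lines `m, n`) gives `m = n`, so `q ∈ m`, contradiction.
Connectivity: for `X' : B` not meeting `X0` there is `Z : B` meeting both (`PR` (8) for `Pair IB IH k`, `2 k^2 > 0`).
So every `X : B` has the same points as some `f X : A`; `f` is injective (`SB.u22`, two points), and
`|A| = |B|` (`PR` (6), (7)), so it is a bijection. -/
def SpecGL : Prop := ∀ {P H A B : Type} [Fintype P] [Fintype H] [Fintype A] [Fintype B]
  (IH : P → H → Prop) (IA : P → A → Prop) (IB : P → B → Prop) (k : ℤ), Two IH IA IB k →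
  (∃ f : A ≃ B, ∀ p m, IA p m ↔ IB p (f m)) ∨
  (∀ p p' m X, p ≠ p' → IA p m → IA p' m → IB p X → IB p' X → False)

/-- `G3` [200 lines]: from `LA`.  Assume no `A`-line and `B`-line have two common points.
(i) for `r ∉ X`: if `r` is on an `A`-line `m` meeting `X` (at `p`) then `r` is on an `H`-line meeting `X`: for each of
the `K - 1` points `q ∈ X`, `q ≠ p`, `LA` (3a) gives an `H`-line `l_q ∋ q` meeting `m` at `b_q`, `b_q ≠ p`
(`SB.u12`); `q ↦ b_q` is injective (`LA` (0)) into the `K - 1` points of `m` other than `p`, so it is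
surjective: `r = b_q`.
(ii) if `r` is on an `H`-line `l` meeting `X` (at `p`) then `r` is on an `A`-line meeting `X`: for `q ∈ X`, `q ≠ p` (`q ∉ l`) let
`n ∋ q` meet `l` at `b_q` (`SA.e1`); `n ∈ H` contradicts `LA` (0), so `n ∈ A`; `b_q ≠ p` by hypothesis; if `b_q = b_{q'}`
with `q ≠ q'` then `LA` (1) gives equal lines `n = n'` with two points on `X`, contradiction; so
injective and surjective onto the `K - 1` points of `l` other than `p`.
(iii) two `A`-lines on `r ∉ X` meeting `X` at `p, p'`: `p = p'` (`LA` (1) and the hypothesis).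
`Pair IA IB k`: `e2`, `e2'` for `r ∉ X : B`: by `SB` there is exactly one `p0 ∈ X` with `Col IH IB r p0`.  If they are on a
`B`-line: existence is clear; an `A`-line `r p1`, `p1 ∈ X` gives by (i) an `H`-line `r p2`, `p2 ∈ X`, so `p2 = p0` and the
`H`-line and the `B`-line share `r, p0`: contradiction.  If they are on an `H`-line: (ii) gives an `A`-line `r p1`,
unique by (iii); a `B`-line `r p3` would give `p3 = p0`, contradiction.  `e1`, `e1'` are the same statements for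
`h.symm` (proved for all `Two`, the hypothesis is symmetric). -/
def SpecG3 : Prop := ∀ {P H A B : Type} [Fintype P] [Fintype H] [Fintype A] [Fintype B]
  (IH : P → H → Prop) (IA : P → A → Prop) (IB : P → B → Prop) (k : ℤ), Two IH IA IB k →
  (∀ p p' m X, p ≠ p' → IA p m → IA p' m → IB p X → IB p' X → False) →
  Pair IA IB k ∧
  ∀ (X : B) (r : P), ¬ IB r X →
    ((∃ p m, IB p X ∧ IA r m ∧ IA p m) ↔ (∃ p l, IB p X ∧ IH r l ∧ IH p l)) ∧
    (∀ p p' m m', IB p X → IB p' X → IA r m → IA p m → IA r m' → IA p' m' → p = p')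

/-- `TR` [120 lines]: the graph determines the points.  `φ` preserves the concurrency of `H`-lines.
For a point `p` of `P1` take two lines `l ≠ l'` of `H1` on `p` (`k+1 ≥ 2`); `φ l`, `φ l'` are different and meet in
exactly one point `p'`.  For every `l''` in `H1`: `p ∈ l''` iff `p' ∈ φ l''` (if `l'' ≠ l, l'`: `p ∈ l''` implies that
`l''` is adjacent to `l` and `l'`, so `φ l''` is adjacent to `φ l`, `φ l'`, and three pairwise adjacent lines have a common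
point: no triangles, from `e1'`; the converse in the same way).  Put `e p = p'`.  `e` is injective
(a point is determined by its `H`-lines: at least two), the same construction for `φ.symm` gives
the inverse. -/
def SpecTR : Prop := ∀ {P1 H1 A1 P2 H2 A2 : Type} [Fintype P1] [Fintype H1] [Fintype A1]
  [Fintype P2] [Fintype H2] [Fintype A2] (IH1 : P1 → H1 → Prop) (IA1 : P1 → A1 → Prop)
  (IH2 : P2 → H2 → Prop) (IA2 : P2 → A2 → Prop) (k : ℤ), 1 ≤ k → Pair IH1 IA1 k →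
  Pair IH2 IA2 k → ∀ φ : H1 ≃ H2, (∀ l l', Adj IH1 l l' ↔ Adj IH2 (φ l) (φ l')) →
  ∃ e : P1 ≃ P2, ∀ p l, IH1 p l ↔ IH2 (e p) (φ l)

/-! ## the number of quadrangles with the same hemisystem graph -/

/-- `SA` [150 lines]: moments of `a(p') = ∑_l ∑_l' ind (IH p l ∧ IH p' l' ∧ Mt IH IH l l')` for fixed `p`, over the points
`p'` not collinear with `p`, `W p' := ¬ Col IH IA p p'` (note `Col p p` holds).  `q = 2k+1`.
(0) number: `|P| - 1 - (2k+2)(K-1) = q^5`, `|P| = K (q^3+1)`.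
(1) `∑_{p'} ind(W) a = ∑_{l ∋ p} ∑_{l' adjacent to l, p ∉ l'} #{p' ∈ l' : W p'}`: for `l ∋ p`, `l'` meeting `l` at `b ≠ p`: all
points `p' ≠ b` of `l'` are noncollinear with `p` (`e1'`): `K - 1 = q^2`.  The number of `l'` is `(K-1) k`.  So
`(k+1) · q^2 k · q^2`.
(2) for `W p'`, given `l ∋ p` there is at most one `l' ∋ p'` meeting `l` and vice versa, so `a^2 = a +
#{(l1,l2,l1',l2') : l1 ≠ l2, l1' ≠ l2'}` and
`∑_{p'} ind(W) (a^2 - a) = ∑_{l1 ≠ l2 ∋ p} ∑_{l1' adjacent to l1, p ∉ l1'} #{l2' : l2' meets l1' and l2, l2' ≠ l1}`;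
`l1'` and `l2` are disjoint, so the number of transversals in `H` is `2k^2` (`PR` (8)), one of them is `l1`:
`(k+1) k · (K-1) k · (2k^2 - 1)`.  (`p' = l1' ∩ l2'` is noncollinear with `p`: it is on `l1'`, not on `l1` [else
`l2'` meets `l1` and `l2`, so `l2' ∋ p`, `l2' = l1` or `p' = p`].) -/
def SpecSA : Prop := ∀ {P H A : Type} [Fintype P] [Fintype H] [Fintype A]
  (IH : P → H → Prop) (IA : P → A → Prop) (k : ℤ), 1 ≤ k → Pair IH IA k → ∀ p : P,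
  ∑ p', ind (¬ Col IH IA p p') = (2 * k + 1) ^ 5 ∧
  ∑ p', ind (¬ Col IH IA p p') * (∑ l, ∑ l', ind (IH p l ∧ IH p' l' ∧ Mt IH IH l l')) =
    k * (k + 1) * (2 * k + 1) ^ 4 ∧
  ∑ p', ind (¬ Col IH IA p p') * (∑ l, ∑ l', ind (IH p l ∧ IH p' l' ∧ Mt IH IH l l')) ^ 2 =
    k * (k + 1) * (2 * k + 1) ^ 4 + k ^ 2 * (k + 1) * (2 * k + 1) ^ 2 * (2 * k ^ 2 - 1)

/-- `BD` [120 lines]: from `SA`, `LA` (0).  Fix a point `p`.  For each `j` the points `p' ≠ p` on the `B j`-lines on `p`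
are `(k+1)(K-1)` points, noncollinear with `p` in `H ∪ A` (`SB.u12` and the hypothesis `hAB`), with `a(p') = 0`
(`LA` (0)); for different `j` these sets are disjoint (`hBB`).  So at least `n (k+1) q^2` of the `q^5` points in
`SA` have `a = 0`.  Cauchy-Schwarz: `(∑ a)^2 ≤ (q^5 - n (k+1) q^2) ∑ a^2`, where `∑ a = k (k+1) q^4` and
`∑ a^2 = k (k+1)^2 h q^2`; hence `k q^4 ≤ (q^3 - n (k+1)) h`, `n (k+1) h ≤ q^3 (h - k q) = q^3 (k+1)`. -/
def SpecBD : Prop := ∀ {P H A : Type} [Fintype P] [Fintype H] [Fintype A] (n : ℕ)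
  (B : Fin n → Type) [∀ j, Fintype (B j)]
  (IH : P → H → Prop) (IA : P → A → Prop) (IB : ∀ j, P → B j → Prop) (k : ℤ),
  (∀ j, Two IH IA (IB j) k) → 1 ≤ k → Pair IH IA k →
  (∀ j p p' m X, p ≠ p' → IA p m → IA p' m → IB j p X → IB j p' X → False) →
  (∀ i j p p' X Y, i ≠ j → p ≠ p' → IB i p X → IB i p' X → IB j p Y → IB j p' Y → False) →
  (n : ℤ) * hh k ≤ (2 * k + 1) ^ 3

end Pool.Agent.Lib.MP0ea612
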