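import Pool.Agent.Lib.MP_0ea612_co.Base
import Pool.Agent.Lib.MP_0ea612_co.Defs
import Pool.Agent.Lib.MP_0ea612_co.Spec

section
/-!
# Hemisystem graphs: from the statement to the working definitions and back
-/
set_option autoImplicit false

namespace Pool.Agent.Lib.MP0ea612.FinM

open Pool.Agent.Lib.MP0ea612

theorem ncard_eq_sum {α : Type} [Fintype α] (p : α → Prop) :
    (({a | p a}.ncard : ℕ) : ℤ) = ∑ a, ind (p a) := by
  classical
  rw [sum_ind_eq_card, Set.ncard_eq_toFinset_card']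
  congr 2
  ext a
  simp

theorem sum_subtype_ind {α : Type} [Fintype α] (h : α → Prop) [Fintype {a // h a}]
    (p : α → Prop) : ∑ x : {a // h a}, ind (p x) = ∑ a, ind (h a ∧ p a) := by
  classical
  rw [← ncard_eq_sum, ← ncard_eq_sum]
  congr 1
  rw [← Set.ncard_image_of_injective _ Subtype.val_injective]
  congr 1
  ext a
  simp only [Set.mem_image, Set.mem_ofPred_eq, Subtype.exists, exists_and_right, exists_eq_right]
  constructor
  · rintro ⟨h1, h2⟩; exact ⟨h1, h2⟩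
  · rintro ⟨h1, h2⟩; exact ⟨h1, h2⟩

/-- from a quadrangle with a hemisystem to a `Pair` -/
theorem toPair {P L : Type} (I : P → L → Prop) (H : Set L) (k : ℕ)
    (hG : IsGQ I ((2 * k + 1) ^ 2) (2 * k + 1)) (hH : IsHemisystem I (2 * k + 1) H)
    [Fintype P] [Fintype H] [Fintype {l : L // l ∉ H}] :
    Pair (fun p (l : H) => I p l) (fun p (l : {l : L // l ∉ H}) => I p l) (k : ℤ) := by
  classical
  haveI := hG.finL
  haveI : Fintype L := Fintype.ofFinite L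
  have hd1 : ∀ p, ∑ x : H, ind (I p x) = (k : ℤ) + 1 := by
    intro p
    have h1 := sum_subtype_ind (fun l => l ∈ H) (fun l => I p l)
    have h2 := hH p
    have h3 : (2 * k + 1 + 1) / 2 = k + 1 := by omega
    rw [h3] at h2
    have h4 := ncard_eq_sum (fun l : L => l ∈ H ∧ I p l)
    rw [h2] at h4
    push_cast at h4
    calc ∑ x : H, ind (I p x) = ∑ a, ind (a ∈ H ∧ I p a) := h1
      _ = (k : ℤ) + 1 := h4.symm
  refine ⟨hG.nonempty, ?_, ?_, hd1, ?_, ?_, ?_, ?_, ?_, ?_, ?_, ?_⟩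
  · intro x
    have h1 := hG.line_card x
    have h2 := ncard_eq_sum (fun p : P => I p x)
    rw [h1] at h2
    push_cast at h2
    rw [← h2]; unfold KK; ring
  · intro x
    have h1 := hG.line_card x
    have h2 := ncard_eq_sum (fun p : P => I p x)
    rw [h1] at h2
    push_cast at h2
    rw [← h2]; unfold KK; ring
  · intro p
    have h1 := sum_subtype_ind (fun l => l ∉ H) (fun l => I p l)
    have h2 := hG.point_card p
    have h4 := ncard_eq_sum (fun l : L => I p l)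
    rw [h2] at h4
    have h5 : ∑ a, ind (I p a) = ∑ a, ind (a ∈ H ∧ I p a) + ∑ a, ind (a ∉ H ∧ I p a) := by
      rw [← Finset.sum_add_distrib]
      refine Finset.sum_congr rfl fun a _ => ?_
      rw [ind_and, ind_and, ind_not]; ring
    have h6 := sum_subtype_ind (fun l => l ∈ H) (fun l => I p l)
    have h7 := hd1 p
    push_cast at h4
    have h8 : ∑ x : H, ind (I p x) = ∑ a, ind (a ∈ H ∧ I p a) := h6
    rw [h1]
    linarith
  · intro p p' x x' hp h1 h2 h3 h4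
    exact Subtype.ext (hG.unique_line p p' x x' hp h1 h2 h3 h4)
  · intro p p' x x' hp h1 h2 h3 h4
    exact Subtype.ext (hG.unique_line p p' x x' hp h1 h2 h3 h4)
  · intro p p' x y hp h1 h2 h3 h4
    have := hG.unique_line p p' x y hp h1 h2 h3 h4
    exact y.2 (this ▸ x.2)
  · intro p x hp
    obtain ⟨p', ⟨h1, m, h2, h3⟩, -⟩ := hG.proj p x hp
    refine ⟨p', h1, ?_⟩
    by_cases hm : m ∈ H
    · exact Or.inl ⟨⟨m, hm⟩, h2, h3⟩
    · exact Or.inr ⟨⟨m, hm⟩, h2, h3⟩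
  · intro p x p' p'' hp h1 h2 h3 h4
    refine (hG.proj p x hp).unique ⟨h1, ?_⟩ ⟨h3, ?_⟩
    · rcases h2 with ⟨m, ha, hb⟩ | ⟨m, ha, hb⟩ <;> exact ⟨m, ha, hb⟩
    · rcases h4 with ⟨m, ha, hb⟩ | ⟨m, ha, hb⟩ <;> exact ⟨m, ha, hb⟩
  · intro p x hp
    obtain ⟨p', ⟨h1, m, h2, h3⟩, -⟩ := hG.proj p x hp
    refine ⟨p', h1, ?_⟩
    by_cases hm : m ∈ H
    · exact Or.inl ⟨⟨m, hm⟩, h2, h3⟩
    · exact Or.inr ⟨⟨m, hm⟩, h2, h3⟩
  · intro p x p' p'' hp h1 h2 h3 h4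
    refine (hG.proj p x hp).unique ⟨h1, ?_⟩ ⟨h3, ?_⟩
    · rcases h2 with ⟨m, ha, hb⟩ | ⟨m, ha, hb⟩ <;> exact ⟨m, ha, hb⟩
    · rcases h4 with ⟨m, ha, hb⟩ | ⟨m, ha, hb⟩ <;> exact ⟨m, ha, hb⟩

/-- from a `Pair` to a quadrangle -/
theorem ofPair {P L1 L2 : Type} [Fintype P] [Fintype L1] [Fintype L2]
    {I1 : P → L1 → Prop} {I2 : P → L2 → Prop} {k : ℕ} (h : Pair I1 I2 (k : ℤ))
    (J : P → (L1 ⊕ L2) → Prop) (hJ1 : ∀ p x, J p (.inl x) ↔ I1 p x)
    (hJ2 : ∀ p y, J p (.inr y) ↔ I2 p y) :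
    IsGQ J ((2 * k + 1) ^ 2) (2 * k + 1) := by
  classical
  have hcol : ∀ p p', (∃ m, J p m ∧ J p' m) ↔ Col I1 I2 p p' := by
    intro p p'
    constructor
    · rintro ⟨m | m, h1, h2⟩
      · exact Or.inl ⟨m, (hJ1 _ _).mp h1, (hJ1 _ _).mp h2⟩
      · exact Or.inr ⟨m, (hJ2 _ _).mp h1, (hJ2 _ _).mp h2⟩
    · rintro (⟨m, h1, h2⟩ | ⟨m, h1, h2⟩)
      · exact ⟨.inl m, (hJ1 _ _).mpr h1, (hJ1 _ _).mpr h2⟩
      · exact ⟨.inr m, (hJ2 _ _).mpr h1, (hJ2 _ _).mpr h2⟩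
  refine ⟨inferInstance, inferInstance, h.ne, ?_, ?_, ?_, ?_⟩
  · rintro (x | y)
    · have h1 := ncard_eq_sum (fun p : P => J p (.inl x))
      have h2 : ∑ p, ind (J p (.inl x)) = ∑ p, ind (I1 p x) :=
        Finset.sum_congr rfl fun p _ => ind_congr (hJ1 p x)
      rw [h2, h.c1] at h1
      zify
      rw [h1]; unfold KK; push_cast; ring
    · have h1 := ncard_eq_sum (fun p : P => J p (.inr y))
      have h2 : ∑ p, ind (J p (.inr y)) = ∑ p, ind (I2 p y) :=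
        Finset.sum_congr rfl fun p _ => ind_congr (hJ2 p y)
      rw [h2, h.c2] at h1
      zify
      rw [h1]; unfold KK; push_cast; ring
  · intro p
    have h1 := ncard_eq_sum (fun l : L1 ⊕ L2 => J p l)
    rw [Fintype.sum_sum_type] at h1
    have h2 : ∑ x, ind (J p (.inl x)) = ∑ x, ind (I1 p x) :=
      Finset.sum_congr rfl fun x _ => ind_congr (hJ1 p x)
    have h3 : ∑ x, ind (J p (.inr x)) = ∑ x, ind (I2 p x) :=
      Finset.sum_congr rfl fun x _ => ind_congr (hJ2 p x)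
    rw [h2, h3, h.d1, h.d2] at h1
    zify
    rw [h1]; push_cast; ring
  · rintro p p' (x | x) (y | y) hp h1 h2 h3 h4
    · rw [hJ1] at h1 h2 h3 h4
      rw [h.u11 p p' x y hp h1 h2 h3 h4]
    · rw [hJ1] at h1 h2
      rw [hJ2] at h3 h4
      exact (h.u12 p p' x y hp h1 h2 h3 h4).elim
    · rw [hJ2] at h1 h2
      rw [hJ1] at h3 h4
      exact (h.u12 p p' y x hp h3 h4 h1 h2).elim
    · rw [hJ2] at h1 h2 h3 h4
      rw [h.u22 p p' x y hp h1 h2 h3 h4]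
  · rintro p (x | y) hp
    · rw [hJ1] at hp
      obtain ⟨p', h1, h2⟩ := h.e1 p x hp
      refine ⟨p', ⟨(hJ1 _ _).mpr h1, (hcol p p').mpr h2⟩, ?_⟩
      rintro p'' ⟨h3, h4⟩
      exact h.e1' p x p'' p' hp ((hJ1 _ _).mp h3) ((hcol _ _).mp h4) h1 h2
    · rw [hJ2] at hp
      obtain ⟨p', h1, h2⟩ := h.e2 p y hp
      refine ⟨p', ⟨(hJ2 _ _).mpr h1, (hcol p p').mpr h2⟩, ?_⟩
      rintro p'' ⟨h3, h4⟩
      exact h.e2' p y p'' p' hp ((hJ2 _ _).mp h3) ((hcol _ _).mp h4) h1 h2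

/-- transport of a `Pair` along bijections -/
theorem transport {P P' L1 L1' L2 L2' : Type} [Fintype P] [Fintype P'] [Fintype L1] [Fintype L1']
    [Fintype L2] [Fintype L2'] {J1 : P' → L1' → Prop} {J2 : P' → L2' → Prop} {k : ℤ}
    (h : Pair J1 J2 k) (e : P ≃ P') (f1 : L1 ≃ L1') (f2 : L2 ≃ L2')
    (I1 : P → L1 → Prop) (I2 : P → L2 → Prop) (h1 : ∀ p x, I1 p x ↔ J1 (e p) (f1 x))
    (h2 : ∀ p y, I2 p y ↔ J2 (e p) (f2 y)) : Pair I1 I2 k := by
  have hI1 : I1 = fun p x => J1 (e p) (f1 x) := by funext p x; exact propext (h1 p x)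
  have hI2 : I2 = fun p x => J2 (e p) (f2 x) := by funext p x; exact propext (h2 p x)
  subst hI1 hI2
  have hcol : ∀ p p', Col (fun p x => J1 (e p) (f1 x)) (fun p x => J2 (e p) (f2 x)) p p' ↔
      Col J1 J2 (e p) (e p') := by
    intro p p'
    constructor
    · rintro (⟨x, a, b⟩ | ⟨x, a, b⟩)
      · exact Or.inl ⟨f1 x, a, b⟩
      · exact Or.inr ⟨f2 x, a, b⟩
    · rintro (⟨x, a, b⟩ | ⟨x, a, b⟩)
      · exact Or.inl ⟨f1.symm x, by simpa using a, by simpa using b⟩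
      · exact Or.inr ⟨f2.symm x, by simpa using a, by simpa using b⟩
  refine ⟨h.ne.map e.symm, ?_, ?_, ?_, ?_, ?_, ?_, ?_, ?_, ?_, ?_, ?_⟩
  · intro x
    rw [← h.c1 (f1 x)]
    exact Equiv.sum_comp e (fun p => ind (J1 p (f1 x)))
  · intro x
    rw [← h.c2 (f2 x)]
    exact Equiv.sum_comp e (fun p => ind (J2 p (f2 x)))
  · intro p
    rw [← h.d1 (e p)]
    exact Equiv.sum_comp f1 (fun x => ind (J1 (e p) x))
  · intro p
    rw [← h.d2 (e p)]
    exact Equiv.sum_comp f2 (fun x => ind (J2 (e p) x))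
  · intro p p' x x' hp a b c d
    exact f1.injective (h.u11 (e p) (e p') _ _ (fun h => hp (e.injective h)) a b c d)
  · intro p p' x x' hp a b c d
    exact f2.injective (h.u22 (e p) (e p') _ _ (fun h => hp (e.injective h)) a b c d)
  · intro p p' x x' hp a b c d
    exact h.u12 (e p) (e p') _ _ (fun h => hp (e.injective h)) a b c d
  · intro p x hp
    obtain ⟨p', a, b⟩ := h.e1 (e p) (f1 x) hp
    refine ⟨e.symm p', by simpa using a, (hcol _ _).mpr (by simpa using b)⟩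
  · intro p x p' p'' hp a b c d
    exact e.injective (h.e1' (e p) (f1 x) (e p') (e p'') hp a ((hcol _ _).mp b) c
      ((hcol _ _).mp d))
  · intro p x hp
    obtain ⟨p', a, b⟩ := h.e2 (e p) (f2 x) hp
    refine ⟨e.symm p', by simpa using a, (hcol _ _).mpr (by simpa using b)⟩
  · intro p x p' p'' hp a b c d
    exact e.injective (h.e2' (e p) (f2 x) (e p') (e p'') hp a ((hcol _ _).mp b) c
      ((hcol _ _).mp d))

/-- glue bijections of `H` and of the complement -/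
theorem glue {P1 L1 P2 L2 : Type} (I1 : P1 → L1 → Prop) (I2 : P2 → L2 → Prop) (H1 : Set L1)
    (H2 : Set L2) (e : P1 ≃ P2) (φ : H1 ≃ H2) (f : {l : L1 // l ∉ H1} ≃ {l : L2 // l ∉ H2})
    (h1 : ∀ p (l : H1), I1 p l ↔ I2 (e p) (φ l))
    (h2 : ∀ p (l : {l : L1 // l ∉ H1}), I1 p l ↔ I2 (e p) (f l)) :
    ∃ g : L1 ≃ L2, (∀ p l, I1 p l ↔ I2 (e p) (g l)) ∧ ∀ l : H1, g l = φ l := by
  classical
  let g : L1 ≃ L2 := (Equiv.sumCompl (· ∈ H1)).symm.trans
    ((Equiv.sumCongr φ f).trans (Equiv.sumCompl (· ∈ H2)))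
  have hg1 : ∀ l : H1, g l = φ l := by
    intro l
    have : (Equiv.sumCompl (· ∈ H1)).symm (l : L1) = Sum.inl l := by
      rw [Equiv.symm_apply_eq]; rfl
    show (Equiv.sumCompl (· ∈ H2)) ((Equiv.sumCongr φ f)
      ((Equiv.sumCompl (· ∈ H1)).symm (l : L1))) = φ l
    rw [this]; rfl
  have hg2 : ∀ l : {l : L1 // l ∉ H1}, g l = f l := by
    intro l
    have : (Equiv.sumCompl (· ∈ H1)).symm (l : L1) = Sum.inr l := by
      rw [Equiv.symm_apply_eq]; rfl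
    show (Equiv.sumCompl (· ∈ H2)) ((Equiv.sumCongr φ f)
      ((Equiv.sumCompl (· ∈ H1)).symm (l : L1))) = f l
    rw [this]; rfl
  refine ⟨g, ?_, hg1⟩
  intro p l
  by_cases hl : l ∈ H1
  · rw [hg1 ⟨l, hl⟩]; exact h1 p ⟨l, hl⟩
  · rw [hg2 ⟨l, hl⟩]; exact h2 p ⟨l, hl⟩

end Pool.Agent.Lib.MP0ea612.FinM
end

section
/-!
# Hemisystem graphs: the dichotomy and the bound, from the specifications
-/
set_option autoImplicit false

namespace Pool.Agent.Lib.MP0ea612.FinM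

open Pool.Agent.Lib.MP0ea612

/-- the two quadrangles on a common set of points -/
theorem common (hTR : SpecTR) {P1 L1 P2 L2 : Type} (I1 : P1 → L1 → Prop) (I2 : P2 → L2 → Prop)
    (H1 : Set L1) (H2 : Set L2) (k : ℕ) (hk : 1 ≤ k)
    [Fintype P1] [Fintype P2] [Fintype H1] [Fintype H2] [Fintype {l : L1 // l ∉ H1}]
    [Fintype {l : L2 // l ∉ H2}]
    (h1 : IsGQ I1 ((2 * k + 1) ^ 2) (2 * k + 1)) (h2 : IsGQ I2 ((2 * k + 1) ^ 2) (2 * k + 1))
    (hH1 : IsHemisystem I1 (2 * k + 1) H1) (hH2 : IsHemisystem I2 (2 * k + 1) H2)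
    (φ : hemiGraph I1 H1 ≃g hemiGraph I2 H2) :
    ∃ e : P1 ≃ P2, (∀ p (l : H1), I1 p l ↔ I2 (e p) (φ l)) ∧
      Two (fun p (l : H1) => I1 p l) (fun p (l : {l : L1 // l ∉ H1}) => I1 p l)
        (fun p (m : {m : L2 // m ∉ H2}) => I2 (e p) m) (k : ℤ) := by
  have hk' : (1 : ℤ) ≤ k := by exact_mod_cast hk
  have p1 := toPair I1 H1 k h1 hH1
  have p2 := toPair I2 H2 k h2 hH2
  obtain ⟨e, he⟩ := hTR _ _ _ _ (k : ℤ) hk' p1 p2 φ.toEquiv (by
    intro l l'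
    exact (φ.map_rel_iff (a := l) (b := l')).symm)
  refine ⟨e, he, hk', p1, ?_⟩
  exact transport p2 e φ.toEquiv (Equiv.refl _) _ _ he (fun p y => Iff.rfl)

theorem dichotomy (hTR : SpecTR) (hGL : SpecGL) (hG3 : SpecG3)
    {P1 L1 P2 L2 : Type} (I1 : P1 → L1 → Prop) (I2 : P2 → L2 → Prop)
    (q : ℕ) (hq : Odd q) (hq3 : 3 ≤ q)
    (h1 : IsGQ I1 (q ^ 2) q) (h2 : IsGQ I2 (q ^ 2) q) (H1 : Set L1) (H2 : Set L2)
    (hH1 : IsHemisystem I1 q H1) (hH2 : IsHemisystem I2 q H2)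
    (φ : hemiGraph I1 H1 ≃g hemiGraph I2 H2) :
    (∃ (e : P1 ≃ P2) (f : L1 ≃ L2), (∀ p l, I1 p l ↔ I2 (e p) (f l)) ∧ ∀ l : H1, f l = φ l) ∨
    ∃ e : P1 ≃ P2, (∀ p (l : H1), I1 p l ↔ I2 (e p) (φ l)) ∧
      (∀ m, m ∉ H2 → IsSpecial I1 H1 q {p | I2 (e p) m}) ∧
      IsGQ (third I1 H1 I2 H2 e) (q ^ 2) q := by
  classical
  obtain ⟨k, rfl⟩ := hq
  have hk : 1 ≤ k := by omega
  have := h1.finP
  have := h1.finL
  have := h2.finP
  have := h2.finL
  letI : Fintype P1 := Fintype.ofFinite _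
  letI : Fintype P2 := Fintype.ofFinite _
  letI : Fintype H1 := Fintype.ofFinite _
  letI : Fintype H2 := Fintype.ofFinite _
  letI : Fintype {l : L1 // l ∉ H1} := Fintype.ofFinite _
  letI : Fintype {l : L2 // l ∉ H2} := Fintype.ofFinite _
  obtain ⟨e, he, hT⟩ := common hTR I1 I2 H1 H2 k hk h1 h2 hH1 hH2 φ
  rcases hGL _ _ _ _ hT with ⟨f, hf⟩ | hX
  · left
    obtain ⟨g, hg1, hg2⟩ := glue I1 I2 H1 H2 e φ.toEquiv f he hf
    exact ⟨e, g, hg1, hg2⟩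
  · right
    obtain ⟨hP, hS⟩ := hG3 _ _ _ _ hT hX
    refine ⟨e, he, ?_, ?_⟩
    · intro m hm
      refine ⟨?_, ?_, ?_⟩
      · have h3 := ncard_eq_sum (fun p : P1 => I2 (e p) m)
        have h4 := hT.SB.c2 ⟨m, hm⟩
        have h5 : ∑ p, ind (I2 (e p) m) = KK k := h4
        rw [h5] at h3
        zify
        rw [h3]; unfold KK; ring
      · rintro p hp p' hp' hne ⟨l, hl, hl'⟩
        by_cases hlH : l ∈ H1
        · exact hT.SB.u12 p p' ⟨l, hlH⟩ ⟨m, hm⟩ hne hl hl' hp hp'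
        · exact hX p p' ⟨l, hlH⟩ ⟨m, hm⟩ hne hl hl' hp hp'
      · intro r hr
        obtain ⟨hS1, hS2⟩ := hS ⟨m, hm⟩ r hr
        by_cases hex : ∃ p l, I2 (e p) m ∧ l ∈ H1 ∧ I1 r l ∧ I1 p l
        · right
          obtain ⟨p, l, hp, hl, hrl, hpl⟩ := hex
          obtain ⟨p', l', hp', hrl', hpl'⟩ := hS1.mpr ⟨p, ⟨l, hl⟩, hp, hrl, hpl⟩
          have hrp : r ≠ p := fun h => hr (h ▸ hp)
          have hrp' : r ≠ p' := fun h => hr (h ▸ hp')
          refine ⟨p, hp, p', hp', ?_, ⟨l, hl, hrl, hpl⟩, ⟨l', l'.2, hrl', hpl'⟩, ?_⟩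
          · rintro rfl
            exact hT.SA.u12 r p ⟨l, hl⟩ l' hrp hrl hpl hrl' hpl'
          · rintro p'' hp'' ⟨l'', hrl'', hpl''⟩
            by_cases hlH : l'' ∈ H1
            · left
              exact hT.SB.e2' r ⟨m, hm⟩ p'' p hr hp'' (Or.inl ⟨⟨l'', hlH⟩, hrl'', hpl''⟩) hp
                (Or.inl ⟨⟨l, hl⟩, hrl, hpl⟩)
            · right
              exact hS2 p'' p' ⟨l'', hlH⟩ l' hp'' hp' hrl'' hpl'' hrl' hpl'
        · left
          rintro p hp ⟨l, hrl, hpl⟩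
          by_cases hlH : l ∈ H1
          · exact hex ⟨p, l, hp, hlH, hrl, hpl⟩
          · obtain ⟨p', l', hp', hrl', hpl'⟩ := hS1.mp ⟨p, ⟨l, hlH⟩, hp, hrl, hpl⟩
            exact hex ⟨p', l', hp', l'.2, hrl', hpl'⟩
    · exact ofPair hP _ (fun p x => Iff.rfl) (fun p y => Iff.rfl)

theorem bound (hTR : SpecTR) (hGL : SpecGL) (hBD : SpecBD) (q : ℕ) (hq : Odd q) (hq3 : 3 ≤ q)
    (n : ℕ) (P L : Fin n → Type) (I : ∀ i, P i → L i → Prop)
    (hG : ∀ i, IsGQ (I i) (q ^ 2) q) (H : ∀ i, Set (L i)) (hH : ∀ i, IsHemisystem (I i) q (H i))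
    (hΓ : ∀ i j, Nonempty (hemiGraph (I i) (H i) ≃g hemiGraph (I j) (H j)))
    (hne : ∀ i j, i ≠ j → ¬ Isomorphic (I i) (I j)) : n ≤ 2 * q := by
  classical
  obtain ⟨k, rfl⟩ := hq
  have hk : 1 ≤ k := by omega
  rcases n with _ | n
  · omega
  have hfinP : ∀ i, Finite (P i) := fun i => (hG i).finP
  have hfinL : ∀ i, Finite (L i) := fun i => (hG i).finL
  letI : ∀ i, Fintype (P i) := fun i => Fintype.ofFinite _
  letI : ∀ i, Fintype (H i) := fun i => Fintype.ofFinite _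
  letI : ∀ i, Fintype {l : L i // l ∉ H i} := fun i => Fintype.ofFinite _
  have hcom : ∀ j : Fin n, ∃ (e : P 0 ≃ P j.succ) (φ : H 0 ≃ H j.succ),
      (∀ p (l : H 0), I 0 p l ↔ I j.succ (e p) (φ l)) ∧
      Two (fun p (l : H 0) => I 0 p l) (fun p (l : {l : L 0 // l ∉ H 0}) => I 0 p l)
        (fun p (m : {m : L j.succ // m ∉ H j.succ}) => I j.succ (e p) m) (k : ℤ) := by
    intro j
    obtain ⟨φ⟩ := hΓ 0 j.succ
    obtain ⟨e, he, hT⟩ := common hTR (I 0) (I j.succ) (H 0) (H j.succ) k hk (hG _) (hG _)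
      (hH _) (hH _) φ
    exact ⟨e, φ.toEquiv, he, hT⟩
  choose e φ he hT using hcom
  have hk' : (1 : ℤ) ≤ k := by exact_mod_cast hk
  have p0 := toPair (I 0) (H 0) k (hG 0) (hH 0)
  have hAB : ∀ (j : Fin n) (p p' : P 0) (m : {l : L 0 // l ∉ H 0})
      (X : {m : L j.succ // m ∉ H j.succ}), p ≠ p' → I 0 p m → I 0 p' m →
      I j.succ (e j p) X → I j.succ (e j p') X → False := by
    intro j
    rcases hGL _ _ _ _ (hT j) with ⟨f, hf⟩ | hX
    · obtain ⟨g, hg1, -⟩ := glue (I 0) (I j.succ) (H 0) (H j.succ) (e j) (φ j) f (he j) hf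
      exact absurd ⟨e j, g, hg1⟩ (hne 0 j.succ (Fin.succ_ne_zero j).symm)
    · exact hX
  have hBB : ∀ (i j : Fin n) (p p' : P 0) (X : {m : L i.succ // m ∉ H i.succ})
      (Y : {m : L j.succ // m ∉ H j.succ}), i ≠ j → p ≠ p' → I i.succ (e i p) X →
      I i.succ (e i p') X → I j.succ (e j p) Y → I j.succ (e j p') Y → False := by
    intro i j p p' X Y hij hp a b c d
    have hTij : Two (fun p (l : H 0) => I 0 p l)
        (fun p (m : {m : L i.succ // m ∉ H i.succ}) => I i.succ (e i p) m)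
        (fun p (m : {m : L j.succ // m ∉ H j.succ}) => I j.succ (e j p) m) (k : ℤ) :=
      ⟨hk', (hT i).SB, (hT j).SB⟩
    rcases hGL _ _ _ _ hTij with ⟨f, hf⟩ | hX
    · obtain ⟨g, hg1, -⟩ := glue (I i.succ) (I j.succ) (H i.succ) (H j.succ)
        ((e i).symm.trans (e j)) ((φ i).symm.trans (φ j)) f (by
          intro p l
          have h1 := he i ((e i).symm p) ((φ i).symm l)
          have h2 := he j ((e i).symm p) ((φ i).symm l)
          simp only [Equiv.apply_symm_apply] at h1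
          exact h1.symm.trans h2) (by
          intro p l
          have h1 := hf ((e i).symm p) l
          simp only [Equiv.apply_symm_apply] at h1
          exact h1)
      exact hne i.succ j.succ (fun h => hij (Fin.succ_injective n h)) ⟨_, g, hg1⟩
    · exact hX p p' X Y hp a b c d
  have hb := hBD n (fun j => {m : L j.succ // m ∉ H j.succ}) (fun p (l : H 0) => I 0 p l)
    (fun p (l : {l : L 0 // l ∉ H 0}) => I 0 p l) (fun j p m => I j.succ (e j p) m) (k : ℤ)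
    hT hk' p0 hAB hBB
  by_contra hlt
  push Not at hlt
  have h1 : (2 * (2 * (k : ℤ) + 1)) ≤ n := by
    have : 2 * (2 * k + 1) ≤ n := by omega
    exact_mod_cast this
  unfold hh at hb
  have h2 : (0 : ℤ) < 2 * (k : ℤ) ^ 2 + 2 * k + 1 := by positivity
  have h3 : 2 * (2 * (k : ℤ) + 1) * (2 * (k : ℤ) ^ 2 + 2 * k + 1) ≤ (2 * (k : ℤ) + 1) ^ 3 :=
    (mul_le_mul_of_nonneg_right h1 h2.le).trans hb
  have h4 : (2 * (k : ℤ) + 1) ^ 3 < 2 * (2 * (k : ℤ) + 1) * (2 * (k : ℤ) ^ 2 + 2 * k + 1) := by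
    have : 2 * (2 * (k : ℤ) + 1) * (2 * (k : ℤ) ^ 2 + 2 * k + 1) - (2 * (k : ℤ) + 1) ^ 3 =
      2 * k + 1 := by ring
    have h5 : (0 : ℤ) < 2 * (k : ℤ) + 1 := by positivity
    linarith
  exact absurd h3 (not_le.mpr h4)

end Pool.Agent.Lib.MP0ea612.FinM
end
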