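import Pool.Agent.Lib.MP_0ea612_co.Main

/-!
# Four families of lines, any two of which form a quadrangle, do not exist
-/

set_option autoImplicit false

namespace Pool.Agent.Lib.MP0ea612

namespace FourM

open ADJM PRM

section gq

variable {P L : Type} [Fintype P] [Fintype L] {I : P → L → Prop} {k : ℤ}

/-- `G x m = [x, m different and concurrent] - 2k [x = m]` -/
noncomputable def G (I : P → L → Prop) (k : ℤ) (x m : L) : ℤ :=
  ind (Adj I x m) - 2 * k * ind (x = m)

omit [Fintype P] [Fintype L] in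
theorem G_comm (x m : L) : G I k x m = G I k m x := by
  unfold G
  rw [ind_congr (adj_comm (I := I) (x := x) (y := m)), ind_congr (p := x = m) (q := m = x) eq_comm]

omit [Fintype P] [Fintype L] in
theorem sy {x y : L} (h : Adj I x y) : Adj I y x :=
  ⟨h.1.symm, h.2.imp fun _ h' => ⟨h'.2, h'.1⟩⟩

omit [Fintype P] [Fintype L] in
theorem not_adj_self (x : L) : ¬ Adj I x x := fun h => h.1 rfl

omit [Fintype P] in
theorem sum_eq_mul (x : L) (F : L → ℤ) : ∑ m, ind (x = m) * F m = F x := by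
  classical
  rw [Finset.sum_eq_single x (fun b _ hb => by rw [ind_neg (fun h => hb h.symm), zero_mul])
    (fun h => absurd (Finset.mem_univ x) h), ind_pos rfl, one_mul]

/-- the number of lines adjacent to all three -/
noncomputable def N3 (I : P → L → Prop) (x y z : L) : ℤ :=
  ∑ m, ind (Adj I x m) * ind (Adj I y m) * ind (Adj I z m)

omit [Fintype P] in
/-- expansion of the triple sum -/
theorem expand (x y z : L) :
    ∑ m, G I k x m * G I k y m * G I k z m = N3 I x y z
      - 2 * k * (ind (Adj I y x) * ind (Adj I z x) + ind (Adj I x y) * ind (Adj I z y) +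
        ind (Adj I x z) * ind (Adj I y z))
      + 4 * k ^ 2 * (ind (x = y) * ind (Adj I z x) + ind (y = z) * ind (Adj I x y) +
        ind (x = z) * ind (Adj I y x)) - 8 * k ^ 3 * (ind (x = y) * ind (x = z)) := by
  have e1 := sum_eq_mul (L := L) x (fun m => ind (Adj I y m) * ind (Adj I z m))
  have e2 := sum_eq_mul (L := L) y (fun m => ind (Adj I x m) * ind (Adj I z m))
  have e3 := sum_eq_mul (L := L) z (fun m => ind (Adj I x m) * ind (Adj I y m))
  have e4 := sum_eq_mul (L := L) x (fun m => ind (y = m) * ind (Adj I z m))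
  have e5 := sum_eq_mul (L := L) y (fun m => ind (z = m) * ind (Adj I x m))
  have e6 := sum_eq_mul (L := L) x (fun m => ind (z = m) * ind (Adj I y m))
  have e7 := sum_eq_mul (L := L) x (fun m => ind (y = m) * ind (z = m))
  have h1 : ∑ m, G I k x m * G I k y m * G I k z m = N3 I x y z
      - 2 * k * (∑ m, ind (x = m) * (ind (Adj I y m) * ind (Adj I z m)) +
        ∑ m, ind (y = m) * (ind (Adj I x m) * ind (Adj I z m)) +
        ∑ m, ind (z = m) * (ind (Adj I x m) * ind (Adj I y m)))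
      + 4 * k ^ 2 * (∑ m, ind (x = m) * (ind (y = m) * ind (Adj I z m)) +
        ∑ m, ind (y = m) * (ind (z = m) * ind (Adj I x m)) +
        ∑ m, ind (x = m) * (ind (z = m) * ind (Adj I y m)))
      - 8 * k ^ 3 * ∑ m, ind (x = m) * (ind (y = m) * ind (z = m)) := by
    unfold N3
    simp only [← Finset.sum_add_distrib, Finset.mul_sum, ← Finset.sum_sub_distrib]
    refine Finset.sum_congr rfl fun m _ => ?_
    unfold G
    ring
  rw [h1, e1, e2, e3, e4, e5, e6, e7]
  have c1 : ind (y = x) = ind (x = y) := ind_congr eq_comm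
  have c2 : ind (z = y) = ind (y = z) := ind_congr eq_comm
  have c3 : ind (z = x) = ind (x = z) := ind_congr eq_comm
  rw [c1, c2, c3]

omit [Fintype P] in
theorem N3_eq (x y z : L) : N3 I x y z = ∑ m, ind (Adj I m x ∧ Adj I m y ∧ Adj I m z) := by
  unfold N3
  refine Finset.sum_congr rfl fun m _ => ?_
  rw [ind_and, ind_and, ind_congr (adj_comm (I := I) (x := x) (y := m)),
    ind_congr (adj_comm (I := I) (x := y) (y := m)), ind_congr (adj_comm (I := I) (x := z) (y := m))]
  ring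

omit [Fintype P] in
theorem N3_comm12 (x y z : L) : N3 I x y z = N3 I y x z := by
  unfold N3; exact Finset.sum_congr rfl fun m _ => by ring

omit [Fintype P] in
theorem N3_comm23 (x y z : L) : N3 I x y z = N3 I x z y := by
  unfold N3; exact Finset.sum_congr rfl fun m _ => by ring

/-- two equal lines -/
theorem N3_two (hk : 1 ≤ k) (h : GQ I k) (x z : L) (hne : x ≠ z) :
    (Adj I x z → N3 I x x z = 2 * k) ∧ (¬ Adj I x z → N3 I x x z = KK k) := by
  have hA := specADJ I k hk h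
  have h1 : N3 I x x z = ∑ m, ind (Adj I m x ∧ Adj I m z) := by
    rw [N3_eq]
    exact Finset.sum_congr rfl fun m _ => ind_congr ⟨fun t => ⟨t.1, t.2.2⟩, fun t => ⟨t.1, t.1, t.2⟩⟩
  exact ⟨fun ha => h1.trans (hA.2.1 x z ha), fun ha => h1.trans (hA.2.2.1 x z hne ha)⟩

theorem N3_three (hk : 1 ≤ k) (h : GQ I k) (x : L) : N3 I x x x = KK k * (2 * k + 1) := by
  rw [N3_eq, ← (specADJ I k hk h).1 x]
  refine Finset.sum_congr rfl fun m _ => ind_congr ⟨fun t => sy t.1, fun t => ?_⟩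
  exact ⟨(sy t), (sy t), (sy t)⟩

/-- `x, y` concurrent, `z` disjoint from both -/
theorem N3_one (h : GQ I k) {x y z : L} (hxy : Adj I x y) (hxz : ¬ Adj I x z)
    (hyz : ¬ Adj I y z) (nxz : x ≠ z) (nyz : y ≠ z) : N3 I x y z = 1 := by
  rw [N3_eq]
  obtain ⟨nxy, p, hpx, hpy⟩ := hxy
  have hpz : ¬ I p z := fun hp => hxz ⟨nxz, p, hpx, hp⟩
  obtain ⟨p', w, h1, h2, h3⟩ := h.e p z hpz
  have hwz : w ≠ z := by rintro rfl; exact hpz h2
  have hwx : w ≠ x := by rintro rfl; exact hxz ⟨nxz, p', h3, h1⟩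
  have hwy : w ≠ y := by rintro rfl; exact hyz ⟨nyz, p', h3, h1⟩
  refine sum_ind_of_unique _ w ⟨⟨hwx, p, h2, hpx⟩, ⟨hwy, p, h2, hpy⟩, ⟨hwz, p', h3, h1⟩⟩ ?_
  rintro m ⟨m1, m2, m3⟩
  have hpm : I p m := triangle_at h ⟨nxy, p, hpx, hpy⟩ (sy m2) (sy m1) hpx hpy
  obtain ⟨-, p'', h4, h5⟩ := m3
  have hpp : p' = p'' := h.e' p z p' p'' w m hpz h1 h2 h3 h5 hpm h4
  subst hpp
  exact h.u p p' m w (by rintro rfl; exact hpz h1) hpm h4 h2 h3

/-- `y` concurrent with `x` and `z`, which are disjoint -/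
theorem N3_path (h : GQ I k) {x y z : L} (hxy : Adj I x y) (hyz : Adj I y z)
    (hxz : ¬ Adj I x z) (nxz : x ≠ z) : N3 I x y z = 0 := by
  rw [N3_eq]
  refine sum_ind_eq_zero _ ?_
  rintro m ⟨m1, m2, m3⟩
  obtain ⟨p, hpx, hpy, hpm⟩ := triangle h hxy (sy m2) (sy m1)
  obtain ⟨p', hpy', hpz', hpm'⟩ := triangle h hyz (sy m3) (sy m2)
  by_cases hpp : p = p'
  · subst hpp
    exact hxz ⟨nxz, p, hpx, hpz'⟩
  · exact m2.1 (h.u p p' m y hpp hpm hpm' hpy hpy')

/-- three concurrent lines -/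
theorem N3_all (h : GQ I k) {x y z : L} (hxy : Adj I x y) (hyz : Adj I y z)
    (hxz : Adj I x z) : N3 I x y z = 2 * k - 1 := by
  classical
  rw [N3_eq]
  obtain ⟨p, hpx, hpy, hpz⟩ := triangle h hxy hyz hxz
  have h1 : ∀ m, (Adj I m x ∧ Adj I m y ∧ Adj I m z) ↔ (I p m ∧ m ≠ x ∧ m ≠ y ∧ m ≠ z) := by
    intro m
    constructor
    · rintro ⟨m1, m2, m3⟩
      exact ⟨triangle_at h hxy (sy m2) (sy m1) hpx hpy, m1.1, m2.1, m3.1⟩
    · rintro ⟨m0, m1, m2, m3⟩
      exact ⟨⟨m1, p, m0, hpx⟩, ⟨m2, p, m0, hpy⟩, ⟨m3, p, m0, hpz⟩⟩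
  have h2 : ∀ m, ind (Adj I m x ∧ Adj I m y ∧ Adj I m z) =
      ind (I p m) - ind (x = m) * 1 - ind (y = m) * 1 - ind (z = m) * 1 := by
    intro m
    rw [ind_congr (h1 m)]
    by_cases e1 : m = x
    · subst e1
      rw [ind_neg (by tauto), ind_pos hpx, ind_pos rfl, ind_neg (fun t => hxy.1 t.symm),
        ind_neg (fun t => hxz.1 t.symm)]; ring
    by_cases e2 : m = y
    · subst e2
      rw [ind_neg (by tauto), ind_pos hpy, ind_pos rfl, ind_neg hxy.1,
        ind_neg (fun t => hyz.1 t.symm)]; ring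
    by_cases e3 : m = z
    · subst e3
      rw [ind_neg (by tauto), ind_pos hpz, ind_pos rfl, ind_neg hxz.1, ind_neg hyz.1]; ring
    rw [ind_congr (p := I p m ∧ m ≠ x ∧ m ≠ y ∧ m ≠ z) (q := I p m) ⟨fun t => t.1,
        fun t => ⟨t, e1, e2, e3⟩⟩, ind_neg (p := x = m) (fun t => e1 t.symm),
      ind_neg (p := y = m) (fun t => e2 t.symm), ind_neg (p := z = m) (fun t => e3 t.symm)]
    ring
  rw [Finset.sum_congr rfl fun m _ => h2 m, Finset.sum_sub_distrib, Finset.sum_sub_distrib,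
    Finset.sum_sub_distrib, sum_eq_mul, sum_eq_mul, sum_eq_mul, h.d p]
  ring

/-- **the exact three-line identity** -/
theorem krein (hk : 1 ≤ k) (h : GQ I k) (x y z : L) :
    ∑ m, G I k x m * G I k y m * G I k z m =
      (2 * k + 2) - (2 * k + 1) * (G I k x y + G I k y z + G I k x z) := by
  rw [expand]
  have cyx : ind (Adj I y x) = ind (Adj I x y) := ind_congr adj_comm
  have czx : ind (Adj I z x) = ind (Adj I x z) := ind_congr adj_comm
  have czy : ind (Adj I z y) = ind (Adj I y z) := ind_congr adj_comm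
  rw [cyx, czx, czy]
  unfold G
  by_cases exy : x = y
  · subst exy
    by_cases exz : x = z
    · subst exz
      rw [N3_three hk h, ind_neg (not_adj_self x), ind_pos rfl]
      unfold KK; ring
    · rw [ind_neg (not_adj_self (I := I) x), ind_pos (rfl : x = x), ind_neg exz]
      by_cases a : Adj I x z
      · rw [(N3_two hk h x z exz).1 a, ind_pos a]; ring
      · rw [(N3_two hk h x z exz).2 a, ind_neg a]; unfold KK; ring
  by_cases eyz : y = z
  · subst eyz
    rw [ind_neg (not_adj_self (I := I) y), ind_pos (rfl : y = y), ind_neg exy,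
      N3_comm12, N3_comm23]
    by_cases a : Adj I x y
    · rw [(N3_two hk h y x (Ne.symm exy)).1 (sy a), ind_pos a]; ring
    · rw [(N3_two hk h y x (Ne.symm exy)).2 (fun t => a (sy t)), ind_neg a]; unfold KK; ring
  by_cases exz : x = z
  · subst exz
    rw [ind_neg (not_adj_self (I := I) x), ind_pos (rfl : x = x), ind_neg exy, ind_neg eyz,
      N3_comm23]
    have c : ind (Adj I y x) = ind (Adj I x y) := ind_congr adj_comm
    rw [c]
    by_cases a : Adj I x y
    · rw [(N3_two hk h x y exy).1 a, ind_pos a]; ring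
    · rw [(N3_two hk h x y exy).2 a, ind_neg a]; unfold KK; ring
  rw [ind_neg exy, ind_neg eyz, ind_neg exz]
  by_cases a : Adj I x y <;> by_cases b : Adj I y z <;> by_cases c : Adj I x z
  · rw [N3_all h a b c, ind_pos a, ind_pos b, ind_pos c]; ring
  · rw [N3_path h a b c exz, ind_pos a, ind_pos b, ind_neg c]; ring
  · rw [N3_comm12, N3_path h (sy a) c b eyz, ind_pos a, ind_neg b, ind_pos c]; ring
  · rw [N3_one h a c b exz eyz, ind_pos a, ind_neg b, ind_neg c]; ring
  · rw [N3_comm23, N3_path h c (sy b) a exy, ind_neg a, ind_pos b, ind_pos c]; ring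
  · rw [N3_comm12, N3_comm23, N3_one h b (fun t => a (sy t)) (fun t => c (sy t)) (Ne.symm exy)
      (Ne.symm exz), ind_neg a, ind_pos b, ind_neg c]; ring
  · rw [N3_comm23, N3_one h c a (fun t => b (sy t)) exy (Ne.symm eyz), ind_neg a, ind_neg b,
      ind_pos c]; ring
  · rw [N3_eq, specTRI I k hk h x y z exy exz eyz a c b, ind_neg a, ind_neg b, ind_neg c]; ring

/-- a function with sum `0` on every pencil -/
def Bal (I : P → L → Prop) (f : L → ℤ) : Prop := ∀ p, ∑ x, ind (I p x) * f x = 0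

theorem bal_sum (hk : 1 ≤ k) (h : GQ I k) {f : L → ℤ} (hf : Bal I f) : ∑ x, f x = 0 := by
  have h1 : ∑ p, ∑ x, ind (I p x) * f x = 0 := Finset.sum_eq_zero fun p _ => hf p
  rw [Finset.sum_comm] at h1
  have h2 : ∀ x, ∑ p, ind (I p x) * f x = KK k * f x := by
    intro x
    rw [← Finset.sum_mul, h.c x]
  rw [Finset.sum_congr rfl fun x _ => h2 x, ← Finset.mul_sum] at h1
  have h3 : KK k ≠ 0 := by unfold KK; nlinarith
  exact (mul_eq_zero.mp h1).resolve_left h3

theorem bal_G (h : GQ I k) {f : L → ℤ} (hf : Bal I f) (m : L) :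
    ∑ x, f x * G I k x m = -((2 * k + 1) * (2 * k + 2)) * f m := by
  classical
  have h1 : ∀ x, f x * ind (Adj I x m) =
      ∑ p, ind (I p m) * (ind (I p x) * f x) - ind (m = x) * (KK k * f x) := by
    intro x
    by_cases e : m = x
    · subst e
      rw [ind_neg (not_adj_self m), ind_pos rfl]
      have : ∑ p, ind (I p m) * (ind (I p m) * f m) = KK k * f m := by
        rw [← h.c m, Finset.sum_mul]
        refine Finset.sum_congr rfl fun p _ => ?_
        rw [← mul_assoc, ind_sq]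
      rw [this]; ring
    · rw [ind_neg e, zero_mul, sub_zero]
      have h2 : ∑ p, ind (I p m) * (ind (I p x) * f x) = (∑ p, ind (I p m ∧ I p x)) * f x := by
        rw [Finset.sum_mul]
        refine Finset.sum_congr rfl fun p _ => ?_
        rw [ind_and]; ring
      rw [h2]
      by_cases a : Adj I x m
      · obtain ⟨-, p, hpx, hpm⟩ := a
        rw [ind_pos ⟨fun t => e t.symm, p, hpx, hpm⟩, sum_ind_of_unique _ p ⟨hpm, hpx⟩]
        · ring
        · rintro p' ⟨h3, h4⟩
          by_contra hne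
          exact e (h.u p' p m x hne h3 hpm h4 hpx)
      · rw [ind_neg a, sum_ind_eq_zero _ fun p hp => a ⟨fun t => e t.symm, p, hp.2, hp.1⟩]
        ring
  have h3 : ∑ x, f x * G I k x m = ∑ x, f x * ind (Adj I x m) - 2 * k * f m := by
    have h4 : ∀ x, f x * G I k x m = f x * ind (Adj I x m) - ind (m = x) * (2 * k * f x) := by
      intro x
      unfold G
      rw [ind_congr (p := x = m) (q := m = x) eq_comm]; ring
    rw [Finset.sum_congr rfl fun x _ => h4 x, Finset.sum_sub_distrib, sum_eq_mul]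
  rw [h3, Finset.sum_congr rfl fun x _ => h1 x, Finset.sum_sub_distrib, sum_eq_mul,
    Finset.sum_comm]
  have h5 : ∀ p, ∑ x, ind (I p m) * (ind (I p x) * f x) = 0 := by
    intro p
    rw [← Finset.mul_sum, hf p, mul_zero]
  rw [Finset.sum_eq_zero fun p _ => h5 p]
  unfold KK; ring

/-- the consequence for two balanced functions -/
theorem two_bal (hk : 1 ≤ k) (h : GQ I k) {f g : L → ℤ} (hf : Bal I f) (hg : Bal I g) (b : L) :
    (2 * k + 2) * ∑ m, f m * g m * G I k b m = ∑ m, f m * g m := by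
  have e1 : ∑ x, ∑ y, f x * g y * ∑ m, G I k x m * G I k y m * G I k b m =
      ((2 * k + 1) * (2 * k + 2)) ^ 2 * ∑ m, f m * g m * G I k b m := by
    calc ∑ x, ∑ y, f x * g y * ∑ m, G I k x m * G I k y m * G I k b m
        = ∑ m, (∑ x, f x * G I k x m) * (∑ y, g y * G I k y m) * G I k b m := by
          have : ∀ m, (∑ x, f x * G I k x m) * (∑ y, g y * G I k y m) * G I k b m =
              ∑ x, ∑ y, f x * g y * (G I k x m * G I k y m * G I k b m) := by
            intro m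
            rw [Finset.sum_mul_sum, Finset.sum_mul]
            refine Finset.sum_congr rfl fun x _ => ?_
            rw [Finset.sum_mul]
            exact Finset.sum_congr rfl fun y _ => by ring
          have hR : ∑ m, ∑ x, ∑ y, f x * g y * (G I k x m * G I k y m * G I k b m) =
              ∑ x, ∑ y, ∑ m, f x * g y * (G I k x m * G I k y m * G I k b m) := by
            rw [Finset.sum_comm]
            refine Finset.sum_congr rfl fun x _ => ?_
            rw [Finset.sum_comm]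
          rw [Finset.sum_congr rfl fun m _ => this m, hR]
          refine Finset.sum_congr rfl fun x _ => Finset.sum_congr rfl fun y _ => ?_
          rw [Finset.mul_sum]
      _ = _ := by
          rw [Finset.mul_sum]
          refine Finset.sum_congr rfl fun m _ => ?_
          rw [bal_G h hf m, bal_G h hg m]; ring
  have e2 : ∑ x, ∑ y, f x * g y * ∑ m, G I k x m * G I k y m * G I k b m =
      (2 * k + 1) * ((2 * k + 1) * (2 * k + 2)) * ∑ m, f m * g m := by
    have h1 : ∀ x y, f x * g y * ∑ m, G I k x m * G I k y m * G I k b m =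
        (2 * k + 2) * (f x * g y) - (2 * k + 1) * (f x * G I k x y * g y) -
          (2 * k + 1) * (f x * (g y * G I k y b)) - (2 * k + 1) * ((f x * G I k x b) * g y) := by
      intro x y
      rw [krein hk h x y b]; ring
    have h2 : ∀ x, ∑ y, f x * g y * ∑ m, G I k x m * G I k y m * G I k b m =
        (2 * k + 2) * (f x * ∑ y, g y) - (2 * k + 1) * ∑ y, f x * G I k x y * g y -
          (2 * k + 1) * (f x * ∑ y, g y * G I k y b) -
          (2 * k + 1) * ((f x * G I k x b) * ∑ y, g y) := by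
      intro x
      rw [Finset.sum_congr rfl fun y _ => h1 x y, Finset.sum_sub_distrib, Finset.sum_sub_distrib,
        Finset.sum_sub_distrib]
      simp only [← Finset.mul_sum]
    rw [Finset.sum_congr rfl fun x _ => h2 x]
    have h3 : ∑ x, ∑ y, f x * G I k x y * g y =
        -((2 * k + 1) * (2 * k + 2)) * ∑ m, f m * g m := by
      rw [Finset.sum_comm, Finset.mul_sum]
      refine Finset.sum_congr rfl fun y _ => ?_
      rw [← Finset.sum_mul, bal_G h hf y]; ring
    have hg0 := bal_sum hk h hg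
    have hf0 := bal_sum hk h hf
    rw [hg0]
    simp only [mul_zero, sub_zero, zero_sub]
    rw [Finset.sum_sub_distrib, Finset.sum_neg_distrib, ← Finset.mul_sum, h3, ← Finset.mul_sum,
      ← Finset.sum_mul, hf0]
    ring
  have e3 := e1.symm.trans e2
  have h0 : (2 * k + 1) * (2 * k + 1) * (2 * k + 2) ≠ 0 := by
    have : 0 < (2 * k + 1) * (2 * k + 1) * (2 * k + 2) := by positivity
    exact this.ne'
  apply mul_left_cancel₀ h0
  linear_combination e3

end gq

section four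

variable {P H A B C : Type} [Fintype P] [Fintype H] [Fintype A] [Fintype B] [Fintype C]
  {IH : P → H → Prop} {IA : P → A → Prop} {IB : P → B → Prop} {IC : P → C → Prop} {k : ℤ}

/-- the signed indicator of the lines of `A ∪ B` which meet `h` -/
noncomputable def F (IH : P → H → Prop) (IA : P → A → Prop) (IB : P → B → Prop) (h : H) :
    A ⊕ B → ℤ := Sum.elim (fun m => ind (Mt IH IA h m)) (fun m => - ind (Mt IH IB h m))

omit [Fintype P] [Fintype H] [Fintype A] [Fintype B] in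
/-- outside `h`: an `A`-line through `p` meeting `h` forces a `B`-line through `p` meeting `h` -/
theorem swapAB [Fintype P] [Fintype H] [Fintype A] [Fintype B] (hA : Pair IH IA k)
    (hB : Pair IH IB k) {h : H} {p : P} (hp : ¬ IH p h)
    (ha : ∃ m, IA p m ∧ Mt IH IA h m) : ∃ m, IB p m ∧ Mt IH IB h m := by
  obtain ⟨m, hpm, x, hxh, hxm⟩ := ha
  obtain ⟨y, hyh, ⟨l, hpl, hyl⟩ | ⟨l, hpl, hyl⟩⟩ := hB.e1 p h hp
  · exfalso
    have hxy : x = y := hA.e1' p h x y hp hxh (Or.inr ⟨m, hpm, hxm⟩) hyh (Or.inl ⟨l, hpl, hyl⟩)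
    subst hxy
    exact hA.u12 p x l m (by rintro rfl; exact hp hxh) hpl hyl hpm hxm
  · exact ⟨l, hpl, y, hyh, hyl⟩

theorem at_most (hA : Pair IH IA k) {h : H} {p : P} (hp : ¬ IH p h) {m m' : A}
    (h1 : IA p m) (h2 : Mt IH IA h m) (h3 : IA p m') (h4 : Mt IH IA h m') : m = m' := by
  obtain ⟨x, hxh, hxm⟩ := h2
  obtain ⟨y, hyh, hym⟩ := h4
  have hxy : x = y := hA.e1' p h x y hp hxh (Or.inr ⟨m, h1, hxm⟩) hyh (Or.inr ⟨m', h3, hym⟩)
  subst hxy
  exact hA.u22 p x m m' (by rintro rfl; exact hp hxh) h1 hxm h3 hym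

theorem F_bal (hA : Pair IH IA k) (hB : Pair IH IB k) (h : H) :
    Bal (J IA IB) (F IH IA IB h) := by
  intro p
  rw [Fintype.sum_sum_type]
  have e1 : ∑ m : A, ind (J IA IB p (Sum.inl m)) * F IH IA IB h (Sum.inl m) =
      ∑ m : A, ind (IA p m ∧ Mt IH IA h m) :=
    Finset.sum_congr rfl fun m _ => (ind_and _ _).symm
  have e2 : ∑ m : B, ind (J IA IB p (Sum.inr m)) * F IH IA IB h (Sum.inr m) =
      - ∑ m : B, ind (IB p m ∧ Mt IH IB h m) := by
    rw [← Finset.sum_neg_distrib]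
    refine Finset.sum_congr rfl fun m _ => ?_
    rw [ind_and]
    show ind (IB p m) * (- ind (Mt IH IB h m)) = _
    ring
  rw [e1, e2]
  by_cases hp : IH p h
  · have g1 : ∑ m : A, ind (IA p m ∧ Mt IH IA h m) = k + 1 := by
      rw [← hA.d2 p]
      exact Finset.sum_congr rfl fun m _ => ind_congr ⟨fun t => t.1, fun t => ⟨t, p, hp, t⟩⟩
    have g2 : ∑ m : B, ind (IB p m ∧ Mt IH IB h m) = k + 1 := by
      rw [← hB.d2 p]
      exact Finset.sum_congr rfl fun m _ => ind_congr ⟨fun t => t.1, fun t => ⟨t, p, hp, t⟩⟩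
    rw [g1, g2]; ring
  · by_cases ha : ∃ m, IA p m ∧ Mt IH IA h m
    · obtain ⟨m', hm'⟩ := swapAB hA hB hp ha
      obtain ⟨m, hm⟩ := ha
      rw [sum_ind_of_unique _ m hm (fun n hn => at_most hA hp hn.1 hn.2 hm.1 hm.2),
        sum_ind_of_unique _ m' hm' (fun n hn => at_most hB hp hn.1 hn.2 hm'.1 hm'.2)]
      ring
    · have hb : ∀ m, ¬ (IB p m ∧ Mt IH IB h m) := fun m hm =>
        ha (swapAB hB hA hp ⟨m, hm⟩)
      rw [sum_ind_eq_zero _ (fun m hm => ha ⟨m, hm⟩), sum_ind_eq_zero _ hb]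
      ring

/-- `h`, `c` meet at `o`: the number of `A`-lines meeting both -/
theorem count (hk : 1 ≤ k) (hHC : Pair IH IC k) (hHA : Pair IH IA k) (hCA : Pair IC IA k)
    {h : H} {c : C} {o : P} (ho : IH o h) (hc : IC o c) :
    ∑ m : A, ind (Mt IH IA h m ∧ Mt IC IA c m) = (k + 1) + (2 * k + 1) ^ 2 := by
  -- every `A`-line meeting `h` has one point on `h`
  rw [sum_ind_fiber (fun m : A => Mt IH IA h m ∧ Mt IC IA c m) (fun m x => IH x h ∧ IA x m)]
  · have hx : ∀ x : P, ∑ m : A, ind ((Mt IH IA h m ∧ Mt IC IA c m) ∧ IH x h ∧ IA x m) =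
        ind (IH x h) + k * ind (o = x) := by
      intro x
      by_cases hxh : IH x h
      · rw [ind_pos hxh]
        by_cases hox : o = x
        · subst hox
          rw [ind_pos rfl, mul_one, add_comm, ← hHA.d2 o]
          refine Finset.sum_congr rfl fun m _ => ind_congr ⟨fun t => t.2.2, fun t => ?_⟩
          exact ⟨⟨⟨o, ho, t⟩, ⟨o, hc, t⟩⟩, ho, t⟩
        · rw [ind_neg hox, mul_zero, add_zero]
          have hxc : ¬ IC x c := fun t => hHC.u12 o x h c hox ho hxh hc t
          -- the line of `C ∪ A` through `x` meeting `c` is in `A`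
          obtain ⟨z, hzc, ⟨l, hxl, hzl⟩ | ⟨l, hxl, hzl⟩⟩ := hCA.e1 x c hxc
          · exfalso
            have hoz : o = z := hHC.e2' x c o z hxc hc (Or.inl ⟨h, hxh, ho⟩) hzc
              (Or.inr ⟨l, hxl, hzl⟩)
            subst hoz
            exact hHC.u12 x o h l (Ne.symm hox) hxh ho hxl hzl
          · refine sum_ind_of_unique _ l ⟨⟨⟨x, hxh, hxl⟩, ⟨z, hzc, hzl⟩⟩, hxh, hxl⟩ ?_
            rintro m ⟨⟨-, w, hwc, hwm⟩, -, hxm⟩
            exact at_most hCA hxc hxm ⟨w, hwc, hwm⟩ hxl ⟨z, hzc, hzl⟩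
      · have hox : ¬ o = x := by rintro rfl; exact hxh ho
        rw [ind_neg hxh, ind_neg hox, sum_ind_eq_zero _ fun m t => hxh t.2.1]
        ring
    rw [Finset.sum_congr rfl fun x _ => hx x, Finset.sum_add_distrib, hHA.c1 h,
      ← Finset.mul_sum]
    have : ∑ x, ind (o = x) = 1 := sum_ind_of_unique _ o rfl fun _ t => t.symm
    rw [this]; unfold KK; ring
  · rintro m ⟨⟨x, hxh, hxm⟩, -⟩
    refine sum_ind_of_unique _ x ⟨hxh, hxm⟩ ?_
    rintro y ⟨hyh, hym⟩
    by_contra hne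
    exact hHA.u12 y x h m hne hyh hxh hym hxm

/-- four families of lines on the same points, any two of which form a quadrangle of order
`(q^2, q)`, `q ≥ 3`, do not exist -/
theorem four (hk : 1 ≤ k) (hHA : Pair IH IA k) (hHB : Pair IH IB k) (hHC : Pair IH IC k)
    (hAB : Pair IA IB k) (hAC : Pair IA IC k) (hBC : Pair IB IC k) : False := by
  classical
  obtain ⟨o⟩ := hHA.ne
  obtain ⟨h, ho⟩ : ∃ h, IH o h := exists_of_sum_ind_pos (by rw [hHA.d1 o]; linarith)
  obtain ⟨b, hb⟩ : ∃ b, IB o b := exists_of_sum_ind_pos (by rw [hHB.d2 o]; linarith)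
  obtain ⟨c, hc⟩ : ∃ c, IC o c := exists_of_sum_ind_pos (by rw [hHC.d2 o]; linarith)
  have hgq := gq hAB
  have key := two_bal hk hgq (F_bal hHA hHB h) (F_bal hAC.symm hBC.symm c) (Sum.inr b)
  rw [Fintype.sum_sum_type, Fintype.sum_sum_type] at key
  -- right hand side
  have r1 : ∑ m : A, F IH IA IB h (Sum.inl m) * F IC IA IB c (Sum.inl m) =
      (k + 1) + (2 * k + 1) ^ 2 := by
    rw [← count hk hHC hHA hAC.symm ho hc]
    exact Finset.sum_congr rfl fun m _ => (ind_and _ _).symm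
  have r2 : ∑ m : B, F IH IA IB h (Sum.inr m) * F IC IA IB c (Sum.inr m) =
      (k + 1) + (2 * k + 1) ^ 2 := by
    rw [← count hk hHC hHB hBC.symm ho hc]
    refine Finset.sum_congr rfl fun m _ => ?_
    rw [ind_and]
    show (- ind (Mt IH IB h m)) * (- ind (Mt IC IB c m)) = _
    ring
  -- left hand side
  have l1 : ∑ m : A, F IH IA IB h (Sum.inl m) * F IC IA IB c (Sum.inl m) *
      G (J IA IB) k (Sum.inr b) (Sum.inl m) =
      ∑ m : A, ind ((Mt IH IA h m ∧ Mt IC IA c m) ∧ Mt IA IB m b) := by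
    refine Finset.sum_congr rfl fun m _ => ?_
    rw [ind_and, ind_and]
    unfold G
    rw [ind_congr (adj_rl (I1 := IA) (I2 := IB) m b),
      ind_neg (p := (Sum.inr b : A ⊕ B) = Sum.inl m) Sum.inr_ne_inl]
    show ind (Mt IH IA h m) * ind (Mt IC IA c m) * (ind (Mt IA IB m b) - 2 * k * 0) = _
    ring
  have l2 : ∑ m : B, F IH IA IB h (Sum.inr m) * F IC IA IB c (Sum.inr m) *
      G (J IA IB) k (Sum.inr b) (Sum.inr m) = - k := by
    have h1 : ∀ m : B, F IH IA IB h (Sum.inr m) * F IC IA IB c (Sum.inr m) *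
        G (J IA IB) k (Sum.inr b) (Sum.inr m) = ind (IB o m) - ind (b = m) * (2 * k + 1) := by
      intro m
      have e0 : F IH IA IB h (Sum.inr m) * F IC IA IB c (Sum.inr m) =
          ind (Mt IH IB h m ∧ Mt IC IB c m) := by
        rw [ind_and]
        show (- ind (Mt IH IB h m)) * (- ind (Mt IC IB c m)) = _
        ring
      rw [e0]
      unfold G
      by_cases e : b = m
      · subst e
        rw [ind_pos (p := (Sum.inr b : A ⊕ B) = Sum.inr b) rfl, ind_neg (not_adj_self _),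
          ind_pos (p := b = b) rfl, ind_pos hb, ind_pos ⟨⟨o, ho, hb⟩, ⟨o, hc, hb⟩⟩]
        ring
      · rw [ind_neg (p := (Sum.inr b : A ⊕ B) = Sum.inr m) (fun t => e (Sum.inr.inj t)),
          ind_neg e]
        by_cases hom : IB o m
        · rw [ind_pos hom, ind_pos ⟨⟨o, ho, hom⟩, ⟨o, hc, hom⟩⟩,
            ind_pos (p := Adj (J IA IB) (Sum.inr b) (Sum.inr m))
              ⟨fun t => e (Sum.inr.inj t), o, hb, hom⟩]
          ring
        · rw [ind_neg hom]
          have : ¬ ((Mt IH IB h m ∧ Mt IC IB c m) ∧ Adj (J IA IB) (Sum.inr b) (Sum.inr m)) := by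
            rintro ⟨⟨⟨x, hxh, hxm⟩, -⟩, -, y, hyb, hym⟩
            have hyb' : IB y b := hyb
            have hym' : IB y m := hym
            have hxb : ¬ IB x b := by
              intro t
              exact hHB.u12 o x h b (by rintro rfl; exact hom hxm) ho hxh hb t
            have hoy : o = y := hHB.e2' x b o y hxb hb (Or.inl ⟨h, hxh, ho⟩) hyb'
              (Or.inr ⟨m, hxm, hym'⟩)
            subst hoy
            exact hom hym'
          have h2 := ind_neg this
          rw [ind_and] at h2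
          rw [mul_sub, h2]
          ring
    rw [Finset.sum_congr rfl fun m _ => h1 m, Finset.sum_sub_distrib, sum_eq_mul, hHB.d2 o]
    ring
  rw [r1, r2, l1, l2] at key
  set n := ∑ m : A, ind ((Mt IH IA h m ∧ Mt IC IA c m) ∧ Mt IA IB m b) with hn
  have h3 : (k + 1) * (n - k - 1 - 4 * k) = 1 := by
    have : 2 * ((k + 1) * (n - k - 1 - 4 * k)) = 2 * 1 := by linear_combination key
    linarith
  have h4 : k + 1 ∣ 1 := Dvd.intro _ h3
  have h5 := Int.le_of_dvd one_pos h4
  linarith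

end four

/-- the isomorphism `φ` of the hemisystem graphs is the restriction of an isomorphism of the
quadrangles -/
def Extends {P₁ L₁ P₂ L₂ : Type} (I₁ : P₁ → L₁ → Prop) (I₂ : P₂ → L₂ → Prop) (H₁ : Set L₁)
    (H₂ : Set L₂) (φ : hemiGraph I₁ H₁ ≃g hemiGraph I₂ H₂) : Prop :=
  ∃ (e : P₁ ≃ P₂) (f : L₁ ≃ L₂), (∀ p l, I₁ p l ↔ I₂ (e p) (f l)) ∧ ∀ l : H₁, f l = φ l

open FinM in
theorem three {P₁ L₁ P₂ L₂ P₃ L₃ : Type} (I₁ : P₁ → L₁ → Prop) (I₂ : P₂ → L₂ → Prop)
    (I₃ : P₃ → L₃ → Prop) (q : ℕ) (hq : Odd q) (hq3 : 3 ≤ q)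
    (h₁ : IsGQ I₁ (q ^ 2) q) (h₂ : IsGQ I₂ (q ^ 2) q) (h₃ : IsGQ I₃ (q ^ 2) q)
    (H₁ : Set L₁) (H₂ : Set L₂) (H₃ : Set L₃) (hH₁ : IsHemisystem I₁ q H₁)
    (hH₂ : IsHemisystem I₂ q H₂) (hH₃ : IsHemisystem I₃ q H₃)
    (φ : hemiGraph I₁ H₁ ≃g hemiGraph I₂ H₂) (ψ : hemiGraph I₁ H₁ ≃g hemiGraph I₃ H₃) :
    Extends I₁ I₂ H₁ H₂ φ ∨ Extends I₁ I₃ H₁ H₃ ψ ∨ Extends I₂ I₃ H₂ H₃ (φ.symm.trans ψ) := by
  classical
  obtain ⟨k, rfl⟩ := hq
  have hk : 1 ≤ k := by omega
  have := h₁.finP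
  have := h₁.finL
  have := h₂.finP
  have := h₂.finL
  have := h₃.finP
  have := h₃.finL
  letI : Fintype P₁ := Fintype.ofFinite _
  letI : Fintype P₂ := Fintype.ofFinite _
  letI : Fintype P₃ := Fintype.ofFinite _
  letI : Fintype H₁ := Fintype.ofFinite _
  letI : Fintype H₂ := Fintype.ofFinite _
  letI : Fintype H₃ := Fintype.ofFinite _
  letI : Fintype {l : L₁ // l ∉ H₁} := Fintype.ofFinite _
  letI : Fintype {l : L₂ // l ∉ H₂} := Fintype.ofFinite _
  letI : Fintype {l : L₃ // l ∉ H₃} := Fintype.ofFinite _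
  have hk' : (1 : ℤ) ≤ k := by exact_mod_cast hk
  obtain ⟨e, he, hT⟩ := common hTR I₁ I₂ H₁ H₂ k hk h₁ h₂ hH₁ hH₂ φ
  obtain ⟨e', he', hT'⟩ := common hTR I₁ I₃ H₁ H₃ k hk h₁ h₃ hH₁ hH₃ ψ
  have hT'' : Two (fun p (l : H₁) => I₁ p l)
      (fun p (m : {m : L₂ // m ∉ H₂}) => I₂ (e p) m)
      (fun p (m : {m : L₃ // m ∉ H₃}) => I₃ (e' p) m) (k : ℤ) := ⟨hk', hT.SB, hT'.SB⟩
  rcases hGL _ _ _ _ hT with ⟨f, hf⟩ | hX
  · left
    obtain ⟨g, hg1, hg2⟩ := glue I₁ I₂ H₁ H₂ e φ.toEquiv f he hf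
    exact ⟨e, g, hg1, hg2⟩
  rcases hGL _ _ _ _ hT' with ⟨f, hf⟩ | hX'
  · right; left
    obtain ⟨g, hg1, hg2⟩ := glue I₁ I₃ H₁ H₃ e' ψ.toEquiv f he' hf
    exact ⟨e', g, hg1, hg2⟩
  rcases hGL _ _ _ _ hT'' with ⟨f, hf⟩ | hX''
  · right; right
    obtain ⟨g, hg1, hg2⟩ := glue I₂ I₃ H₂ H₃ (e.symm.trans e')
        (φ.symm.trans ψ).toEquiv f (by
          intro p l
          have h1 := he (e.symm p) (φ.symm l)
          have h2 := he' (e.symm p) (φ.symm l)
          have h3 : φ (φ.symm l) = l := φ.apply_symm_apply l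
          rw [h3, Equiv.apply_symm_apply] at h1
          exact h1.symm.trans h2) (by
          intro p l
          have h1 := hf (e.symm p) l
          simp only [Equiv.apply_symm_apply] at h1
          exact h1)
    exact ⟨_, g, hg1, hg2⟩
  exact (four hk' hT.SA hT.SB hT'.SB (hG3 _ _ _ _ hT hX).1 (hG3 _ _ _ _ hT' hX').1
    (hG3 _ _ _ _ hT'' hX'').1).elim

end FourM

end Pool.Agent.Lib.MP0ea612
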