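import Pool.Agent.Lib.MP_0ea612_co.Spec

section
/-!
# Adjacency of lines in a generalized quadrangle
-/
set_option autoImplicit false

namespace Pool.Agent.Lib.MP0ea612

namespace ADJM

theorem sum_split {α : Type} [Fintype α] (p r : α → Prop) :
    ∑ a, ind (p a) = ∑ a, ind (p a ∧ r a) + ∑ a, ind (p a ∧ ¬ r a) := by
  rw [← Finset.sum_add_distrib]
  refine Finset.sum_congr rfl fun a _ => ?_
  rw [ind_and, ind_and, ind_not]
  ring

theorem sum_eq {α : Type} [Fintype α] (p : α → Prop) (a : α) :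
    ∑ b, ind (p b ∧ b = a) = ind (p a) := by
  classical
  rw [Finset.sum_eq_single a (fun b _ hb => ind_neg fun h => hb h.2)
    (fun h => absurd (Finset.mem_univ a) h)]
  exact ind_congr ⟨fun h => h.1, fun h => ⟨h, rfl⟩⟩

theorem sum_ne {α : Type} [Fintype α] (p : α → Prop) (a : α) :
    ∑ b, ind (p b ∧ b ≠ a) = ∑ b, ind (p b) - ind (p a) := by
  rw [sum_split p (fun b => b = a), sum_eq]
  ring

theorem sum_mul_ind {α : Type} [Fintype α] (p : Prop) (f g : α → ℤ)
    (h : p → ∀ a, f a = g a) : ind p * ∑ a, f a = ind p * ∑ a, g a := by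
  by_cases hp : p
  · rw [Finset.sum_congr rfl fun a _ => h hp a]
  · rw [ind_neg hp, zero_mul, zero_mul]

theorem ind_mul_congr {p : Prop} {a b : ℤ} (h : p → a = b) : ind p * a = ind p * b := by
  by_cases hp : p
  · rw [h hp]
  · rw [ind_neg hp, zero_mul, zero_mul]

theorem sum_const_mul {α : Type} [Fintype α] (p : α → Prop) (f : α → ℤ) (c : ℤ)
    (h : ∀ a, p a → f a = c) : ∑ a, ind (p a) * f a = (∑ a, ind (p a)) * c := by
  rw [Finset.sum_mul]
  exact Finset.sum_congr rfl fun a _ => ind_mul_congr (h a)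

variable {P L : Type} {I : P → L → Prop}

theorem Adj.symm' {x y : L} (h : Adj I x y) : Adj I y x :=
  ⟨h.1.symm, h.2.imp fun _ h' => ⟨h'.2, h'.1⟩⟩

theorem adj_comm {x y : L} : Adj I x y ↔ Adj I y x := ⟨Adj.symm', Adj.symm'⟩

variable [Fintype P] [Fintype L] {k : ℤ}

/-- the common point of two adjacent lines is unique -/
theorem point_unique (h : GQ I k) {x y : L} (hxy : x ≠ y) {p p' : P} (h1 : I p x) (h2 : I p y)
    (h3 : I p' x) (h4 : I p' y) : p' = p := by
  by_contra hne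
  exact hxy (h.u p p' x y (fun e => hne e.symm) h1 h3 h2 h4)

theorem sum_common (h : GQ I k) {x y : L} (hxy : Adj I x y) :
    ∑ p, ind (I p x ∧ I p y) = 1 := by
  obtain ⟨hne, p, h1, h2⟩ := hxy
  exact sum_ind_of_unique _ p ⟨h1, h2⟩ fun p' h' => point_unique h hne h1 h2 h'.1 h'.2

/-- lines on a point other than a given one -/
theorem sum_other (h : GQ I k) {x : L} {p : P} (hp : I p x) :
    ∑ y, ind (I p y ∧ y ≠ x) = 2 * k + 1 := by
  rw [sum_ne (fun y => I p y) x, h.d, ind_pos hp]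
  ring

/-- sum over the lines adjacent to `x`, sorted by the common point -/
theorem sum_adj (h : GQ I k) (x : L) (R : L → Prop) :
    ∑ y, ind (R y ∧ Adj I x y) = ∑ p, ind (I p x) * ∑ y, ind ((R y ∧ I p y) ∧ y ≠ x) := by
  rw [sum_ind_fiber (fun y => R y ∧ Adj I x y) (fun y p => I p x ∧ I p y)
    fun y hy => sum_common h hy.2]
  refine Finset.sum_congr rfl fun p _ => ?_
  rw [Finset.mul_sum]
  refine Finset.sum_congr rfl fun y _ => ?_
  rw [← ind_and]
  refine ind_congr ⟨?_, ?_⟩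
  · rintro ⟨⟨h1, h2⟩, h3, h4⟩
    exact ⟨h3, ⟨h1, h4⟩, h2.1.symm⟩
  · rintro ⟨h3, ⟨h1, h4⟩, h5⟩
    exact ⟨⟨h1, h5.symm, p, h3, h4⟩, h3, h4⟩

theorem adj_count (h : GQ I k) (x : L) : ∑ y, ind (Adj I x y) = KK k * (2 * k + 1) := by
  have h1 := sum_adj h x fun _ => True
  have h2 : ∑ y, ind (Adj I x y) = ∑ y, ind (True ∧ Adj I x y) :=
    Finset.sum_congr rfl fun y _ => ind_congr (by tauto)
  rw [h2, h1, sum_const_mul _ _ (2 * k + 1), h.c]
  intro p hp
  rw [← sum_other h hp]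
  exact Finset.sum_congr rfl fun y _ => ind_congr (by tauto)

/-- three pairwise adjacent lines have a common point -/
theorem triangle (h : GQ I k) {x y z : L} (hxy : Adj I x y) (hyz : Adj I y z) (hxz : Adj I x z) :
    ∃ p, I p x ∧ I p y ∧ I p z := by
  obtain ⟨_, a, ha1, ha2⟩ := hxy
  obtain ⟨_, b, hb1, hb2⟩ := hyz
  obtain ⟨_, c, hc1, hc2⟩ := hxz
  by_cases hcy : I c y
  · exact ⟨c, hc1, hcy, hc2⟩
  · have : a = b := h.e' c y a b x z hcy ha2 hc1 ha1 hb1 hc2 hb2
    exact ⟨a, ha1, ha2, this ▸ hb2⟩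

theorem triangle_at (h : GQ I k) {x y z : L} (hxy : Adj I x y) (hyz : Adj I y z)
    (hxz : Adj I x z) {p : P} (h1 : I p x) (h2 : I p y) : I p z := by
  obtain ⟨a, ha1, ha2, ha3⟩ := triangle h hxy hyz hxz
  have := point_unique h hxy.1 h1 h2 ha1 ha2
  exact this ▸ ha3

theorem adj_adj (h : GQ I k) {x y : L} (hxy : Adj I x y) :
    ∑ z, ind (Adj I z x ∧ Adj I z y) = 2 * k := by
  obtain ⟨hne, p, h1, h2⟩ := id hxy
  have h3 : ∑ z, ind (Adj I z x ∧ Adj I z y) = ∑ z, ind ((I p z ∧ z ≠ x) ∧ z ≠ y) := by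
    refine Finset.sum_congr rfl fun z _ => ind_congr ⟨?_, ?_⟩
    · rintro ⟨h3, h4⟩
      exact ⟨⟨triangle_at h hxy (Adj.symm' h4) (Adj.symm' h3) h1 h2, h3.1⟩, h4.1⟩
    · rintro ⟨⟨h3, h4⟩, h5⟩
      exact ⟨⟨h4, p, h3, h1⟩, h5, p, h3, h2⟩
  rw [h3, sum_ne (fun z => I p z ∧ z ≠ x) y, sum_other h h1, ind_pos ⟨h2, hne.symm⟩]
  ring

/-- the transversal through a point -/
theorem transversal (h : GQ I k) {x y : L} (hne : x ≠ y) (hxy : ¬ Adj I x y) {p : P}
    (hp : I p x) : ∃ z, (Adj I z x ∧ Adj I z y ∧ I p z) ∧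
      ∀ z', Adj I z' x ∧ Adj I z' y ∧ I p z' → z' = z := by
  have hpy : ¬ I p y := fun h' => hxy ⟨hne, p, hp, h'⟩
  obtain ⟨p', z, h1, h2, h3⟩ := h.e p y hpy
  have hzx : z ≠ x := by
    rintro rfl
    exact hxy ⟨hne, p', h3, h1⟩
  have hzy : z ≠ y := by
    rintro rfl
    exact hpy h2
  refine ⟨z, ⟨⟨hzx, p, h2, hp⟩, ⟨hzy, p', h3, h1⟩, h2⟩, ?_⟩
  rintro z' ⟨_, ⟨_, p'', h4, h5⟩, h6⟩
  have h7 : p' = p'' := h.e' p y p' p'' z z' hpy h1 h2 h3 h5 h6 h4
  subst h7
  have h8 : p ≠ p' := fun e => hpy (e ▸ h1)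
  exact (h.u p p' z z' h8 h2 h3 h6 h4).symm

theorem adj_nonadj (h : GQ I k) {x y : L} (hne : x ≠ y) (hxy : ¬ Adj I x y) :
    ∑ z, ind (Adj I z x ∧ Adj I z y) = KK k := by
  rw [sum_ind_fiber (fun z => Adj I z x ∧ Adj I z y) (fun z p => I p z ∧ I p x)
    fun z hz => sum_common h hz.1, ← h.c x]
  refine Finset.sum_congr rfl fun p _ => ?_
  by_cases hp : I p x
  · rw [ind_pos hp]
    obtain ⟨z, hz, hu⟩ := transversal h hne hxy hp
    exact sum_ind_of_unique _ z ⟨⟨hz.1, hz.2.1⟩, hz.2.2, hp⟩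
      fun z' h' => hu z' ⟨h'.1.1, h'.1.2, h'.2.1⟩
  · rw [ind_neg hp]
    exact sum_ind_eq_zero _ fun z h' => hp h'.2.2

theorem line_count (h : GQ I k) (hk : 1 ≤ k) :
    (∑ _x : L, (1 : ℤ)) = (2 * k + 2) * ((2 * k + 1) ^ 3 + 1) := by
  obtain ⟨p⟩ := h.ne
  obtain ⟨x, _⟩ := exists_of_sum_ind_pos (p := fun x => I p x) (by rw [h.d]; omega)
  have hK : KK k ≠ 0 := by
    unfold KK
    nlinarith
  -- lines which are not adjacent to `x`
  have h1 : (∑ y, ind (y ≠ x ∧ ¬ Adj I x y)) * KK k =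
      KK k * (2 * k + 1) * (KK k * (2 * k + 1) - 1 - 2 * k) := by
    rw [← sum_const_mul (fun y => y ≠ x ∧ ¬ Adj I x y)
      (fun y => ∑ z, ind (Adj I z x ∧ Adj I z y)) (KK k) fun y hy => adj_nonadj h hy.1.symm hy.2]
    have h2 : ∑ y, ind (y ≠ x ∧ ¬ Adj I x y) * ∑ z, ind (Adj I z x ∧ Adj I z y) =
        ∑ z, ind (Adj I x z) * ∑ y, ind ((Adj I z y ∧ y ≠ x) ∧ ¬ Adj I y x) := by
      simp_rw [Finset.mul_sum]
      rw [Finset.sum_comm]
      refine Finset.sum_congr rfl fun z _ => Finset.sum_congr rfl fun y _ => ?_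
      rw [← ind_and, ← ind_and]
      refine ind_congr ?_
      rw [adj_comm (I := I) (x := z) (y := x), adj_comm (I := I) (x := y) (y := x)]
      tauto
    rw [h2, sum_const_mul _ _ (KK k * (2 * k + 1) - 1 - 2 * k), adj_count h x]
    intro z hz
    have h3 := sum_split (fun y => Adj I z y ∧ y ≠ x) (fun y => Adj I y x)
    rw [sum_ne (fun y => Adj I z y) x, adj_count h z, ind_pos (Adj.symm' hz)] at h3
    have h4 : ∑ y, ind ((Adj I z y ∧ y ≠ x) ∧ Adj I y x) = 2 * k := by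
      rw [← adj_adj h (Adj.symm' hz)]
      refine Finset.sum_congr rfl fun y _ => ind_congr ?_
      rw [adj_comm (I := I) (x := z) (y := y)]
      exact ⟨fun h' => ⟨h'.1.1, h'.2⟩, fun h' => ⟨⟨h'.1, h'.2.1⟩, h'.2⟩⟩
    rw [h4] at h3
    linarith
  have h5 : (∑ y, ind (y ≠ x ∧ ¬ Adj I x y)) = (2 * k + 1) ^ 4 := by
    have h6 : (∑ y, ind (y ≠ x ∧ ¬ Adj I x y)) * KK k = (2 * k + 1) ^ 4 * KK k := by
      rw [h1]
      unfold KK
      ring
    exact mul_right_cancel₀ hK h6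
  have h7 : (∑ _x : L, (1 : ℤ)) = ∑ y : L, ind (True ∧ y = x) + ∑ y : L, ind (True ∧ y ≠ x) := by
    rw [← sum_split (fun _ : L => True) (fun y => y = x)]
    exact Finset.sum_congr rfl fun y _ => (ind_pos trivial).symm
  have h8 : ∑ y : L, ind (True ∧ y ≠ x) = ∑ y, ind (Adj I x y) +
      ∑ y, ind (y ≠ x ∧ ¬ Adj I x y) := by
    rw [sum_split (fun y : L => True ∧ y ≠ x) (fun y => Adj I x y)]
    congr 1
    · refine Finset.sum_congr rfl fun y _ => ind_congr ⟨fun h' => h'.2, fun h' => ?_⟩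
      exact ⟨⟨trivial, h'.1.symm⟩, h'⟩
    · exact Finset.sum_congr rfl fun y _ => ind_congr (by tauto)
  rw [h7, h8, sum_eq, h5, adj_count h x, ind_pos trivial]
  unfold KK
  ring

end ADJM

theorem specADJ : SpecADJ := fun _I _k hk h =>
  ⟨ADJM.adj_count h, fun _ _ => ADJM.adj_adj h, fun _ _ => ADJM.adj_nonadj h,
    fun _ _ _ => ADJM.triangle h, ADJM.line_count h hk⟩

end Pool.Agent.Lib.MP0ea612
end

section
/-!
# Module SA: moments of the number of pairs of concurrent hemisystem lines on two points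
-/
set_option autoImplicit false

namespace Pool.Agent.Lib.MP0ea612

namespace SAM

theorem ind_mul_eq {p q : Prop} : ind p * ind q = ind (p ∧ q) := (ind_and p q).symm

theorem sum_ind_eq_one {α : Type} [Fintype α] (a : α) : ∑ x, ind (x = a) = 1 :=
  sum_ind_of_unique _ a rfl fun _ h => h

/-- removing one element -/
theorem sum_ne {α : Type} [Fintype α] (p : α → Prop) (a : α) (ha : p a) :
    ∑ x, ind (p x ∧ x ≠ a) = ∑ x, ind (p x) - 1 := by
  rw [← sum_ind_eq_one a, ← Finset.sum_sub_distrib]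
  refine Finset.sum_congr rfl fun x _ => ?_
  by_cases hx : x = a
  · subst hx
    rw [ind_pos ha, ind_pos rfl, ind_neg (by simp)]; norm_num
  · rw [ind_neg hx, sub_zero]
    exact ind_congr ⟨fun h => h.1, fun h => ⟨h, hx⟩⟩

section

variable {P H A : Type} [Fintype P] [Fintype H] [Fintype A] {IH : P → H → Prop}
  {IA : P → A → Prop} {k : ℤ}

omit [Fintype P] [Fintype H] in
theorem Mt_symm {l l' : H} (h : Mt IH IH l l') : Mt IH IH l' l := by
  obtain ⟨p, h1, h2⟩ := h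
  exact ⟨p, h2, h1⟩

/-- the unique common point of two different lines that meet -/
theorem meet_one (hP : Pair IH IA k) {l l' : H} (hne : l ≠ l') (h : Mt IH IH l l') :
    ∑ b, ind (IH b l ∧ IH b l') = 1 := by
  obtain ⟨b, h1, h2⟩ := h
  refine sum_ind_of_unique _ b ⟨h1, h2⟩ fun c hc => ?_
  by_contra hcb
  exact hne (hP.u11 c b l l' hcb hc.1 h1 hc.2 h2)

/-- if `b ∈ l ∩ l'` with `p ∈ l`, `p ∉ l'`, the points of `l'` noncollinear with `p` are the ones
other than `b` -/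
theorem noncol_iff (hP : Pair IH IA k) {p b : P} {l l' : H} (hpl : IH p l) (hbl : IH b l)
    (hbl' : IH b l') (hpl' : ¬ IH p l') (p' : P) (hp' : IH p' l') :
    ¬ Col IH IA p p' ↔ p' ≠ b := by
  constructor
  · rintro h rfl
    exact h (Or.inl ⟨l, hpl, hbl⟩)
  · intro h hc
    exact h (hP.e1' p l' p' b hpl' hp' hc hbl' (Or.inl ⟨l, hpl, hbl⟩))

theorem N1 (hP : Pair IH IA k) {p : P} {l : H} (hpl : IH p l) :
    ∑ l', ind (Mt IH IH l l' ∧ ¬ IH p l') = (KK k - 1) * k := by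
  rw [sum_ind_fiber (fun l' => Mt IH IH l l' ∧ ¬ IH p l') (fun l' b => IH b l ∧ IH b l')]
  · have : ∀ b : P, ∑ l', ind ((Mt IH IH l l' ∧ ¬ IH p l') ∧ (IH b l ∧ IH b l')) =
        ind (IH b l ∧ b ≠ p) * k := by
      intro b
      by_cases hb : IH b l ∧ b ≠ p
      · rw [ind_pos hb, one_mul]
        have h1 := sum_ne (fun l' => IH b l') l hb.1
        rw [hP.d1 b] at h1
        rw [show k = k + 1 - 1 by ring, ← h1]
        refine Finset.sum_congr rfl fun l' _ => ind_congr ⟨fun h => ⟨h.2.2, ?_⟩, fun h => ?_⟩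
        · rintro rfl
          exact h.1.2 hpl
        · refine ⟨⟨⟨b, hb.1, h.1⟩, fun hp => ?_⟩, hb.1, h.1⟩
          exact h.2 (hP.u11 b p l' l hb.2 h.1 hp hb.1 hpl)
      · rw [ind_neg hb, zero_mul]
        refine sum_ind_eq_zero _ fun l' h => hb ⟨h.2.1, ?_⟩
        rintro rfl
        exact h.1.2 h.2.2
    rw [Finset.sum_congr rfl fun b _ => this b, ← Finset.sum_mul,
      sum_ne (fun b => IH b l) p hpl, hP.c1 l]
  · intro l' h
    refine meet_one hP ?_ h.1
    rintro rfl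
    exact h.2 hpl

theorem N2 (hP : Pair IH IA k) {p : P} {l l' : H} (hpl : IH p l) (hm : Mt IH IH l l')
    (hpl' : ¬ IH p l') : ∑ p', ind (¬ Col IH IA p p' ∧ IH p' l') = KK k - 1 := by
  obtain ⟨b, hbl, hbl'⟩ := hm
  rw [← hP.c1 l', ← sum_ne (fun p' => IH p' l') b hbl']
  refine Finset.sum_congr rfl fun p' _ => ind_congr ⟨fun h => ⟨h.2, ?_⟩, fun h => ⟨?_, h.1⟩⟩
  · exact (noncol_iff hP hpl hbl hbl' hpl' p' h.2).1 h.1
  · exact (noncol_iff hP hpl hbl hbl' hpl' p' h.1).2 h.2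

/-- the number of pairs of concurrent lines on `p` and `p'` -/
noncomputable def ff (IH : P → H → Prop) (p p' : P) (l l' : H) : ℤ :=
  ind (IH p l ∧ IH p' l' ∧ Mt IH IH l l')

theorem row (hP : Pair IH IA k) {p p' : P} (hW : ¬ Col IH IA p p') (l : H) :
    (∑ l', ff IH p p' l l') * (∑ l', ff IH p p' l l') = ∑ l', ff IH p p' l l' := by
  unfold ff
  by_cases h : ∃ l', IH p l ∧ IH p' l' ∧ Mt IH IH l l'
  · obtain ⟨l', h1, h2, b, hbl, hbl'⟩ := h
    rw [sum_ind_of_unique _ l' ⟨h1, h2, b, hbl, hbl'⟩]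
    · norm_num
    · rintro l'' ⟨-, h3, c, hcl, hcl''⟩
      have hp'l : ¬ IH p' l := fun h => hW (Or.inl ⟨l, h1, h⟩)
      have hbc : b = c := hP.e1' p' l b c hp'l hbl (Or.inl ⟨l', h2, hbl'⟩) hcl
        (Or.inl ⟨l'', h3, hcl''⟩)
      subst hbc
      have hne : p' ≠ b := by
        rintro rfl
        exact hp'l hbl
      exact hP.u11 p' b l'' l' hne h3 hcl'' h2 hbl'
  · push Not at h
    rw [sum_ind_eq_zero]
    · norm_num
    · intro l' hl'
      exact h l' hl'.1 hl'.2.1 hl'.2.2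

theorem square {α : Type} [Fintype α] (F : α → ℤ) (h : ∀ a, F a * F a = F a) :
    (∑ a, F a) ^ 2 = ∑ a, F a + ∑ a, ∑ b, ind (a ≠ b) * (F a * F b) := by
  rw [sq, Finset.sum_mul_sum]
  have : ∀ a, ∑ b, F a * F b = F a + ∑ b, ind (a ≠ b) * (F a * F b) := by
    intro a
    have h1 : ∑ b, ind (b = a) * (F a * F b) = F a := by
      rw [Finset.sum_eq_single a, ind_pos rfl, one_mul, h a]
      · intro b _ hb
        rw [ind_neg hb, zero_mul]
      · intro h; exact absurd (Finset.mem_univ a) h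
    rw [← h1, ← Finset.sum_add_distrib, h1]
    refine Finset.sum_congr rfl fun b _ => ?_
    rw [ne_eq, ind_not, ind_congr (⟨fun h => h.symm, fun h => h.symm⟩ : b = a ↔ a = b)]
    ring
  rw [Finset.sum_congr rfl fun a _ => this a, Finset.sum_add_distrib]

/-- the points `p'` for a fixed quadruple of lines -/
theorem N3 (hP : Pair IH IA k) {p : P} {l1 l2 l1' : H} (hl1 : IH p l1) (hl2 : IH p l2)
    (hne : l1 ≠ l2) (hm : Mt IH IH l1 l1') (hp1' : ¬ IH p l1') (l2' : H) :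
    ∑ p', ind (¬ Col IH IA p p') * ind (IH p' l1' ∧ IH p' l2' ∧ Mt IH IH l2 l2') =
      ind (Mt IH IH l2' l1' ∧ Mt IH IH l2' l2) - ind (l2' = l1) := by
  obtain ⟨b, hbl1, hbl1'⟩ := hm
  have hpb : p ≠ b := by
    rintro rfl
    exact hp1' hbl1'
  have hcolb : Col IH IA p b := Or.inl ⟨l1, hl1, hbl1⟩
  -- `l1'` and `l2` do not meet
  have hdis : ¬ Mt IH IH l1' l2 := by
    rintro ⟨c, hc1, hc2⟩
    have : b = c := hP.e1' p l1' b c hp1' hbl1' hcolb hc1 (Or.inl ⟨l2, hl2, hc2⟩)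
    subst this
    exact hne (hP.u11 p b l1 l2 hpb hl1 hbl1 hl2 hc2)
  simp only [ind_mul_eq]
  by_cases h0 : l2' = l1
  · subst h0
    rw [ind_pos rfl, ind_pos (⟨⟨b, hbl1, hbl1'⟩, ⟨p, hl1, hl2⟩⟩ : Mt IH IH l2' l1' ∧
      Mt IH IH l2' l2), sub_self]
    exact sum_ind_eq_zero _ fun p' h => h.1 (Or.inl ⟨l2', hl1, h.2.2.1⟩)
  · rw [ind_neg h0, sub_zero]
    by_cases h1 : Mt IH IH l2' l1' ∧ Mt IH IH l2' l2
    · rw [ind_pos h1]
      obtain ⟨⟨p', h2, h3⟩, c, hc1, hc2⟩ := h1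
      have hne' : l2' ≠ l1' := by
        rintro rfl
        exact hdis ⟨c, hc1, hc2⟩
      refine sum_ind_of_unique _ p' ⟨fun hcol => ?_, h3, h2, c, hc2, hc1⟩ fun r hr => ?_
      · have hb' : p' = b := hP.e1' p l1' p' b hp1' h3 hcol hbl1' hcolb
        subst hb'
        by_cases hpl : IH p l2'
        · exact h0 (hP.u11 p p' l2' l1 hpb hpl h2 hl1 hbl1)
        · have : p' = c := hP.e1' p l2' p' c hpl h2 hcolb hc1 (Or.inl ⟨l2, hl2, hc2⟩)
          subst this
          exact hne (hP.u11 p p' l1 l2 hpb hl1 hbl1 hl2 hc2)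
      · by_contra hrp
        exact hne' (hP.u11 r p' l2' l1' hrp hr.2.2.1 h2 hr.2.1 h3)
    · rw [ind_neg h1]
      refine sum_ind_eq_zero _ fun p' h => h1 ⟨⟨p', h.2.2.1, h.2.1⟩, Mt_symm h.2.2.2⟩

theorem disj (hP : Pair IH IA k) {p : P} {l1 l2 l1' : H} (hl1 : IH p l1) (hl2 : IH p l2)
    (hne : l1 ≠ l2) (hm : Mt IH IH l1 l1') (hp1' : ¬ IH p l1') : ¬ Mt IH IH l1' l2 := by
  obtain ⟨b, hbl1, hbl1'⟩ := hm
  have hpb : p ≠ b := by
    rintro rfl
    exact hp1' hbl1'
  rintro ⟨c, hc1, hc2⟩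
  have : b = c := hP.e1' p l1' b c hp1' hbl1' (Or.inl ⟨l1, hl1, hbl1⟩) hc1
    (Or.inl ⟨l2, hl2, hc2⟩)
  subst this
  exact hne (hP.u11 p b l1 l2 hpb hl1 hbl1 hl2 hc2)

/-- number of points joined to `p` by a line of the first family -/
theorem joined (hP : Pair IH IA k) (p : P) :
    ∑ p', ind (p' ≠ p ∧ ∃ x, IH p x ∧ IH p' x) = (k + 1) * (KK k - 1) := by
  rw [sum_ind_fiber (fun p' => p' ≠ p ∧ ∃ x, IH p x ∧ IH p' x) (fun p' x => IH p x ∧ IH p' x)]
  · have : ∀ x : H, ∑ p', ind ((p' ≠ p ∧ ∃ x, IH p x ∧ IH p' x) ∧ IH p x ∧ IH p' x) =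
        ind (IH p x) * (KK k - 1) := by
      intro x
      by_cases hx : IH p x
      · rw [ind_pos hx, one_mul, ← hP.c1 x, ← sum_ne (fun p' => IH p' x) p hx]
        exact Finset.sum_congr rfl fun p' _ => ind_congr
          ⟨fun h => ⟨h.2.2, h.1.1⟩, fun h => ⟨⟨h.2, x, hx, h.1⟩, hx, h.1⟩⟩
      · rw [ind_neg hx, zero_mul]
        exact sum_ind_eq_zero _ fun p' h => hx h.2.1
    rw [Finset.sum_congr rfl fun x _ => this x, ← Finset.sum_mul, hP.d1 p]
  · rintro p' ⟨hne, x, h1, h2⟩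
    exact sum_ind_of_unique _ x ⟨h1, h2⟩ fun y hy => hP.u11 p' p y x hne hy.2 hy.1 h2 h1

end

end SAM

open SAM in
theorem specSA (hPR : SpecPR) : SpecSA := by
  intro P H A _ _ _ IH IA k hk hP p
  obtain ⟨-, -, -, -, -, -, pr7, pr8⟩ := hPR IH IA k hk hP
  have hq : KK k - 1 = (2 * k + 1) ^ 2 := by unfold KK; ring
  -- number of points
  have hcard : (∑ _p : P, (1 : ℤ)) = KK k * ((2 * k + 1) ^ 3 + 1) := by
    have h1 : ∑ p : P, ∑ x : H, ind (IH p x) = (∑ _p : P, (1 : ℤ)) * (k + 1) := by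
      rw [Finset.sum_congr rfl fun p _ => hP.d1 p, Finset.sum_mul]
      simp
    rw [Finset.sum_comm, Finset.sum_congr rfl fun x _ => hP.c1 x] at h1
    have h2 : ∑ _x : H, KK k = KK k * (∑ _x : H, (1 : ℤ)) := by
      rw [Finset.mul_sum]; simp
    rw [h2, pr7] at h1
    have h3 : (k + 1) ≠ 0 := by linarith
    apply mul_right_cancel₀ h3
    rw [← h1]; ring
  -- moments
  have key : ∀ p', ∑ l, ∑ l', ind (IH p l ∧ IH p' l' ∧ Mt IH IH l l') =
      ∑ l, ∑ l', ff IH p p' l l' := fun _ => rfl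
  have hS1 : ∑ p', ind (¬ Col IH IA p p') * (∑ l, ∑ l', ff IH p p' l l') =
      k * (k + 1) * (2 * k + 1) ^ 4 := by
    simp_rw [Finset.mul_sum]
    rw [Finset.sum_comm]
    have h1 : ∀ l, ∑ p', ∑ l', ind (¬ Col IH IA p p') * ff IH p p' l l' =
        ind (IH p l) * ((KK k - 1) * k * (KK k - 1)) := by
      intro l
      rw [Finset.sum_comm]
      by_cases hl : IH p l
      · rw [ind_pos hl, one_mul, ← N1 hP hl, Finset.sum_mul]
        refine Finset.sum_congr rfl fun l' _ => ?_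
        by_cases h2 : Mt IH IH l l' ∧ ¬ IH p l'
        · rw [ind_pos h2, one_mul, ← N2 hP hl h2.1 h2.2]
          refine Finset.sum_congr rfl fun p' _ => ?_
          unfold ff
          rw [ind_mul_eq]
          exact ind_congr ⟨fun h => ⟨h.1, h.2.2.1⟩, fun h => ⟨h.1, hl, h.2, h2.1⟩⟩
        · rw [ind_neg h2, zero_mul]
          unfold ff
          simp only [ind_mul_eq]
          refine sum_ind_eq_zero _ fun p' h => h2 ⟨h.2.2.2, fun hp => h.1 (Or.inl ⟨l', hp, h.2.2.1⟩)⟩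
      · rw [ind_neg hl, zero_mul]
        unfold ff
        simp only [ind_mul_eq]
        exact Finset.sum_eq_zero fun l' _ => sum_ind_eq_zero _ fun p' h => hl h.2.1
    rw [Finset.sum_congr rfl fun l _ => h1 l, ← Finset.sum_mul, hP.d1 p, hq]
    ring
  refine ⟨?_, ?_, ?_⟩
  · -- number of noncollinear points
    have h1 : ∀ p', (1 : ℤ) = ind (¬ Col IH IA p p') + ind (p' = p) +
        ind (p' ≠ p ∧ ∃ x, IH p x ∧ IH p' x) + ind (p' ≠ p ∧ ∃ y, IA p y ∧ IA p' y) := by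
      intro p'
      by_cases h0 : p' = p
      · subst h0
        have hc : Col IH IA p' p' := by
          have : 0 < ∑ x, ind (IH p' x) := by rw [hP.d1 p']; linarith
          obtain ⟨x, hx⟩ := exists_of_sum_ind_pos this
          exact Or.inl ⟨x, hx, hx⟩
        rw [ind_neg (by simpa using hc), ind_pos rfl, ind_neg (by simp), ind_neg (by simp)]
        norm_num
      · rw [ind_neg h0]
        by_cases ha : ∃ x, IH p x ∧ IH p' x
        · have hb : ¬ ∃ y, IA p y ∧ IA p' y := by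
            rintro ⟨y, h3, h4⟩
            obtain ⟨x, h1, h2⟩ := ha
            exact hP.u12 p' p x y h0 h2 h1 h4 h3
          rw [ind_neg (by
            intro h
            exact h (Or.inl ha)), ind_pos ⟨h0, ha⟩, ind_neg (fun h => hb h.2)]
          norm_num
        · by_cases hb : ∃ y, IA p y ∧ IA p' y
          · rw [ind_neg (by
              intro h
              exact h (Or.inr hb)), ind_neg (fun h => ha h.2), ind_pos ⟨h0, hb⟩]
            norm_num
          · rw [ind_pos (by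
              rintro (h | h)
              · exact ha h
              · exact hb h), ind_neg (fun h => ha h.2), ind_neg (fun h => hb h.2)]
            norm_num
    have h2 : (∑ _p : P, (1 : ℤ)) = _ := Finset.sum_congr rfl fun p' _ => h1 p'
    rw [Finset.sum_add_distrib, Finset.sum_add_distrib, Finset.sum_add_distrib, hcard,
      sum_ind_eq_one, joined hP p, joined hP.symm p] at h2
    have h3 : KK k = (2 * k + 1) ^ 2 + 1 := by linarith
    rw [h3] at h2
    linear_combination -h2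
  · simp_rw [key]
    exact hS1
  · simp_rw [key]
    have h1 : ∀ p', ind (¬ Col IH IA p p') * (∑ l, ∑ l', ff IH p p' l l') ^ 2 =
        ind (¬ Col IH IA p p') * (∑ l, ∑ l', ff IH p p' l l') +
        ind (¬ Col IH IA p p') * ∑ l1, ∑ l2, ind (l1 ≠ l2) *
          ((∑ l', ff IH p p' l1 l') * (∑ l', ff IH p p' l2 l')) := by
      intro p'
      by_cases hW : ¬ Col IH IA p p'
      · rw [ind_pos hW, one_mul, one_mul, one_mul]
        exact square (fun l => ∑ l', ff IH p p' l l') (fun l => row hP hW l)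
      · rw [ind_neg hW]; ring
    rw [Finset.sum_congr rfl fun p' _ => h1 p', Finset.sum_add_distrib, hS1]
    congr 1
    have h8 : ∀ p', ind (¬ Col IH IA p p') * ∑ l1, ∑ l2, ind (l1 ≠ l2) *
        ((∑ l', ff IH p p' l1 l') * (∑ l', ff IH p p' l2 l')) = ∑ l1, ∑ l2,
        ind (¬ Col IH IA p p') * (ind (l1 ≠ l2) *
        ((∑ l', ff IH p p' l1 l') * (∑ l', ff IH p p' l2 l'))) := by
      intro p'
      rw [Finset.mul_sum]
      exact Finset.sum_congr rfl fun _ _ => Finset.mul_sum _ _ _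
    rw [Finset.sum_congr rfl fun p' _ => h8 p', Finset.sum_comm]
    have h2 : ∀ l1, ∑ p', ∑ l2, ind (¬ Col IH IA p p') * (ind (l1 ≠ l2) *
        ((∑ l', ff IH p p' l1 l') * (∑ l', ff IH p p' l2 l'))) =
        ind (IH p l1) * (k * ((KK k - 1) * k * (2 * k ^ 2 - 1))) := by
      intro l1
      rw [Finset.sum_comm]
      by_cases hl1 : IH p l1
      · have h3 : ∀ l2, ∑ p', ind (¬ Col IH IA p p') * (ind (l1 ≠ l2) *
            ((∑ l', ff IH p p' l1 l') * (∑ l', ff IH p p' l2 l'))) =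
            ind (IH p l2 ∧ l2 ≠ l1) * ((KK k - 1) * k * (2 * k ^ 2 - 1)) := by
          intro l2
          by_cases hl2 : IH p l2 ∧ l2 ≠ l1
          · rw [ind_pos hl2, one_mul, ← N1 hP hl1, Finset.sum_mul]
            have hne : l1 ≠ l2 := fun h => hl2.2 h.symm
            have h4 : ∀ p', ind (¬ Col IH IA p p') * (ind (l1 ≠ l2) *
              ((∑ l', ff IH p p' l1 l') * (∑ l', ff IH p p' l2 l'))) =
              ∑ l1', ∑ l2', ind (¬ Col IH IA p p') * (ff IH p p' l1 l1' * ff IH p p' l2 l2') := by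
              intro p'
              rw [ind_pos hne, one_mul, Finset.sum_mul_sum, Finset.mul_sum]
              exact Finset.sum_congr rfl fun _ _ => Finset.mul_sum _ _ _
            rw [Finset.sum_congr rfl fun p' _ => h4 p', Finset.sum_comm]
            refine Finset.sum_congr rfl fun l1' _ => ?_
            rw [Finset.sum_comm]
            by_cases h5 : Mt IH IH l1 l1' ∧ ¬ IH p l1'
            · rw [ind_pos h5, one_mul]
              have h6 : ∀ l2', ∑ p', ind (¬ Col IH IA p p') * (ff IH p p' l1 l1' *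
                  ff IH p p' l2 l2') = ind (Mt IH IH l2' l1' ∧ Mt IH IH l2' l2) -
                    ind (l2' = l1) := by
                intro l2'
                rw [← N3 hP hl1 hl2.1 hne h5.1 h5.2 l2']
                refine Finset.sum_congr rfl fun p' _ => ?_
                congr 1
                unfold ff
                rw [ind_mul_eq]
                exact ind_congr ⟨fun h => ⟨h.1.2.1, h.2.2.1, h.2.2.2⟩,
                  fun h => ⟨⟨hl1, h.1, h5.1⟩, hl2.1, h.2.1, h.2.2⟩⟩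
              rw [Finset.sum_congr rfl fun l2' _ => h6 l2', Finset.sum_sub_distrib,
                sum_ind_eq_one, pr8 l1' l2 (disj hP hl1 hl2.1 hne h5.1 h5.2)]
            · rw [ind_neg h5, zero_mul]
              refine Finset.sum_eq_zero fun l2' _ => Finset.sum_eq_zero fun p' _ => ?_
              by_cases hW : ¬ Col IH IA p p'
              · have : ff IH p p' l1 l1' = 0 := by
                  unfold ff
                  refine ind_neg fun h => h5 ⟨h.2.2, fun hp => ?_⟩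
                  exact hW (Or.inl ⟨l1', hp, h.2.1⟩)
                rw [this]; ring
              · rw [ind_neg hW, zero_mul]
          · rw [ind_neg hl2, zero_mul]
            refine Finset.sum_eq_zero fun p' _ => ?_
            by_cases h5 : l1 ≠ l2
            · have : ∑ l', ff IH p p' l2 l' = 0 := by
                unfold ff
                exact sum_ind_eq_zero _ fun l' h => hl2 ⟨h.1, fun h' => h5 h'.symm⟩
              rw [this]; ring
            · rw [ind_neg h5]; ring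
        rw [Finset.sum_congr rfl fun l2 _ => h3 l2, ← Finset.sum_mul,
          sum_ne (fun l2 => IH p l2) l1 hl1, hP.d1 p, ind_pos hl1]
        ring
      · rw [ind_neg hl1, zero_mul]
        refine Finset.sum_eq_zero fun l2 _ => Finset.sum_eq_zero fun p' _ => ?_
        have : ∑ l', ff IH p p' l1 l' = 0 := by
          unfold ff
          exact sum_ind_eq_zero _ fun l' h => hl1 h.1
        rw [this]; ring
    rw [Finset.sum_congr rfl fun l1 _ => h2 l1, ← Finset.sum_mul, hP.d1 p, hq]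
    ring

end Pool.Agent.Lib.MP0ea612
end

section
/-!
# Module BD: the number of quadrangles which share a hemisystem
-/
set_option autoImplicit false

namespace Pool.Agent.Lib.MP0ea612

namespace BDM

/-- at most one index has the property -/
theorem ind_exists {n : ℕ} (p : Fin n → Prop) (h : ∀ i j, i ≠ j → p i → p j → False) :
    ind (∃ j, p j) = ∑ j, ind (p j) := by
  by_cases hp : ∃ j, p j
  · obtain ⟨j, hj⟩ := hp
    rw [ind_pos ⟨j, hj⟩, sum_ind_of_unique p j hj]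
    intro i hi
    by_contra hij
    exact h i j hij hi hj
  · rw [ind_neg hp, sum_ind_eq_zero]
    intro j hj
    exact hp ⟨j, hj⟩

end BDM

open SAM BDM in
theorem specBD (hSA : SpecSA) (hLA : SpecLA) : SpecBD := by
  intro P H A _ _ _ n B _ IH IA IB k hT hk hP hAB hBB
  obtain ⟨p⟩ := hP.ne
  obtain ⟨s0, s1, s2⟩ := hSA IH IA k hk hP p
  have hq : KK k - 1 = (2 * k + 1) ^ 2 := by unfold KK; ring
  set D : P → Prop := fun p' => ∃ j, p' ≠ p ∧ ∃ X, IB j p X ∧ IB j p' X with hD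
  set a : P → ℤ := fun p' => ∑ l, ∑ l', ind (IH p l ∧ IH p' l' ∧ Mt IH IH l l') with ha
  have hDW : ∀ p', D p' → ¬ Col IH IA p p' := by
    rintro p' ⟨j, hne, X, h1, h2⟩ (⟨x, h3, h4⟩ | ⟨y, h3, h4⟩)
    · exact (hT j).SB.u12 p p' x X hne.symm h3 h4 h1 h2
    · exact hAB j p p' y X hne.symm h3 h4 h1 h2
  have hDa : ∀ p', D p' → a p' = 0 := by
    rintro p' ⟨j, hne, X, h1, h2⟩
    have hla := (hLA IH IA (IB j) k (hT j) X).1
    exact Finset.sum_eq_zero fun l _ => sum_ind_eq_zero _ fun l' h =>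
      hla p p' l l' h1 h2 hne.symm h.1 h.2.1 h.2.2
  have hDc : ∑ p', ind (D p') = n * ((k + 1) * (KK k - 1)) := by
    have h1 : ∀ p', ind (D p') = ∑ j, ind (p' ≠ p ∧ ∃ X, IB j p X ∧ IB j p' X) := by
      intro p'
      refine ind_exists _ ?_
      rintro i j hij ⟨hne, X, h1, h2⟩ ⟨-, Y, h3, h4⟩
      exact hBB i j p p' X Y hij hne.symm h1 h2 h3 h4
    rw [Finset.sum_congr rfl fun p' _ => h1 p', Finset.sum_comm,
      Finset.sum_congr rfl fun j _ => joined (hT j).SB.symm p]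
    simp
  have cs := Finset.sum_mul_sq_le_sq_mul_sq Finset.univ
    (fun p' => ind (¬ Col IH IA p p') - ind (D p')) (fun p' => ind (¬ Col IH IA p p') * a p')
  have e1 : ∑ p', (ind (¬ Col IH IA p p') - ind (D p')) * (ind (¬ Col IH IA p p') * a p') =
      ∑ p', ind (¬ Col IH IA p p') * a p' := by
    refine Finset.sum_congr rfl fun p' _ => ?_
    by_cases hd : D p'
    · rw [hDa p' hd]; ring
    · rw [ind_neg hd, sub_zero, ← mul_assoc, ind_sq]
  have e2 : ∑ p', (ind (¬ Col IH IA p p') - ind (D p')) ^ 2 =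
      (2 * k + 1) ^ 5 - n * ((k + 1) * (KK k - 1)) := by
    rw [← s0, ← hDc, ← Finset.sum_sub_distrib]
    refine Finset.sum_congr rfl fun p' _ => ?_
    by_cases hd : D p'
    · rw [ind_pos hd, ind_pos (hDW p' hd)]; norm_num
    · rw [ind_neg hd, sub_zero, sq, ind_sq]
  have e3 : ∑ p', (ind (¬ Col IH IA p p') * a p') ^ 2 =
      ∑ p', ind (¬ Col IH IA p p') * a p' ^ 2 := by
    refine Finset.sum_congr rfl fun p' _ => ?_
    rw [mul_pow, sq (ind _), ind_sq]
  rw [e1, e2, e3] at cs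
  have s1' : ∑ p', ind (¬ Col IH IA p p') * a p' = k * (k + 1) * (2 * k + 1) ^ 4 := s1
  have s2' : ∑ p', ind (¬ Col IH IA p p') * a p' ^ 2 = k * (k + 1) * (2 * k + 1) ^ 4 +
      k ^ 2 * (k + 1) * (2 * k + 1) ^ 2 * (2 * k ^ 2 - 1) := s2
  rw [s1', s2', hq] at cs
  unfold hh
  have hpos : 0 < k * (k + 1) ^ 3 * (2 * k + 1) ^ 4 := by positivity
  have h5 : 0 ≤ (k * (k + 1) ^ 3 * (2 * k + 1) ^ 4) *
      ((2 * k + 1) ^ 3 - n * (2 * k ^ 2 + 2 * k + 1)) := by
    nlinarith [cs]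
  have h6 := nonneg_of_mul_nonneg_right h5 hpos
  linarith

end Pool.Agent.Lib.MP0ea612
end

section
/-!
# Hemisystem graphs, module FT: lines through a point of a line with two points on `X`
-/
set_option autoImplicit false

namespace Pool.Agent.Lib.MP0ea612

namespace FTM

theorem two_of_sum {α : Type} [Fintype α] {p : α → Prop} (h : 2 ≤ ∑ a, ind (p a)) :
    ∃ a b, a ≠ b ∧ p a ∧ p b := by
  obtain ⟨a, ha⟩ := exists_of_sum_ind_pos (p := p) (by linarith)
  by_contra hcon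
  have h1 : ∑ b, ind (p b) = 1 := sum_ind_of_unique p a ha fun b hb => by
    by_contra hne
    exact hcon ⟨b, a, hne, hb, ha⟩
  linarith

theorem sum_ind_split {α : Type} [Fintype α] (p r : α → Prop) :
    ∑ a, ind (p a) = ∑ a, ind (p a ∧ r a) + ∑ a, ind (p a ∧ ¬ r a) := by
  rw [← Finset.sum_add_distrib]
  refine Finset.sum_congr rfl fun a _ => ?_
  rw [ind_and, ind_and, ind_not]
  ring

/-- exactly one line on `p` meets the line `x`, `p ∉ x` -/
theorem proj1 {P L1 L2 : Type} [Fintype P] [Fintype L1] [Fintype L2]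
    {I1 : P → L1 → Prop} {I2 : P → L2 → Prop} {k : ℤ} (h : Pair I1 I2 k) (p : P) (x : L1)
    (hp : ¬ I1 p x) :
    ∑ x', ind (I1 p x' ∧ Mt I1 I1 x' x) + ∑ y, ind (I2 p y ∧ Mt I1 I2 x y) = 1 := by
  obtain ⟨p', h1, h2⟩ := h.e1 p x hp
  have hne : p ≠ p' := fun h' => hp (h' ▸ h1)
  rcases h2 with ⟨x0, h3, h4⟩ | ⟨y0, h3, h4⟩
  · have e1 : ∑ x', ind (I1 p x' ∧ Mt I1 I1 x' x) = 1 := by
      refine sum_ind_of_unique _ x0 ⟨h3, p', h4, h1⟩ ?_
      rintro x' ⟨h5, p'', h6, h7⟩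
      have h8 := h.e1' p x p' p'' hp h1 (Or.inl ⟨x0, h3, h4⟩) h7 (Or.inl ⟨x', h5, h6⟩)
      subst h8
      exact h.u11 p p' x' x0 hne h5 h6 h3 h4
    have e2 : ∑ y, ind (I2 p y ∧ Mt I1 I2 x y) = 0 := by
      refine sum_ind_eq_zero _ ?_
      rintro y ⟨h5, p'', h6, h7⟩
      have h8 := h.e1' p x p' p'' hp h1 (Or.inl ⟨x0, h3, h4⟩) h6 (Or.inr ⟨y, h5, h7⟩)
      subst h8
      exact h.u12 p p' x0 y hne h3 h4 h5 h7
    rw [e1, e2, add_zero]
  · have e1 : ∑ x', ind (I1 p x' ∧ Mt I1 I1 x' x) = 0 := by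
      refine sum_ind_eq_zero _ ?_
      rintro x' ⟨h5, p'', h6, h7⟩
      have h8 := h.e1' p x p' p'' hp h1 (Or.inr ⟨y0, h3, h4⟩) h7 (Or.inl ⟨x', h5, h6⟩)
      subst h8
      exact h.u12 p p' x' y0 hne h5 h6 h3 h4
    have e2 : ∑ y, ind (I2 p y ∧ Mt I1 I2 x y) = 1 := by
      refine sum_ind_of_unique _ y0 ⟨h3, p', h1, h4⟩ ?_
      rintro y ⟨h5, p'', h6, h7⟩
      have h8 := h.e1' p x p' p'' hp h1 (Or.inr ⟨y0, h3, h4⟩) h6 (Or.inr ⟨y, h5, h7⟩)
      subst h8
      exact h.u22 p p' y y0 hne h5 h7 h3 h4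
    rw [e1, e2, zero_add]

/-- an injective relation between two finite sets of the same size is surjective -/
theorem surj_of_inj {α β : Type} [Fintype α] [Fintype β] (p : α → Prop) (q : β → Prop)
    (r : α → β → Prop) (hcard : ∑ b, ind (q b) = ∑ a, ind (p a))
    (hex : ∀ a, p a → ∃ b, q b ∧ r a b)
    (hinj : ∀ a a' b, p a → p a' → q b → r a b → r a' b → a = a') :
    ∀ b, q b → ∃ a, p a ∧ r a b := by
  classical
  rw [sum_ind_eq_card, sum_ind_eq_card, Nat.cast_inj] at hcard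
  intro b hb
  have key := Finset.surj_on_of_inj_on_of_card_le
    (s := Finset.univ.filter p) (t := Finset.univ.filter q)
    (fun a ha => (hex a (Finset.mem_filter.1 ha).2).choose)
    (fun a ha => Finset.mem_filter.2 ⟨Finset.mem_univ _,
      (hex a (Finset.mem_filter.1 ha).2).choose_spec.1⟩)
    (fun a a' ha ha' h => by
      have h1 := (hex a (Finset.mem_filter.1 ha).2).choose_spec
      have h2 := (hex a' (Finset.mem_filter.1 ha').2).choose_spec
      refine hinj a a' _ (Finset.mem_filter.1 ha).2 (Finset.mem_filter.1 ha').2 h1.1 h1.2 ?_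
      rw [h]
      exact h2.2)
    hcard.le b (Finset.mem_filter.2 ⟨Finset.mem_univ _, hb⟩)
  obtain ⟨a, ha, hab⟩ := key
  refine ⟨a, (Finset.mem_filter.1 ha).2, ?_⟩
  rw [hab]
  exact (hex a (Finset.mem_filter.1 ha).2).choose_spec.2

end FTM

open FTM

/-- FT -/
theorem specFT (hLA : SpecLA) (hPR : SpecPR) : SpecFT := by
  intro P H A B _ _ _ _ IH IA IB k h X m1 hm1 b hb hbX
  obtain ⟨la0, la1, la2, -, -, -⟩ := hLA IH IA IB k h X
  obtain ⟨-, -, -, pr4, -⟩ := hPR IH IB k h.hk h.SB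
  have pr1 := (hPR IB IH k h.hk h.SB.symm).1 X
  obtain ⟨p, p', hpp, ⟨hpX, hpm⟩, ⟨hp'X, hp'm⟩⟩ := two_of_sum hm1
  have A2 : ∀ q, IB q X → ¬ IA q m1 → ∃ l b', IH q l ∧ IH b' l ∧ IA b' m1 ∧ ¬ IB b' X :=
    fun q hq hqm => la2 m1 p p' q hpp hpX hpm hp'X hp'm hq hqm
  -- (2)
  have hg : ∑ l, ind (IH b l ∧ Mt IH IB l X) = 1 := by
    have hs := surj_of_inj (fun q => IB q X ∧ ¬ IA q m1) (fun b => IA b m1 ∧ ¬ IB b X)
      (fun q b => ∃ l, IH q l ∧ IH b l) (by
        have e1 := sum_ind_split (fun q => IB q X) (fun q => IA q m1)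
        have e2 := sum_ind_split (fun q => IA q m1) (fun q => IB q X)
        have e3 : ∑ q, ind (IB q X ∧ IA q m1) = ∑ q, ind (IA q m1 ∧ IB q X) :=
          Finset.sum_congr rfl fun q _ => ind_congr and_comm
        have e4 := h.SB.c2 X
        have e5 := h.SA.c2 m1
        linarith) (by
        rintro q ⟨hq, hqm⟩
        obtain ⟨l, b', h1, h2, h3, h4⟩ := A2 q hq hqm
        exact ⟨b', ⟨h3, h4⟩, l, h1, h2⟩) (by
        rintro q q' b' ⟨hq, -⟩ ⟨hq', -⟩ - ⟨l, h1, h2⟩ ⟨l', h3, h4⟩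
        by_contra hne
        exact la0 q q' l l' hq hq' hne h1 h3 ⟨b', h2, h4⟩)
    obtain ⟨q, ⟨hq, hqm⟩, l, hql, hbl⟩ := hs b ⟨hb, hbX⟩
    refine sum_ind_of_unique _ l ⟨hbl, q, hql, hq⟩ ?_
    rintro l' ⟨hbl', q', hql', hq'⟩
    by_cases hqq : q = q'
    · subst hqq
      have hbq : b ≠ q := fun h' => hbX (h' ▸ hq)
      exact h.SB.u11 b q l' l hbq hbl' hql' hbl hql
    · exact absurd ⟨b, hbl, hbl'⟩ (la0 q q' l l' hq hq' hqq hql hql')
  refine ⟨?_, ?_⟩
  · -- (1)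
    intro m hbm hne
    refine sum_ind_eq_zero _ ?_
    rintro q ⟨hqX, hqm⟩
    have hqb : q ≠ b := fun h' => hbX (h' ▸ hqX)
    have hq1 : ¬ IA q m1 := fun h' => hne (h.SA.u22 q b m m1 hqb hqm hbm h' hb)
    obtain ⟨l, b', h1, h2, h3, -⟩ := A2 q hqX hq1
    have h4 := h.SA.e2' q m1 b b' hq1 hb (Or.inr ⟨m, hqm, hbm⟩) h3 (Or.inl ⟨l, h1, h2⟩)
    subst h4
    exact h.SA.u12 q b l m hqb h1 h2 hqm hbm
  · -- (3)
    have s1 : ∑ m, ind (IA b m) * cc IH IA IB X m =
        ∑ l, ind (Mt IH IB l X) * ∑ m, ind (IA b m ∧ Mt IH IA l m) := by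
      have : ∀ m, ind (IA b m) * cc IH IA IB X m =
          ∑ l, ind (Mt IH IB l X) * ind (IA b m ∧ Mt IH IA l m) := by
        intro m
        rw [cc, Finset.mul_sum]
        refine Finset.sum_congr rfl fun l _ => ?_
        rw [ind_and, ind_and]
        ring
      rw [Finset.sum_congr rfl fun m _ => this m, Finset.sum_comm]
      exact Finset.sum_congr rfl fun l _ => (Finset.mul_sum _ _ _).symm
    have s2 : ∀ l, ∑ m, ind (IA b m ∧ Mt IH IA l m) = ind (IH b l) * (k + 1) +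
        ind (¬ IH b l) * (1 - ∑ l0, ind (IH b l0 ∧ Mt IH IH l0 l)) := by
      intro l
      by_cases hl : IH b l
      · rw [ind_pos hl, ind_neg (not_not.2 hl), zero_mul, add_zero, one_mul, ← h.SA.d2 b]
        exact Finset.sum_congr rfl fun m _ => ind_congr ⟨fun h' => h'.1, fun h' => ⟨h', b, hl, h'⟩⟩
      · rw [ind_neg hl, ind_pos hl, zero_mul, zero_add, one_mul]
        have := proj1 h.SA b l hl
        linarith
    have s3 : ∑ l, ind (Mt IH IB l X) * (ind (IH b l) * (k + 1) +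
        ind (¬ IH b l) * (1 - ∑ l0, ind (IH b l0 ∧ Mt IH IH l0 l))) =
        (∑ l, ind (IH b l ∧ Mt IH IB l X)) * (k + 1) +
        (∑ l, ind (Mt IH IB l X) - ∑ l, ind (IH b l ∧ Mt IH IB l X)) -
        ∑ l0, ind (IH b l0) * ∑ l, ind (Mt IH IB l X ∧ ¬ IH b l ∧ Mt IH IH l0 l) := by
      have s4 : ∑ l0, ind (IH b l0) * ∑ l, ind (Mt IH IB l X ∧ ¬ IH b l ∧ Mt IH IH l0 l) =
          ∑ l, ind (Mt IH IB l X) * ind (¬ IH b l) * ∑ l0, ind (IH b l0 ∧ Mt IH IH l0 l) := by
        simp_rw [Finset.mul_sum]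
        rw [Finset.sum_comm]
        refine Finset.sum_congr rfl fun l _ => Finset.sum_congr rfl fun l0 _ => ?_
        rw [ind_and, ind_and, ind_and]
        ring
      rw [s4, Finset.sum_mul, ← Finset.sum_sub_distrib, ← Finset.sum_add_distrib,
        ← Finset.sum_sub_distrib]
      refine Finset.sum_congr rfl fun l _ => ?_
      rw [ind_and, ind_not]
      ring
    have s5 : ∀ l0, ind (IH b l0) * ∑ l, ind (Mt IH IB l X ∧ ¬ IH b l ∧ Mt IH IH l0 l) =
        ind (IH b l0 ∧ Mt IH IB l0 X) * k +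
          (ind (IH b l0) - ind (IH b l0 ∧ Mt IH IB l0 X)) * (hh k - 1) := by
      intro l0
      by_cases hl0 : IH b l0
      · by_cases hl0X : Mt IH IB l0 X
        · rw [ind_pos hl0, ind_pos (⟨hl0, hl0X⟩ : IH b l0 ∧ Mt IH IB l0 X)]
          obtain ⟨q, hq0, hqX⟩ := hl0X
          have hqb : b ≠ q := fun h' => hbX (h' ▸ hqX)
          have e1 : ∑ l, ind (Mt IH IB l X ∧ ¬ IH b l ∧ Mt IH IH l0 l) =
              ∑ l, ind (IH q l ∧ ¬ l = l0) := by
            refine Finset.sum_congr rfl fun l _ => ind_congr ⟨?_, ?_⟩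
            · rintro ⟨⟨q', h1, h2⟩, h3, h4⟩
              have hqq : q = q' := by
                by_contra hne
                exact la0 q q' l0 l hqX h2 hne hq0 h1 h4
              subst hqq
              exact ⟨h1, fun h' => h3 (h' ▸ hl0)⟩
            · rintro ⟨h1, h2⟩
              exact ⟨⟨q, h1, hqX⟩, fun h' => h2 (h.SB.u11 b q l l0 hqb h' h1 hl0 hq0), q, hq0, h1⟩
          have e2 := sum_ind_split (fun l => IH q l) (fun l => l = l0)
          have e3 : ∑ l, ind (IH q l ∧ l = l0) = 1 :=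
            sum_ind_of_unique _ l0 ⟨hq0, rfl⟩ fun l hl => hl.2
          have e4 := h.SB.d1 q
          rw [e1]
          linarith
        · rw [ind_pos hl0, ind_neg (fun h' => hl0X h'.2 : ¬ (IH b l0 ∧ Mt IH IB l0 X))]
          have e1 := pr4 l0 X hl0X
          have e2 := sum_ind_split (fun l => Mt IH IH l l0 ∧ Mt IH IB l X) (fun l => IH b l)
          have e3 : ∑ l, ind ((Mt IH IH l l0 ∧ Mt IH IB l X) ∧ IH b l) =
              ∑ l, ind (IH b l ∧ Mt IH IB l X) :=
            Finset.sum_congr rfl fun l _ => ind_congr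
              ⟨fun h' => ⟨h'.2, h'.1.2⟩, fun h' => ⟨⟨⟨b, h'.1, hl0⟩, h'.2⟩, h'.1⟩⟩
          have e4 : ∑ l, ind ((Mt IH IH l l0 ∧ Mt IH IB l X) ∧ ¬ IH b l) =
              ∑ l, ind (Mt IH IB l X ∧ ¬ IH b l ∧ Mt IH IH l0 l) :=
            Finset.sum_congr rfl fun l _ => ind_congr
              ⟨fun h' => ⟨h'.1.2, h'.2, h'.1.1.imp fun _ h'' => h''.symm⟩,
                fun h' => ⟨⟨h'.2.2.imp fun _ h'' => h''.symm, h'.1⟩, h'.2.1⟩⟩
          rw [e1, e3, e4, hg] at e2
          linarith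
      · rw [ind_neg hl0, ind_neg (fun h' => hl0 h'.1 : ¬ (IH b l0 ∧ Mt IH IB l0 X))]
        ring
    have s6 : ∑ l, ind (Mt IH IB l X) = KK k * (k + 1) := by
      rw [← pr1]
      exact Finset.sum_congr rfl fun l _ => ind_congr
        ⟨fun h' => h'.imp fun _ h'' => h''.symm, fun h' => h'.imp fun _ h'' => h''.symm⟩
    rw [s1, Finset.sum_congr rfl fun l _ => by rw [s2 l], s3, s6, hg,
      Finset.sum_congr rfl fun l0 _ => s5 l0, Finset.sum_add_distrib, ← Finset.sum_mul,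
      ← Finset.sum_mul, Finset.sum_sub_distrib, hg, h.SB.d1 b]
    unfold KK hh
    ring

end Pool.Agent.Lib.MP0ea612
end

section
/-!
# Two quadrangles which share a hemisystem: local structure at a `B`-line
-/
set_option autoImplicit false

namespace Pool.Agent.Lib.MP0ea612

namespace LAM

variable {P H A B : Type} [Fintype P] [Fintype H] [Fintype A] [Fintype B]
  {IH : P → H → Prop} {IA : P → A → Prop} {IB : P → B → Prop} {k : ℤ}

/-- (0) `H`-lines on different points of `X` do not meet -/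
theorem la0 (h : Two IH IA IB k) (X : B) (p p' : P) (l l' : H) (hp : IB p X) (hp' : IB p' X)
    (hne : p ≠ p') (hl : IH p l) (hl' : IH p' l') : ¬ Mt IH IH l l' := by
  rintro ⟨a, ha, ha'⟩
  by_cases haX : IB a X
  · have h1 : a = p := by
      by_contra hap
      exact h.SB.u12 a p l X hap ha hl haX hp
    have h2 : a = p' := by
      by_contra hap
      exact h.SB.u12 a p' l' X hap ha' hl' haX hp'
    exact hne (h1.symm.trans h2)
  · exact hne (h.SB.e2' a X p p' haX hp (Or.inl ⟨l, ha, hl⟩) hp' (Or.inl ⟨l', ha', hl'⟩))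

/-- (1) -/
theorem la1 (h : Two IH IA IB k) (X : B) (p p' a : P) (m m' : A) (hp : IB p X) (hp' : IB p' X)
    (hne : p ≠ p') (hap : a ≠ p) (hap' : a ≠ p') (hpm : IA p m) (ham : IA a m) (hpm' : IA p' m')
    (ham' : IA a m') : m = m' := by
  by_contra hmm
  have hpn : ¬ IA p m' := fun hc => hmm (h.SA.u22 p a m m' (fun e => hap e.symm) hpm ham hc ham')
  have hu : ∀ x, IA x m' → Col IH IA p x → x = a := fun x hx hc =>
    h.SA.e2' p m' x a hpn hx hc ham' (Or.inr ⟨m, hpm, ham⟩)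
  have hcol : ¬ Col IH IA p p' := fun hc => hap' (hu p' hpm' hc).symm
  have hs := FTM.surj_of_inj (fun l => IH p l) (fun n => IA p' n)
    (fun l n => ∃ b, IH b l ∧ IA b n) (by rw [h.SA.d2, h.SA.d1]) (by
      intro l hl
      obtain ⟨b, hb, hc⟩ := h.SA.e1 p' l fun hc => hcol (Or.inl ⟨l, hl, hc⟩)
      rcases hc with ⟨x, hx1, hx2⟩ | ⟨n, hn1, hn2⟩
      · exact absurd ⟨b, hb, hx2⟩ (la0 h X p p' l x hp hp' hne hl hx1)
      · exact ⟨n, hn1, b, hb, hn2⟩) (by
      rintro l1 l2 n h1 h2 hn ⟨b1, hb1, hb1n⟩ ⟨b2, hb2, hb2n⟩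
      have hpn' : ¬ IA p n := fun hc => hcol (Or.inr ⟨n, hc, hn⟩)
      have hbb : b1 = b2 := h.SA.e2' p n b1 b2 hpn' hb1n (Or.inl ⟨l1, h1, hb1⟩) hb2n
        (Or.inl ⟨l2, h2, hb2⟩)
      subst hbb
      have hpb : p ≠ b1 := fun e => hpn' (e ▸ hb1n)
      exact h.SA.u11 p b1 l1 l2 hpb h1 hb1 h2 hb2)
  obtain ⟨l, hl, b, hb, hbm'⟩ := hs m' hpm'
  have hba : b = a := hu b hbm' (Or.inl ⟨l, hl, hb⟩)
  subst hba
  exact h.SA.u12 p b l m (fun e => hap e.symm) hl hb hpm ham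

/-- (2) -/
theorem la2 (h : Two IH IA IB k) (X : B) (m : A) (p p' q : P) (hne : p ≠ p') (hp : IB p X)
    (hpm : IA p m) (hp' : IB p' X) (hpm' : IA p' m) (hq : IB q X) (hqm : ¬ IA q m) :
    ∃ l b, IH q l ∧ IH b l ∧ IA b m ∧ ¬ IB b X := by
  obtain ⟨b, hb, hc⟩ := h.SA.e2 q m hqm
  have hbq : b ≠ q := fun e => hqm (e ▸ hb)
  rcases hc with ⟨n, hn1, hn2⟩ | ⟨n, hn1, hn2⟩
  · exact ⟨n, b, hn1, hn2, hb, fun hbX => h.SB.u12 q b n X (fun e => hbq e.symm) hn1 hn2 hq hbX⟩
  · exfalso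
    have key : ∀ r, IB r X → IA r m → b ≠ r → False := fun r hr hrm hbr => by
      have hrq : r ≠ q := fun e => hqm (e ▸ hrm)
      have e := la1 h X r q b m n hr hq hrq hbr hbq hrm hb hn1 hn2
      exact hqm (e ▸ hn1)
    by_cases hbp : b = p
    · exact key p' hp' hpm' fun e => hne (hbp ▸ e)
    · exact key p hp hpm hbp

/-- (3a) -/
theorem la3a (h : Two IH IA IB k) (X : B) (m : A) (p q : P) (hp : IB p X) (hpm : IA p m)
    (hu : ∀ p', IB p' X → IA p' m → p' = p) (hq : IB q X) (hqp : q ≠ p)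
    (hno : ¬ ∃ m1, IA p m1 ∧ IA q m1) : ∃ l, IH q l ∧ Mt IH IA l m := by
  have hqm : ¬ IA q m := fun hc => hqp (hu q hq hc)
  obtain ⟨b, hb, hc⟩ := h.SA.e2 q m hqm
  have hbq : b ≠ q := fun e => hqm (e ▸ hb)
  rcases hc with ⟨n, hn1, hn2⟩ | ⟨n, hn1, hn2⟩
  · exact ⟨n, hn1, b, hn2, hb⟩
  · exfalso
    have hbp : b ≠ p := by
      rintro rfl
      exact hno ⟨n, hn2, hn1⟩
    have e := la1 h X p q b m n hp hq hqp.symm hbp hbq hpm hb hn1 hn2
    exact hqm (e ▸ hn1)

/-- (3b) -/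
theorem la3b (h : Two IH IA IB k) (X : B) (m : A) (p q : P) (m1 : A) (hp : IB p X) (hpm : IA p m)
    (hq : IB q X) (hqm : ¬ IA q m) (h1 : IA p m1) (h2 : IA q m1) :
    ¬ ∃ l, IH q l ∧ Mt IH IA l m := by
  rintro ⟨l, hl, b, hbl, hbm⟩
  have e : p = b := h.SA.e2' q m p b hqm hpm (Or.inr ⟨m1, h2, h1⟩) hbm (Or.inl ⟨l, hl, hbl⟩)
  subst e
  exact h.SB.u12 p q l X (fun e => hqm (e ▸ hpm)) hbl hl hp hq

/-- (4) -/
theorem la4 (h : Two IH IA IB k) (X : B) (m m' : A) (p p' p'' : P) (hne : p ≠ p') (hp : IB p X)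
    (hpm : IA p m) (hp' : IB p' X) (hpm' : IA p' m) (hne' : p ≠ p'') (h1 : IA p m')
    (hp'' : IB p'' X) (h2 : IA p'' m') : m = m' := by
  by_contra hmm
  have hn : ¬ IA p'' m := fun hc => hmm (h.SA.u22 p p'' m m' hne' hpm hc h1 h2)
  obtain ⟨l, b, hl, hbl, hbm, hbX⟩ := la2 h X m p p' p'' hne hp hpm hp' hpm' hp'' hn
  have e : p = b := h.SA.e2' p'' m p b hn hpm (Or.inr ⟨m', h2, h1⟩) hbm (Or.inl ⟨l, hl, hbl⟩)
  exact hbX (e ▸ hp)

end LAM

theorem specLA : SpecLA := by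
  intro P H A B _ _ _ _ IH IA IB k h X
  exact ⟨LAM.la0 h X, LAM.la1 h X, LAM.la2 h X, LAM.la3a h X, LAM.la3b h X, LAM.la4 h X⟩

end Pool.Agent.Lib.MP0ea612
end

section
/-!
# Hemisystems: first counts
-/
set_option autoImplicit false

namespace Pool.Agent.Lib.MP0ea612

namespace HDM

open ADJM

variable {P L : Type} {I : P → L → Prop} [Fintype P] [Fintype L] {k : ℤ}

theorem card_points (hk : 1 ≤ k) (hq : GQ I k) :
    (∑ _p : P, (1 : ℤ)) = KK k * ((2 * k + 1) ^ 3 + 1) := by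
  have h1 : (∑ _p : P, (1 : ℤ)) * (2 * k + 2) = KK k * ((2 * k + 1) ^ 3 + 1) * (2 * k + 2) := by
    calc (∑ _p : P, (1 : ℤ)) * (2 * k + 2) = ∑ p : P, ∑ x, ind (I p x) := by
          rw [Finset.sum_mul]
          exact Finset.sum_congr rfl fun p _ => by rw [hq.d p, one_mul]
      _ = ∑ x : L, ∑ p, ind (I p x) := Finset.sum_comm
      _ = ∑ _x : L, KK k := Finset.sum_congr rfl fun x _ => hq.c x
      _ = (∑ _x : L, (1 : ℤ)) * KK k := by
          rw [Finset.sum_mul]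
          exact Finset.sum_congr rfl fun x _ => (one_mul _).symm
      _ = _ := by rw [line_count hq hk]; ring
  exact mul_right_cancel₀ (show (2 * k + 2) ≠ 0 by omega) h1

theorem card_hemi (hk : 1 ≤ k) (hq : GQ I k) (h : L → Prop)
    (hh' : ∀ p, ∑ x, ind (I p x ∧ h x) = k + 1) :
    ∑ x, ind (h x) = (k + 1) * ((2 * k + 1) ^ 3 + 1) := by
  have hK : KK k ≠ 0 := by
    unfold KK
    nlinarith
  have h1 : (∑ x, ind (h x)) * KK k = (k + 1) * ((2 * k + 1) ^ 3 + 1) * KK k := by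
    calc (∑ x, ind (h x)) * KK k = ∑ x : L, ∑ p, ind (I p x ∧ h x) := by
          rw [Finset.sum_mul]
          refine Finset.sum_congr rfl fun x _ => ?_
          rw [← hq.c x, Finset.mul_sum]
          exact Finset.sum_congr rfl fun p _ => by rw [ind_and, mul_comm]
      _ = ∑ p : P, ∑ x, ind (I p x ∧ h x) := Finset.sum_comm
      _ = ∑ _p : P, (k + 1) := Finset.sum_congr rfl fun p _ => hh' p
      _ = (∑ _p : P, (1 : ℤ)) * (k + 1) := by
          rw [Finset.sum_mul]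
          exact Finset.sum_congr rfl fun p _ => (one_mul _).symm
      _ = _ := by rw [card_points hk hq]; ring
  exact mul_right_cancel₀ hK h1

end HDM

theorem specHD : SpecHD := by
  intro P L _ _ I k hk hq h hh'
  refine ⟨fun x => ?_, HDM.card_hemi hk hq h hh'⟩
  rw [ADJM.sum_adj hq x h, ADJM.sum_const_mul _ _ (k + 1 - ind (h x)), hq.c]
  intro p hp
  rw [ADJM.sum_ne (fun y => h y ∧ I p y) x]
  have h1 : ∑ y, ind (h y ∧ I p y) = k + 1 := by
    rw [← hh' p]
    exact Finset.sum_congr rfl fun y _ => ind_congr and_comm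
  rw [h1, ind_and, ind_pos hp, mul_one]

end Pool.Agent.Lib.MP0ea612
end

section
/-!
# Transversals of three lines
-/
set_option autoImplicit false

namespace Pool.Agent.Lib.MP0ea612

namespace TRIM

open ADJM

variable {P L : Type} {I : P → L → Prop} [Fintype P] [Fintype L] {k : ℤ}

/-- the number of lines adjacent to `x1`, `x2` and `m` -/
noncomputable def ff (I : P → L → Prop) (x1 x2 m : L) : ℤ :=
  ∑ z, ind ((Adj I z x1 ∧ Adj I z x2) ∧ Adj I z m)

omit [Fintype P] [Fintype L] in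
/-- the line classes with respect to two lines -/
theorem parts {x1 x2 : L} (hne : x1 ≠ x2) (hna : ¬ Adj I x1 x2) (m : L) :
    ind (m = x1) + ind (m = x2) + ind (Adj I m x1 ∧ Adj I m x2) + ind (Adj I m x1 ∧ ¬ Adj I m x2) +
      ind (Adj I m x2 ∧ ¬ Adj I m x1) +
      ind (m ≠ x1 ∧ m ≠ x2 ∧ ¬ Adj I m x1 ∧ ¬ Adj I m x2) = 1 := by
  have hself : ∀ x, ¬ Adj I x x := fun x h => h.1 rfl
  have hna' : ¬ Adj I x2 x1 := fun h => hna (Adj.symm' h)
  by_cases h1 : m = x1
  · subst h1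
    rw [ind_pos rfl, ind_neg hne, ind_neg (fun h => hself _ h.1), ind_neg (fun h => hself _ h.1),
      ind_neg (fun h => hna h.1), ind_neg (fun h => h.1 rfl)]
    norm_num
  · by_cases h2 : m = x2
    · subst h2
      rw [ind_neg h1, ind_pos rfl, ind_neg (fun h => hself _ h.2), ind_neg (fun h => hna' h.1),
        ind_neg (fun h => hself _ h.1), ind_neg (fun h => h.2.1 rfl)]
      norm_num
    · rw [ind_neg h1, ind_neg h2]
      by_cases h3 : Adj I m x1 <;> by_cases h4 : Adj I m x2 <;>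
        simp [ind, h1, h2, h3, h4]

theorem sum_parts {x1 x2 : L} (hne : x1 ≠ x2) (hna : ¬ Adj I x1 x2) (g : L → ℤ) :
    ∑ m, g m = g x1 + g x2 + ∑ m, ind (Adj I m x1 ∧ Adj I m x2) * g m +
      ∑ m, ind (Adj I m x1 ∧ ¬ Adj I m x2) * g m + ∑ m, ind (Adj I m x2 ∧ ¬ Adj I m x1) * g m +
      ∑ m, ind (m ≠ x1 ∧ m ≠ x2 ∧ ¬ Adj I m x1 ∧ ¬ Adj I m x2) * g m := by
  classical
  have e : ∀ x : L, g x = ∑ m, ind (m = x) * g m := by
    intro x
    rw [Finset.sum_eq_single x (fun b _ hb => by rw [ind_neg hb, zero_mul])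
      (fun h => absurd (Finset.mem_univ x) h), ind_pos rfl, one_mul]
  rw [e x1, e x2, ← Finset.sum_add_distrib, ← Finset.sum_add_distrib, ← Finset.sum_add_distrib,
    ← Finset.sum_add_distrib, ← Finset.sum_add_distrib]
  refine Finset.sum_congr rfl fun m _ => ?_
  rw [← add_mul, ← add_mul, ← add_mul, ← add_mul, ← add_mul, parts hne hna m, one_mul]

variable {x1 x2 : L}

theorem T_nonadj (h : GQ I k) (hne : x1 ≠ x2) (hna : ¬ Adj I x1 x2) {t t' : L}
    (ht : Adj I t x1 ∧ Adj I t x2) (ht' : Adj I t' x1 ∧ Adj I t' x2) : ¬ Adj I t t' := by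
  intro hadj
  obtain ⟨p, h1, h2, h3⟩ := triangle h hadj ht'.1 ht.1
  obtain ⟨p', h4, h5, h6⟩ := triangle h hadj ht'.2 ht.2
  have : p' = p := point_unique h hadj.1 h1 h2 h4 h5
  subst this
  exact hna ⟨hne, p', h3, h6⟩

theorem ff_T (h : GQ I k) (hne : x1 ≠ x2) (hna : ¬ Adj I x1 x2) {m : L}
    (hm : Adj I m x1 ∧ Adj I m x2) : ff I x1 x2 m = 0 :=
  sum_ind_eq_zero _ fun _ hz => T_nonadj h hne hna hz.1 hm hz.2

theorem ff_left (h : GQ I k) (hne : x1 ≠ x2) (hna : ¬ Adj I x1 x2) : ff I x1 x2 x1 = KK k := by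
  rw [← adj_nonadj h hne hna]
  exact Finset.sum_congr rfl fun z _ => ind_congr (by tauto)

theorem ff_right (h : GQ I k) (hne : x1 ≠ x2) (hna : ¬ Adj I x1 x2) : ff I x1 x2 x2 = KK k := by
  rw [← adj_nonadj h hne hna]
  exact Finset.sum_congr rfl fun z _ => ind_congr (by tauto)

/-- lines which meet `x1` and not `x2` -/
theorem ff_one (h : GQ I k) (hne : x1 ≠ x2) (hna : ¬ Adj I x1 x2) {m : L}
    (hm : Adj I m x1 ∧ ¬ Adj I m x2) : ff I x1 x2 m = 1 := by
  obtain ⟨⟨hmx, a, ha1, ha2⟩, hm2⟩ := hm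
  obtain ⟨t, ⟨ht1, ht2, ht3⟩, hu⟩ := transversal h hne hna ha2
  have htm : t ≠ m := by
    rintro rfl
    exact hm2 ht2
  refine sum_ind_of_unique _ t ⟨⟨ht1, ht2⟩, htm, a, ht3, ha1⟩ fun z hz => ?_
  refine hu z ⟨hz.1.1, hz.1.2, ?_⟩
  exact triangle_at h (x := m) (y := x1) ⟨hmx, a, ha1, ha2⟩ (Adj.symm' hz.1.1) (Adj.symm' hz.2)
    ha1 ha2

omit [Fintype P] in
theorem ff_comm (m : L) : ff I x2 x1 m = ff I x1 x2 m :=
  Finset.sum_congr rfl fun z _ => ind_congr (by tauto)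

theorem ff_one' (h : GQ I k) (hne : x1 ≠ x2) (hna : ¬ Adj I x1 x2) {m : L}
    (hm : Adj I m x2 ∧ ¬ Adj I m x1) : ff I x1 x2 m = 1 := by
  rw [← ff_comm]
  exact ff_one h hne.symm (fun h' => hna (Adj.symm' h')) hm

theorem card_one (h : GQ I k) (hne : x1 ≠ x2) (hna : ¬ Adj I x1 x2) :
    ∑ m, ind (Adj I m x1 ∧ ¬ Adj I m x2) = KK k * (2 * k + 1) - KK k := by
  have h1 := sum_split (fun m => Adj I m x1) (fun m => Adj I m x2)
  rw [adj_nonadj h hne hna] at h1
  have h2 : ∑ m, ind (Adj I m x1) = KK k * (2 * k + 1) := by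
    rw [← adj_count h x1]
    exact Finset.sum_congr rfl fun m _ => ind_congr adj_comm
  rw [h2] at h1
  linarith

theorem sum_ff (h : GQ I k) (hne : x1 ≠ x2) (hna : ¬ Adj I x1 x2) :
    ∑ m, ff I x1 x2 m = KK k * (KK k * (2 * k + 1)) := by
  unfold ff
  rw [Finset.sum_comm]
  have h1 : ∀ z, ∑ m, ind ((Adj I z x1 ∧ Adj I z x2) ∧ Adj I z m) =
      ind (Adj I z x1 ∧ Adj I z x2) * (KK k * (2 * k + 1)) := by
    intro z
    rw [← adj_count h z, Finset.mul_sum]
    exact Finset.sum_congr rfl fun m _ => ind_and _ _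
  rw [Finset.sum_congr rfl fun z _ => h1 z, ← Finset.sum_mul, adj_nonadj h hne hna]

theorem sum_ff_sq (h : GQ I k) (hne : x1 ≠ x2) (hna : ¬ Adj I x1 x2) :
    ∑ m, ff I x1 x2 m ^ 2 = KK k * (KK k * (2 * k + 1)) + KK k * (KK k - 1) * KK k := by
  have h1 : ∀ m, ff I x1 x2 m ^ 2 = ∑ t, ∑ t', (ind (Adj I t x1 ∧ Adj I t x2) *
      ind (Adj I t' x1 ∧ Adj I t' x2)) * ind (Adj I t m ∧ Adj I t' m) := by
    intro m
    unfold ff
    rw [sq, Finset.sum_mul_sum]
    refine Finset.sum_congr rfl fun t _ => Finset.sum_congr rfl fun t' _ => ?_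
    rw [ind_and (Adj I t x1 ∧ Adj I t x2), ind_and (Adj I t' x1 ∧ Adj I t' x2),
      ind_and (Adj I t m)]
    ring
  have h2 : ∀ t t', (Adj I t x1 ∧ Adj I t x2) → (Adj I t' x1 ∧ Adj I t' x2) →
      ∑ m, ind (Adj I t m ∧ Adj I t' m) = KK k + ind (t' = t) * (KK k * (2 * k + 1) - KK k) := by
    intro t t' ht ht'
    by_cases e : t' = t
    · subst e
      rw [ind_pos rfl]
      have : ∑ m, ind (Adj I t' m ∧ Adj I t' m) = KK k * (2 * k + 1) := by
        rw [← adj_count h t']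
        exact Finset.sum_congr rfl fun m _ => ind_congr (and_self_iff)
      rw [this]
      ring
    · rw [ind_neg e, zero_mul, add_zero,
        ← adj_nonadj h (x := t) (y := t') (fun e' => e e'.symm) (T_nonadj h hne hna ht ht')]
      exact Finset.sum_congr rfl fun m _ => ind_congr (by
        rw [adj_comm (I := I) (x := t) (y := m), adj_comm (I := I) (x := t') (y := m)])
  calc ∑ m, ff I x1 x2 m ^ 2 = ∑ m, ∑ t, ∑ t', (ind (Adj I t x1 ∧ Adj I t x2) *
        ind (Adj I t' x1 ∧ Adj I t' x2)) * ind (Adj I t m ∧ Adj I t' m) :=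
        Finset.sum_congr rfl fun m _ => h1 m
    _ = ∑ t, ∑ t', (ind (Adj I t x1 ∧ Adj I t x2) * ind (Adj I t' x1 ∧ Adj I t' x2)) *
        ∑ m, ind (Adj I t m ∧ Adj I t' m) := by
        rw [Finset.sum_comm]
        refine Finset.sum_congr rfl fun t _ => ?_
        rw [Finset.sum_comm]
        exact Finset.sum_congr rfl fun t' _ => (Finset.mul_sum _ _ _).symm
    _ = ∑ t, ∑ t', (ind (Adj I t x1 ∧ Adj I t x2) * ind (Adj I t' x1 ∧ Adj I t' x2)) *
        (KK k + ind (t' = t) * (KK k * (2 * k + 1) - KK k)) := by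
        refine Finset.sum_congr rfl fun t _ => Finset.sum_congr rfl fun t' _ => ?_
        by_cases ht : Adj I t x1 ∧ Adj I t x2
        · by_cases ht' : Adj I t' x1 ∧ Adj I t' x2
          · rw [h2 t t' ht ht']
          · rw [ind_neg ht', mul_zero, zero_mul, zero_mul]
        · rw [ind_neg ht, zero_mul, zero_mul, zero_mul]
    _ = ∑ t, ind (Adj I t x1 ∧ Adj I t x2) * (KK k * KK k + (KK k * (2 * k + 1) - KK k)) := by
        classical
        refine Finset.sum_congr rfl fun t _ => ?_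
        have h3 : ∑ t', (ind (Adj I t x1 ∧ Adj I t x2) * ind (Adj I t' x1 ∧ Adj I t' x2)) *
            (KK k + ind (t' = t) * (KK k * (2 * k + 1) - KK k)) =
            ind (Adj I t x1 ∧ Adj I t x2) * (KK k * ∑ t', ind (Adj I t' x1 ∧ Adj I t' x2) +
            (KK k * (2 * k + 1) - KK k) * ∑ t', ind ((Adj I t' x1 ∧ Adj I t' x2) ∧ t' = t)) := by
          rw [Finset.mul_sum, Finset.mul_sum, ← Finset.sum_add_distrib, Finset.mul_sum]
          refine Finset.sum_congr rfl fun t' _ => ?_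
          rw [ind_and (Adj I t' x1 ∧ Adj I t' x2)]
          ring
        rw [h3, adj_nonadj h hne hna, sum_eq]
        by_cases ht : Adj I t x1 ∧ Adj I t x2
        · rw [ind_pos ht]; ring
        · rw [ind_neg ht]; ring
    _ = _ := by
        rw [← Finset.sum_mul, adj_nonadj h hne hna]
        ring

theorem main (h : GQ I k) (hk : 1 ≤ k) (hne : x1 ≠ x2) (hna : ¬ Adj I x1 x2) {m : L}
    (hm : m ≠ x1 ∧ m ≠ x2 ∧ ¬ Adj I m x1 ∧ ¬ Adj I m x2) : ff I x1 x2 m = 2 * k + 2 := by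
  have s0 := sum_parts (I := I) hne hna fun _ => (1 : ℤ)
  have s1 := sum_parts (I := I) hne hna fun m => ff I x1 x2 m
  have s2 := sum_parts (I := I) hne hna fun m => ff I x1 x2 m ^ 2
  have hc2 : ∑ m, ind (Adj I m x2 ∧ ¬ Adj I m x1) = KK k * (2 * k + 1) - KK k :=
    card_one h hne.symm (fun h' => hna (Adj.symm' h'))
  rw [sum_const_mul _ _ 1 (fun _ _ => rfl), sum_const_mul _ _ 1 (fun _ _ => rfl),
    sum_const_mul _ _ 1 (fun _ _ => rfl), adj_nonadj h hne hna, card_one h hne hna, hc2,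
    line_count h hk] at s0
  rw [sum_const_mul _ _ 0 (fun m hm => ff_T h hne hna hm),
    sum_const_mul _ _ 1 (fun m hm => ff_one h hne hna hm),
    sum_const_mul _ _ 1 (fun m hm => ff_one' h hne hna hm), card_one h hne hna, hc2,
    ff_left h hne hna, ff_right h hne hna, sum_ff h hne hna] at s1
  rw [sum_const_mul _ _ 0 (fun m hm => by rw [ff_T h hne hna hm]; norm_num),
    sum_const_mul _ _ 1 (fun m hm => by rw [ff_one h hne hna hm]; norm_num),
    sum_const_mul _ _ 1 (fun m hm => by rw [ff_one' h hne hna hm]; norm_num), card_one h hne hna,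
    hc2, ff_left h hne hna, ff_right h hne hna, sum_ff_sq h hne hna] at s2
  have h1 : ∑ m, ind (m ≠ x1 ∧ m ≠ x2 ∧ ¬ Adj I m x1 ∧ ¬ Adj I m x2) *
      (ff I x1 x2 m - (2 * k + 2)) ^ 2 = 0 := by
    have e : ∀ m, ind (m ≠ x1 ∧ m ≠ x2 ∧ ¬ Adj I m x1 ∧ ¬ Adj I m x2) *
        (ff I x1 x2 m - (2 * k + 2)) ^ 2 =
        ind (m ≠ x1 ∧ m ≠ x2 ∧ ¬ Adj I m x1 ∧ ¬ Adj I m x2) * ff I x1 x2 m ^ 2 -
        2 * (2 * k + 2) * (ind (m ≠ x1 ∧ m ≠ x2 ∧ ¬ Adj I m x1 ∧ ¬ Adj I m x2) *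
          ff I x1 x2 m) +
        (2 * k + 2) ^ 2 * (ind (m ≠ x1 ∧ m ≠ x2 ∧ ¬ Adj I m x1 ∧ ¬ Adj I m x2) * 1) := by
      intro m
      ring
    rw [Finset.sum_congr rfl fun m _ => e m, Finset.sum_add_distrib, Finset.sum_sub_distrib,
      ← Finset.mul_sum, ← Finset.mul_sum]
    have d0 : ∑ m, ind (m ≠ x1 ∧ m ≠ x2 ∧ ¬ Adj I m x1 ∧ ¬ Adj I m x2) * 1 =
        (2 * k + 2) * ((2 * k + 1) ^ 3 + 1) - 2 - KK k * 1 -
          2 * (KK k * (2 * k + 1) - KK k) := by linarith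
    have d1 : ∑ m, ind (m ≠ x1 ∧ m ≠ x2 ∧ ¬ Adj I m x1 ∧ ¬ Adj I m x2) * ff I x1 x2 m =
        KK k * (KK k * (2 * k + 1)) - 2 * KK k - 2 * (KK k * (2 * k + 1) - KK k) := by linarith
    have d2 : ∑ m, ind (m ≠ x1 ∧ m ≠ x2 ∧ ¬ Adj I m x1 ∧ ¬ Adj I m x2) * ff I x1 x2 m ^ 2 =
        KK k * (KK k * (2 * k + 1)) + KK k * (KK k - 1) * KK k - 2 * KK k ^ 2 -
          2 * (KK k * (2 * k + 1) - KK k) := by linarith
    rw [d0, d1, d2]
    unfold KK
    ring
  have h2 := (Finset.sum_eq_zero_iff_of_nonneg (fun m _ =>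
    mul_nonneg (ind_nonneg _) (sq_nonneg _))).1 h1 m (Finset.mem_univ m)
  rw [ind_pos hm, one_mul] at h2
  have h3 := pow_eq_zero_iff (two_ne_zero) |>.1 h2
  linarith

end TRIM

theorem specTRI : SpecTRI := by
  intro P L _ _ I k hk hq x1 x2 x3 h12 h13 h23 n12 n13 n23
  rw [← TRIM.main hq hk h12 n12 (m := x3) ⟨h13.symm, h23.symm,
    fun h => n13 (ADJM.Adj.symm' h), fun h => n23 (ADJM.Adj.symm' h)⟩]
  exact Finset.sum_congr rfl fun z _ => ind_congr (by tauto)

end Pool.Agent.Lib.MP0ea612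
end

section
/-!
# Transversals inside a hemisystem
-/
set_option autoImplicit false

namespace Pool.Agent.Lib.MP0ea612

namespace SRGM

open ADJM TRIM

variable {P L : Type} {I : P → L → Prop} [Fintype P] [Fintype L] {k : ℤ}

/-- the number of lines of `h` adjacent to `x1` and `x2` -/
noncomputable def aa (I : P → L → Prop) (h : L → Prop) (x1 x2 : L) : ℤ :=
  ∑ z, ind (h z ∧ Adj I z x1 ∧ Adj I z x2)

theorem adj_h (hk : 1 ≤ k) (hq : GQ I k) (h : L → Prop)
    (hh' : ∀ p, ∑ x, ind (I p x ∧ h x) = k + 1) (x : L) :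
    ∑ y, ind (h y ∧ Adj I x y) = KK k * (k + 1 - ind (h x)) :=
  (specHD I k hk hq h hh').1 x

/-- double count of the adjacent pairs (transversal, line of `h`) -/
theorem sum_h_ff (hk : 1 ≤ k) (hq : GQ I k) (h : L → Prop)
    (hh' : ∀ p, ∑ x, ind (I p x ∧ h x) = k + 1) {x1 x2 : L} (hne : x1 ≠ x2)
    (hna : ¬ Adj I x1 x2) :
    ∑ m, ind (h m) * ff I x1 x2 m = KK k * (KK k * (k + 1) - aa I h x1 x2) := by
  have h1 : ∑ m, ind (h m) * ff I x1 x2 m =
      ∑ z, ind (Adj I z x1 ∧ Adj I z x2) * (KK k * (k + 1 - ind (h z))) := by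
    unfold ff
    simp_rw [Finset.mul_sum]
    rw [Finset.sum_comm]
    refine Finset.sum_congr rfl fun z _ => ?_
    rw [← adj_h hk hq h hh' z, Finset.mul_sum]
    refine Finset.sum_congr rfl fun m _ => ?_
    rw [← ind_and, ← ind_and]
    exact ind_congr (by tauto)
  have h2 : ∀ z, ind (Adj I z x1 ∧ Adj I z x2) * (KK k * (k + 1 - ind (h z))) =
      (KK k * (k + 1)) * ind (Adj I z x1 ∧ Adj I z x2) -
        KK k * ind (h z ∧ Adj I z x1 ∧ Adj I z x2) := by
    intro z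
    rw [ind_and (h z)]
    ring
  rw [h1, Finset.sum_congr rfl fun z _ => h2 z, Finset.sum_sub_distrib, ← Finset.mul_sum,
    ← Finset.mul_sum, adj_nonadj hq hne hna]
  unfold aa
  ring

theorem sum_left (hk : 1 ≤ k) (hq : GQ I k) (h : L → Prop)
    (hh' : ∀ p, ∑ x, ind (I p x ∧ h x) = k + 1) (x1 x2 : L) :
    ∑ m, ind (Adj I m x1 ∧ ¬ Adj I m x2) * ind (h m) =
      KK k * (k + 1 - ind (h x1)) - aa I h x1 x2 := by
  have h1 := sum_split (fun m => h m ∧ Adj I x1 m) (fun m => Adj I m x2)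
  rw [adj_h hk hq h hh' x1] at h1
  have h2 : ∑ m, ind ((h m ∧ Adj I x1 m) ∧ Adj I m x2) = aa I h x1 x2 :=
    Finset.sum_congr rfl fun m _ => ind_congr (by
      rw [adj_comm (I := I) (x := x1) (y := m)]
      tauto)
  have h3 : ∑ m, ind (Adj I m x1 ∧ ¬ Adj I m x2) * ind (h m) =
      ∑ m, ind ((h m ∧ Adj I x1 m) ∧ ¬ Adj I m x2) := by
    refine Finset.sum_congr rfl fun m _ => ?_
    rw [← ind_and, adj_comm (I := I) (x := x1) (y := m)]
    exact ind_congr (by tauto)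
  rw [h2] at h1
  rw [h3]
  linarith

omit [Fintype P] in
theorem aa_comm (h : L → Prop) (x1 x2 : L) : aa I h x2 x1 = aa I h x1 x2 :=
  Finset.sum_congr rfl fun z _ => ind_congr (by tauto)

/-- the linear equation for the number of transversals in `h` -/
theorem count (hk : 1 ≤ k) (hq : GQ I k) (h : L → Prop)
    (hh' : ∀ p, ∑ x, ind (I p x ∧ h x) = k + 1) {x1 x2 : L} (hne : x1 ≠ x2)
    (hna : ¬ Adj I x1 x2) :
    aa I h x1 x2 * (KK k + 2 * k) = KK k ^ 2 * (k + 1) - KK k * (2 * k + 2) -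
      (2 * k + 2) * ((k + 1) * ((2 * k + 1) ^ 3 + 1) - (ind (h x1) + ind (h x2)) -
        KK k * (2 * k + 2 - (ind (h x1) + ind (h x2)))) := by
  have s0 := sum_parts (I := I) hne hna fun m => ind (h m)
  have s1 := sum_parts (I := I) hne hna fun m => ind (h m) * ff I x1 x2 m
  have c0 : ∑ m, ind (Adj I m x1 ∧ Adj I m x2) * ind (h m) = aa I h x1 x2 :=
    Finset.sum_congr rfl fun m _ => by
      rw [← ind_and]
      exact ind_congr (by tauto)
  have c1 := sum_left hk hq h hh' x1 x2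
  have c2 := sum_left hk hq h hh' x2 x1
  rw [aa_comm] at c2
  have d0 : ∑ m, ind (Adj I m x1 ∧ Adj I m x2) * (ind (h m) * ff I x1 x2 m) = 0 := by
    refine Finset.sum_eq_zero fun m _ => ?_
    by_cases hm : Adj I m x1 ∧ Adj I m x2
    · rw [ff_T hq hne hna hm, mul_zero, mul_zero]
    · rw [ind_neg hm, zero_mul]
  have d1 : ∑ m, ind (Adj I m x1 ∧ ¬ Adj I m x2) * (ind (h m) * ff I x1 x2 m) =
      ∑ m, ind (Adj I m x1 ∧ ¬ Adj I m x2) * ind (h m) :=
    Finset.sum_congr rfl fun m _ => ind_mul_congr fun hm => by rw [ff_one hq hne hna hm, mul_one]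
  have d2 : ∑ m, ind (Adj I m x2 ∧ ¬ Adj I m x1) * (ind (h m) * ff I x1 x2 m) =
      ∑ m, ind (Adj I m x2 ∧ ¬ Adj I m x1) * ind (h m) :=
    Finset.sum_congr rfl fun m _ => ind_mul_congr fun hm => by rw [ff_one' hq hne hna hm, mul_one]
  have d3 : ∑ m, ind (m ≠ x1 ∧ m ≠ x2 ∧ ¬ Adj I m x1 ∧ ¬ Adj I m x2) *
      (ind (h m) * ff I x1 x2 m) = (2 * k + 2) *
      ∑ m, ind (m ≠ x1 ∧ m ≠ x2 ∧ ¬ Adj I m x1 ∧ ¬ Adj I m x2) * ind (h m) := by
    rw [Finset.mul_sum]
    refine Finset.sum_congr rfl fun m _ => ?_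
    by_cases hm : m ≠ x1 ∧ m ≠ x2 ∧ ¬ Adj I m x1 ∧ ¬ Adj I m x2
    · rw [TRIM.main hq hk hne hna hm]
      ring
    · rw [ind_neg hm]
      ring
  rw [(specHD I k hk hq h hh').2, c0, c1, c2] at s0
  rw [sum_h_ff hk hq h hh' hne hna, ff_left hq hne hna, ff_right hq hne hna, d0, d1, d2, d3, c1,
    c2] at s1
  have e : ∑ m, ind (m ≠ x1 ∧ m ≠ x2 ∧ ¬ Adj I m x1 ∧ ¬ Adj I m x2) * ind (h m) =
      (k + 1) * ((2 * k + 1) ^ 3 + 1) - ind (h x1) - ind (h x2) - aa I h x1 x2 -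
        (KK k * (k + 1 - ind (h x1)) - aa I h x1 x2) -
        (KK k * (k + 1 - ind (h x2)) - aa I h x1 x2) := by linarith
  rw [e] at s1
  linear_combination (-1 : ℤ) * s1

end SRGM

theorem specSRG : SpecSRG := by
  intro P L _ _ I k hk hq h hh'
  have hK : KK k + 2 * k ≠ 0 := by
    unfold KK
    nlinarith
  refine ⟨fun x y hx hy hne hna => ?_, fun x y hx hy hna => ?_⟩
  · have h1 := SRGM.count hk hq h hh' hne hna
    rw [ind_pos hx, ind_pos hy] at h1
    have h2 : SRGM.aa I h x y * (KK k + 2 * k) = (2 * k ^ 2) * (KK k + 2 * k) := by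
      rw [h1]
      unfold KK
      ring
    exact mul_right_cancel₀ hK h2
  · have hne : x ≠ y := by
      rintro rfl
      exact hy hx
    have h1 := SRGM.count hk hq h hh' hne hna
    rw [ind_pos hx, ind_neg hy] at h1
    have h2 : SRGM.aa I h x y * (KK k + 2 * k) = hh k * (KK k + 2 * k) := by
      rw [h1]
      unfold KK hh
      ring
    exact mul_right_cancel₀ hK h2

end Pool.Agent.Lib.MP0ea612
end

section
/-!
# Translation of the line counts to a pair of families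
-/
set_option autoImplicit false

namespace Pool.Agent.Lib.MP0ea612

namespace PRM

open ADJM

variable {P L1 L2 : Type} {I1 : P → L1 → Prop} {I2 : P → L2 → Prop}

/-- the incidence on the union of the two families -/
def J (I1 : P → L1 → Prop) (I2 : P → L2 → Prop) (p : P) (x : L1 ⊕ L2) : Prop :=
  Sum.elim (I1 p) (I2 p) x

/-- the first family -/
def hl (x : L1 ⊕ L2) : Prop := Sum.elim (fun _ => True) (fun _ => False) x
/-- the second family -/
def hr (x : L1 ⊕ L2) : Prop := Sum.elim (fun _ => False) (fun _ => True) x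

theorem adj_lr (x : L1) (y : L2) :
    Adj (J I1 I2) (Sum.inl x) (Sum.inr y) ↔ Mt I1 I2 x y :=
  ⟨fun h => h.2, fun h => ⟨Sum.inl_ne_inr, h⟩⟩

theorem adj_rl (x : L1) (y : L2) :
    Adj (J I1 I2) (Sum.inr y) (Sum.inl x) ↔ Mt I1 I2 x y :=
  ⟨fun h => h.2.imp fun _ h' => ⟨h'.2, h'.1⟩,
    fun h => ⟨Sum.inr_ne_inl, h.imp fun _ h' => ⟨h'.2, h'.1⟩⟩⟩

theorem adj_ll (x x' : L1) :
    Adj (J I1 I2) (Sum.inl x) (Sum.inl x') ↔ x ≠ x' ∧ Mt I1 I1 x x' :=
  ⟨fun h => ⟨fun e => h.1 (congrArg _ e), h.2⟩, fun h => ⟨fun e => h.1 (Sum.inl.inj e), h.2⟩⟩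

variable [Fintype P] [Fintype L1] [Fintype L2] {k : ℤ}

theorem gq (h : Pair I1 I2 k) : GQ (J I1 I2) k where
  ne := h.ne
  c := by
    rintro (x | y)
    · exact h.c1 x
    · exact h.c2 y
  d := by
    intro p
    rw [Fintype.sum_sum_type]
    have h1 : ∑ x : L1, ind (J I1 I2 p (Sum.inl x)) = k + 1 := h.d1 p
    have h2 : ∑ y : L2, ind (J I1 I2 p (Sum.inr y)) = k + 1 := h.d2 p
    rw [h1, h2]
    ring
  u := by
    rintro p p' (x | y) (x' | y') hne h1 h2 h3 h4
    · exact congrArg _ (h.u11 p p' x x' hne h1 h2 h3 h4)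
    · exact (h.u12 p p' x y' hne h1 h2 h3 h4).elim
    · exact (h.u12 p p' x' y hne h3 h4 h1 h2).elim
    · exact congrArg _ (h.u22 p p' y y' hne h1 h2 h3 h4)
  e := by
    rintro p (x | y) hp
    · obtain ⟨p', h1, ⟨z, h2, h3⟩ | ⟨z, h2, h3⟩⟩ := h.e1 p x hp
      · exact ⟨p', Sum.inl z, h1, h2, h3⟩
      · exact ⟨p', Sum.inr z, h1, h2, h3⟩
    · obtain ⟨p', h1, ⟨z, h2, h3⟩ | ⟨z, h2, h3⟩⟩ := h.e2 p y hp
      · exact ⟨p', Sum.inl z, h1, h2, h3⟩
      · exact ⟨p', Sum.inr z, h1, h2, h3⟩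
  e' := by
    have hcol : ∀ p p' (y : L1 ⊕ L2), J I1 I2 p y → J I1 I2 p' y → Col I1 I2 p p' := by
      rintro p p' (x | y) h1 h2
      · exact Or.inl ⟨x, h1, h2⟩
      · exact Or.inr ⟨y, h1, h2⟩
    rintro p (x | x) p' p'' y y' hp h1 h2 h3 h4 h5 h6
    · exact h.e1' p x p' p'' hp h1 (hcol _ _ y h2 h3) h4 (hcol _ _ y' h5 h6)
    · exact h.e2' p x p' p'' hp h1 (hcol _ _ y h2 h3) h4 (hcol _ _ y' h5 h6)

theorem sum_zero {α : Type} [Fintype α] {q : α → Prop} (h : ∀ a, ¬ q a) :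
    ∑ a, ind (q a) = 0 := sum_ind_eq_zero q h

/-- a sum over the first family -/
theorem sum_hl (q : L1 ⊕ L2 → Prop) :
    ∑ x, ind (hl x ∧ q x) = ∑ x : L1, ind (q (Sum.inl x)) := by
  rw [Fintype.sum_sum_type]
  have h2 : ∑ y : L2, ind (hl (Sum.inr y : L1 ⊕ L2) ∧ q (Sum.inr y)) = 0 :=
    sum_ind_eq_zero _ fun y h' => h'.1
  rw [h2, add_zero]
  exact Finset.sum_congr rfl fun x _ => ind_congr ⟨fun h' => h'.2, fun h' => ⟨trivial, h'⟩⟩

/-- a sum over the second family -/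
theorem sum_hr (q : L1 ⊕ L2 → Prop) :
    ∑ x, ind (hr x ∧ q x) = ∑ y : L2, ind (q (Sum.inr y)) := by
  rw [Fintype.sum_sum_type]
  have h2 : ∑ x : L1, ind (hr (Sum.inl x : L1 ⊕ L2) ∧ q (Sum.inl x)) = 0 :=
    sum_ind_eq_zero _ fun y h' => h'.1
  rw [h2, zero_add]
  exact Finset.sum_congr rfl fun x _ => ind_congr ⟨fun h' => h'.2, fun h' => ⟨trivial, h'⟩⟩

theorem hemi_l (h : Pair I1 I2 k) (p : P) :
    ∑ x, ind (J I1 I2 p x ∧ hl x) = k + 1 := by
  rw [← h.d1 p]
  refine Eq.trans ?_ (sum_hl (L2 := L2) (fun x => J I1 I2 p x))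
  exact Finset.sum_congr rfl fun x _ => ind_congr and_comm

theorem hemi_r (h : Pair I1 I2 k) (p : P) :
    ∑ x, ind (J I1 I2 p x ∧ hr x) = k + 1 := by
  rw [← h.d2 p]
  refine Eq.trans ?_ (sum_hr (L1 := L1) (fun x => J I1 I2 p x))
  exact Finset.sum_congr rfl fun x _ => ind_congr and_comm

/-- a line has a point -/
theorem exists_point (hk : 1 ≤ k) (h : Pair I1 I2 k) (x : L1) : ∃ p, I1 p x :=
  exists_of_sum_ind_pos (by
    rw [h.c1 x]
    unfold KK
    nlinarith)

theorem ne_of (hk : 1 ≤ k) (h : Pair I1 I2 k) {x x' : L1} (hn : ¬ Mt I1 I1 x x') : x ≠ x' := by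
  rintro rfl
  obtain ⟨p, hp⟩ := exists_point hk h x
  exact hn ⟨p, hp, hp⟩

omit [Fintype P] [Fintype L1] [Fintype L2] in
theorem nadj (x x' : L1) (hn : ¬ Mt I1 I1 x x') :
    ¬ Adj (J I1 I2) (Sum.inl x) (Sum.inl x') := fun h' => hn h'.2

/-- transversals in the first family -/
theorem c8 (hk : 1 ≤ k) (h : Pair I1 I2 k) (x x' : L1) (hn : ¬ Mt I1 I1 x x') :
    ∑ z : L1, ind (Mt I1 I1 z x ∧ Mt I1 I1 z x') = 2 * k ^ 2 := by
  rw [← (specSRG (J I1 I2) k hk (gq h) hl (hemi_l h)).1 (Sum.inl x) (Sum.inl x') trivial trivial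
    (fun e => ne_of hk h hn (Sum.inl.inj e)) (nadj x x' hn), sum_hl]
  refine Finset.sum_congr rfl fun z _ => ind_congr ?_
  rw [adj_ll, adj_ll]
  refine ⟨fun h' => ⟨⟨?_, h'.1⟩, ?_, h'.2⟩, fun h' => ⟨h'.1.2, h'.2.2⟩⟩
  · rintro rfl
    exact hn h'.2
  · rintro rfl
    exact hn (h'.1.imp fun _ h'' => ⟨h''.2, h''.1⟩)

end PRM

open PRM in
theorem specPR : SpecPR := by
  intro P L1 L2 _ _ _ I1 I2 k hk h
  have hq := gq h
  refine ⟨fun x => ?_, fun x x' hne hm => ?_, fun x x' hn => ?_, fun x y hn => ?_,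
    fun x1 x2 x3 n12 n13 n23 => ?_, ?_, ?_, fun x x' hn => c8 hk h x x' hn⟩
  · -- (1)
    have h1 := (specHD (J I1 I2) k hk hq hr (hemi_r h)).1 (Sum.inl x)
    rw [sum_hr, ind_neg (show ¬ hr (Sum.inl x : L1 ⊕ L2) from id)] at h1
    rw [Finset.sum_congr rfl fun y _ => ind_congr (adj_lr x y).symm, h1]
    ring
  · -- (2)
    obtain ⟨p, hp, hp'⟩ := id hm
    rw [← h.d2 p]
    refine Finset.sum_congr rfl fun y _ => ind_congr ⟨?_, fun h' => ⟨⟨p, hp, h'⟩, p, hp', h'⟩⟩
    rintro ⟨h1, h2⟩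
    exact ADJM.triangle_at hq (x := Sum.inl x) (y := Sum.inl x') (z := Sum.inr y)
      ((adj_ll x x').2 ⟨hne, hm⟩) ((adj_lr x' y).2 h2) ((adj_lr x y).2 h1) hp hp'
  · -- (3)
    have h1 := ADJM.adj_nonadj hq (x := Sum.inl x) (y := Sum.inl x')
      (fun e => ne_of hk h hn (Sum.inl.inj e)) (nadj x x' hn)
    rw [Fintype.sum_sum_type] at h1
    have h2 := c8 hk h x x' hn
    have h3 : ∑ z : L1, ind (Adj (J I1 I2) (Sum.inl z) (Sum.inl x) ∧
        Adj (J I1 I2) (Sum.inl z) (Sum.inl x')) = 2 * k ^ 2 := by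
      rw [← h2]
      refine Finset.sum_congr rfl fun z _ => ind_congr ?_
      rw [adj_ll, adj_ll]
      refine ⟨fun h' => ⟨h'.1.2, h'.2.2⟩, fun h' => ⟨⟨?_, h'.1⟩, ?_, h'.2⟩⟩
      · rintro rfl
        exact hn h'.2
      · rintro rfl
        exact hn (h'.1.imp fun _ h'' => ⟨h''.2, h''.1⟩)
    have h4 : ∑ y : L2, ind (Adj (J I1 I2) (Sum.inr y) (Sum.inl x) ∧
        Adj (J I1 I2) (Sum.inr y) (Sum.inl x')) =
        ∑ y, ind (Mt I1 I2 x y ∧ Mt I1 I2 x' y) := by
      refine Finset.sum_congr rfl fun y _ => ind_congr ?_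
      rw [adj_rl, adj_rl]
    rw [h3, h4] at h1
    unfold KK at h1
    linarith
  · -- (4)
    rw [← (specSRG (J I1 I2) k hk hq hl (hemi_l h)).2 (Sum.inl x) (Sum.inr y) trivial id
      (fun h' => hn h'.2), sum_hl]
    refine Finset.sum_congr rfl fun z _ => ind_congr ?_
    rw [adj_ll, adj_lr]
    refine ⟨fun h' => ⟨⟨?_, h'.1⟩, h'.2⟩, fun h' => ⟨h'.1.2, h'.2⟩⟩
    rintro rfl
    exact hn h'.2
  · -- (5)
    have h1 := specTRI (J I1 I2) k hk hq (Sum.inl x1) (Sum.inl x2) (Sum.inl x3)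
      (fun e => ne_of hk h n12 (Sum.inl.inj e)) (fun e => ne_of hk h n13 (Sum.inl.inj e))
      (fun e => ne_of hk h n23 (Sum.inl.inj e)) (nadj _ _ n12) (nadj _ _ n13) (nadj _ _ n23)
    rw [Fintype.sum_sum_type] at h1
    rw [← h1]
    congr 1
    · refine Finset.sum_congr rfl fun z _ => ind_congr ?_
      rw [adj_ll, adj_ll, adj_ll]
      refine ⟨fun h' => ⟨⟨?_, h'.1⟩, ⟨?_, h'.2.1⟩, ?_, h'.2.2⟩,
        fun h' => ⟨h'.1.2, h'.2.1.2, h'.2.2.2⟩⟩
      · rintro rfl
        exact n12 h'.2.1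
      · rintro rfl
        exact n23 h'.2.2
      · rintro rfl
        exact n13 (h'.1.imp fun _ h'' => ⟨h''.2, h''.1⟩)
    · refine Finset.sum_congr rfl fun y _ => ind_congr ?_
      rw [adj_rl, adj_rl, adj_rl]
  · -- (6)
    have h1 := (specHD (J I1 I2) k hk hq hr (hemi_r h)).2
    have h2 : ∑ x : L1 ⊕ L2, ind (hr x) = ∑ x : L1 ⊕ L2, ind (hr x ∧ True) :=
      Finset.sum_congr rfl fun x _ => ind_congr (by tauto)
    rw [h2, sum_hr] at h1
    rw [← h1]
    exact Finset.sum_congr rfl fun y _ => (ind_pos trivial).symm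
  · -- (7)
    have h1 := (specHD (J I1 I2) k hk hq hl (hemi_l h)).2
    have h2 : ∑ x : L1 ⊕ L2, ind (hl x) = ∑ x : L1 ⊕ L2, ind (hl x ∧ True) :=
      Finset.sum_congr rfl fun x _ => ind_congr (by tauto)
    rw [h2, sum_hl] at h1
    rw [← h1]
    exact Finset.sum_congr rfl fun y _ => (ind_pos trivial).symm

end Pool.Agent.Lib.MP0ea612
end

section
/-!
# TA: first moments
-/
set_option autoImplicit false

namespace Pool.Agent.Lib.MP0ea612

namespace TAM

theorem Mt_swap {P L M : Type} (I : P → L → Prop) (J : P → M → Prop) (x : L) (y : M) :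
    Mt I J x y ↔ Mt J I y x :=
  ⟨fun ⟨p, h1, h2⟩ => ⟨p, h2, h1⟩, fun ⟨p, h1, h2⟩ => ⟨p, h2, h1⟩⟩

/-- sum of indicators of a subsingleton property -/
theorem sum_zero_or_one {α : Type} [Fintype α] (p : α → Prop) (h : ∀ a b, p a → p b → a = b) :
    ∑ a, ind (p a) = 0 ∨ ∑ a, ind (p a) = 1 := by
  by_cases he : ∃ a, p a
  · obtain ⟨a, ha⟩ := he
    exact Or.inr (sum_ind_of_unique p a ha fun b hb => h b a hb ha)
  · push Not at he
    exact Or.inl (sum_ind_eq_zero p he)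

/-- the number of points which a line has in common with `X` -/
theorem sum_pts {P H B : Type} [Fintype P] (IH : P → H → Prop) (IB : P → B → Prop)
    (hu : ∀ p p' x y, p ≠ p' → IH p x → IH p' x → IB p y → IB p' y → False) (X : B) (l : H) :
    ∑ p, ind (IB p X ∧ IH p l) = ind (Mt IH IB l X) := by
  by_cases h : Mt IH IB l X
  · rw [ind_pos h]
    obtain ⟨p, h1, h2⟩ := h
    refine sum_ind_of_unique _ p ⟨h2, h1⟩ fun b hb => ?_
    by_contra hne
    exact hu b p l X hne hb.2 h1 hb.1 h2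
  · rw [ind_neg h]
    exact sum_ind_eq_zero _ fun p hp => h ⟨p, hp.2, hp.1⟩

end TAM

theorem specTA (hPR : SpecPR) (hLA : SpecLA) : SpecTA := by
  intro P H A B _ _ _ _ IH IA IB k h X
  have hLA0 := (hLA IH IA IB k h X).1
  -- the number of lines of `H` meeting `X`
  have hV : ∑ l, ind (Mt IH IB l X) = KK k * (k + 1) := by
    rw [← (hPR IB IH k h.hk h.SB.symm).1 X]
    exact Finset.sum_congr rfl fun l _ => ind_congr (TAM.Mt_swap _ _ _ _)
  have hee : ∀ p m, IA p m → ee IH IA p m = k + 1 := by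
    intro p m hpm
    unfold ee
    rw [← h.SA.d1 p]
    exact Finset.sum_congr rfl fun l _ => ind_congr ⟨fun g => g.1, fun g => ⟨g, p, g, hpm⟩⟩
  refine ⟨?_, ?_, ?_, ?_, ?_⟩
  · unfold cc
    rw [Finset.sum_comm]
    have e1 : ∀ l : H, ∑ m, ind (Mt IH IB l X ∧ Mt IH IA l m) =
        ind (Mt IH IB l X) * (KK k * (k + 1)) := by
      intro l
      rw [← (hPR IH IA k h.hk h.SA).1 l, Finset.mul_sum]
      exact Finset.sum_congr rfl fun m _ => ind_and _ _
    rw [Finset.sum_congr rfl fun l _ => e1 l, ← Finset.sum_mul, hV]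
    ring
  · unfold kap
    rw [Finset.sum_comm]
    have e1 : ∀ p : P, ∑ m, ind (IB p X ∧ IA p m) = ind (IB p X) * (k + 1) := by
      intro p
      rw [← h.SA.d2 p, Finset.mul_sum]
      exact Finset.sum_congr rfl fun m _ => ind_and _ _
    rw [Finset.sum_congr rfl fun p _ => e1 p, ← Finset.sum_mul, h.SB.c2 X]
  · intro p p' hp hp' hne
    unfold ee
    have e0 : ∀ m, ind (IA p m) * ∑ l, ind (IH p' l ∧ Mt IH IA l m) =
        ∑ l, ind (IH p' l) * ind (IA p m ∧ Mt IH IA l m) := by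
      intro m
      rw [Finset.mul_sum]
      refine Finset.sum_congr rfl fun l _ => ?_
      rw [ind_and, ind_and]; ring
    rw [Finset.sum_congr rfl fun m _ => e0 m, Finset.sum_comm]
    have e1 : ∀ l : H, ∑ m, ind (IH p' l) * ind (IA p m ∧ Mt IH IA l m) = ind (IH p' l) := by
      intro l
      by_cases hl : IH p' l
      · rw [← Finset.mul_sum]
        have hpl : ¬ IH p l := fun g => h.SB.u12 p p' l X hne g hl hp hp'
        obtain ⟨b, hbl, hcol⟩ := h.SA.e1 p l hpl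
        have hpb : p ≠ b := fun e => hpl (e ▸ hbl)
        obtain ⟨m, hm1, hm2⟩ : ∃ m, IA p m ∧ IA b m := by
          rcases hcol with ⟨n, h1, h2⟩ | ⟨n, h1, h2⟩
          · exact absurd ⟨b, h2, hbl⟩ (hLA0 p p' n l hp hp' hne h1 hl)
          · exact ⟨n, h1, h2⟩
        rw [sum_ind_of_unique (fun m => IA p m ∧ Mt IH IA l m) m ⟨hm1, b, hbl, hm2⟩, mul_one]
        rintro m' ⟨g1, b', g2, g3⟩
        have hbb : b' = b := h.SA.e1' p l b' b hpl g2 (Or.inr ⟨m', g1, g3⟩) hbl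
          (Or.inr ⟨m, hm1, hm2⟩)
        subst hbb
        exact h.SA.u22 p b' m' m hpb g1 g3 hm1 hm2
      · rw [ind_neg hl]
        simp
    rw [Finset.sum_congr rfl fun l _ => e1 l, h.SA.d1 p']
  · intro p m
    refine ⟨hee p m, fun hpm => ?_⟩
    apply TAM.sum_zero_or_one
    rintro l l' ⟨h1, b, h2, h3⟩ ⟨h1', b', h2', h3'⟩
    have hbb : b = b' := h.SA.e2' p m b b' hpm h3 (Or.inl ⟨l, h1, h2⟩) h3' (Or.inl ⟨l', h1', h2'⟩)
    subst hbb
    have hpb : p ≠ b := fun e => hpm (e ▸ h3)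
    exact h.SA.u11 p b l l' hpb h1 h2 h1' h2'
  · intro m
    unfold cc ee
    have e0 : ∀ p : P, ind (IB p X) * ∑ l, ind (IH p l ∧ Mt IH IA l m) =
        ∑ l, ind (Mt IH IA l m) * ind (IB p X ∧ IH p l) := by
      intro p
      rw [Finset.mul_sum]
      refine Finset.sum_congr rfl fun l _ => ?_
      rw [ind_and, ind_and]; ring
    rw [Finset.sum_congr rfl fun p _ => e0 p, Finset.sum_comm]
    refine Finset.sum_congr rfl fun l _ => ?_
    rw [← Finset.mul_sum, TAM.sum_pts IH IB h.SB.u12 X l, ind_and]; ring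

end Pool.Agent.Lib.MP0ea612
end

section
/-!
# Values of `cc`, `kap`, `cl`
-/
set_option autoImplicit false

namespace Pool.Agent.Lib.MP0ea612

namespace CVM

/-- two different elements -/
theorem two_le_sum {α : Type} [Fintype α] (p : α → Prop) (a b : α) (hab : a ≠ b) (ha : p a)
    (hb : p b) : 2 ≤ ∑ x, ind (p x) := by
  have h1 := ADJM.sum_ne p a
  rw [ind_pos ha] at h1
  have h2 : 1 ≤ ∑ x, ind (p x ∧ x ≠ a) := by
    have h3 := Finset.single_le_sum (f := fun x => ind (p x ∧ x ≠ a))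
      (fun x _ => ind_nonneg _) (Finset.mem_univ b)
    have h4 : ind (p b ∧ b ≠ a) = 1 := ind_pos ⟨hb, hab.symm⟩
    simp only [h4] at h3
    exact h3
  linarith

/-- all elements of `a` satisfy `b` -/
theorem of_sum_eq {α : Type} [Fintype α] (a b : α → Prop)
    (h : ∑ x, ind (a x ∧ b x) = ∑ x, ind (a x)) : ∀ x, a x → b x := by
  intro x hx
  by_contra hb
  have h1 := ADJM.sum_split a b
  have h2 : ∑ x, ind (a x ∧ ¬ b x) = 0 := by linarith
  have h3 := (Finset.sum_eq_zero_iff_of_nonneg (fun x _ => ind_nonneg _)).1 h2 x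
    (Finset.mem_univ x)
  rw [ind_pos ⟨hx, hb⟩] at h3
  exact one_ne_zero h3

theorem sum_and_le {α : Type} [Fintype α] (a b : α → Prop) :
    ∑ x, ind (a x ∧ b x) ≤ ∑ x, ind (a x) := by
  have h1 := ADJM.sum_split a b
  have h2 : 0 ≤ ∑ x, ind (a x ∧ ¬ b x) := sum_ind_nonneg _
  linarith

variable {P H A B : Type} [Fintype P] [Fintype H] [Fintype A] [Fintype B]
  {IH : P → H → Prop} {IA : P → A → Prop} {IB : P → B → Prop} {k : ℤ}

omit [Fintype P] [Fintype A] in
theorem ee_one {q : P} {m : A}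
    (h01 : ee IH IA q m = 0 ∨ ee IH IA q m = 1) (hex : ∃ l, IH q l ∧ Mt IH IA l m) :
    ee IH IA q m = 1 := by
  obtain ⟨l, hl⟩ := hex
  rcases h01 with h | h
  · exfalso
    have h3 := (Finset.sum_eq_zero_iff_of_nonneg (fun x _ => ind_nonneg _)).1 h l
      (Finset.mem_univ l)
    rw [ind_pos hl] at h3
    exact one_ne_zero h3
  · exact h

end CVM

theorem specCV : SpecCV := by
  intro P H A B _ _ _ _ IH IA IB k h X
  obtain ⟨_, _, _, t4, t5⟩ := specTA specPR specLA IH IA IB k h X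
  have hK : ∑ q, ind (IB q X) = KK k := h.SB.c2 X
  refine ⟨fun m => sum_ind_nonneg _, fun m hm => ?_, fun m hm => ?_, fun m p hm hp hpm => ?_,
    fun m p hm hp hpm => ?_, fun p hp hall => ?_, fun p hp => ⟨?_, ?_⟩,
    fun m => ⟨sum_ind_nonneg _, ?_, fun hm p => ⟨?_, ?_⟩⟩⟩
  · -- (2)
    rw [t5 m, ← hK]
    refine Finset.sum_le_sum fun q _ => ?_
    by_cases hq : IB q X
    · rw [ind_pos hq, one_mul]
      have hqm : ¬ IA q m := by
        intro hc
        have h3 := (Finset.sum_eq_zero_iff_of_nonneg (fun x _ => ind_nonneg _)).1 hm q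
          (Finset.mem_univ q)
        rw [ind_pos ⟨hq, hc⟩] at h3
        exact one_ne_zero h3
      rcases (t4 q m).2 hqm with h1 | h1 <;> rw [h1]
      norm_num
    · rw [ind_neg hq, zero_mul]
  · -- (3)
    obtain ⟨p, p', hne, ⟨hp, hpm⟩, hp', hpm'⟩ := FTM.two_of_sum hm
    have h1 : ∀ q, ind (IB q X) * ee IH IA q m =
        ind (IB q X ∧ IA q m) * (k + 1) + (ind (IB q X) - ind (IB q X ∧ IA q m)) := by
      intro q
      by_cases hq : IB q X
      · by_cases hqm : IA q m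
        · rw [(t4 q m).1 hqm, ind_pos hq, ind_pos ⟨hq, hqm⟩]
          ring
        · have h2 : ee IH IA q m = 1 := CVM.ee_one ((t4 q m).2 hqm) (by
            obtain ⟨l, b, h3, h4, h5, _⟩ := LAM.la2 h X m p p' q hne hp hpm hp' hpm' hq hqm
            exact ⟨l, h3, b, h4, h5⟩)
          rw [h2, ind_pos hq, ind_neg (fun h' => hqm h'.2)]
          ring
      · rw [ind_neg hq, ind_neg (fun h' => hq h'.1)]
        ring
    rw [t5 m, Finset.sum_congr rfl fun q _ => h1 q, Finset.sum_add_distrib,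
      Finset.sum_sub_distrib, ← Finset.sum_mul, hK]
    rfl
  · -- (4)
    have hu : ∀ p', IB p' X → IA p' m → p' = p := by
      intro p' h1 h2
      by_contra hne
      have h3 := CVM.two_le_sum (fun q => IB q X ∧ IA q m) p' p hne ⟨h1, h2⟩ ⟨hp, hpm⟩
      have h4 : ∑ q, ind (IB q X ∧ IA q m) = 1 := hm
      linarith
    have h1 : ∀ q, ind (IB q X) * ee IH IA q m = ind (q = p) * (k + 1) + (ind (IB q X) -
        ind (IB q X ∧ (q = p ∨ ∃ m, IA p m ∧ IA q m))) := by
      intro q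
      by_cases hqp : q = p
      · subst hqp
        rw [(t4 q m).1 hpm, ind_pos hp, ind_pos rfl, ind_pos ⟨hp, Or.inl rfl⟩]
        ring
      · rw [ind_neg hqp]
        by_cases hq : IB q X
        · have hqm : ¬ IA q m := fun hc => hqp (hu q hq hc)
          rw [ind_pos hq]
          by_cases hc : ∃ m, IA p m ∧ IA q m
          · obtain ⟨m1, hm1, hm2⟩ := id hc
            have h2 : ee IH IA q m = 0 := sum_ind_eq_zero _ fun l hl =>
              LAM.la3b h X m p q m1 hp hpm hq hqm hm1 hm2 ⟨l, hl⟩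
            rw [h2, ind_pos ⟨hq, Or.inr hc⟩]
            ring
          · have h2 : ee IH IA q m = 1 := CVM.ee_one ((t4 q m).2 hqm)
              (LAM.la3a h X m p q hp hpm hu hq hqp hc)
            rw [h2, ind_neg (fun h' => h'.2.elim hqp hc)]
            ring
        · rw [ind_neg hq, ind_neg (fun h' => hq h'.1)]
          ring
    rw [t5 m, Finset.sum_congr rfl fun q _ => h1 q, Finset.sum_add_distrib,
      Finset.sum_sub_distrib, ← Finset.sum_mul, hK,
      sum_ind_of_unique (fun q => q = p) p rfl (fun _ h' => h')]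
    rw [one_mul]
    rfl
  · -- (5)
    obtain ⟨a, b, hab, ⟨ha, ham⟩, hb, hbm⟩ := FTM.two_of_sum hm
    refine Finset.sum_congr rfl fun q _ => ind_congr ⟨?_, ?_⟩
    · rintro ⟨hq, rfl | ⟨m', h1, h2⟩⟩
      · exact ⟨hq, hpm⟩
      · refine ⟨hq, ?_⟩
        by_cases hqp : q = p
        · exact hqp ▸ hpm
        · by_cases hap : a = p
          · have hbp : p ≠ b := fun e => hab (hap.trans e)
            have e := LAM.la4 h X m m' p b q hbp hp hpm hb hbm (fun e => hqp e.symm) h1 hq h2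
            exact e ▸ h2
          · have e := LAM.la4 h X m m' p a q (fun e => hap e.symm) hp hpm ha ham
              (fun e => hqp e.symm) h1 hq h2
            exact e ▸ h2
    · rintro ⟨hq, hqm⟩
      exact ⟨hq, Or.inr ⟨m, hpm, hqm⟩⟩
  · -- (6)
    refine sum_ind_of_unique _ p ⟨hp, Or.inl rfl⟩ ?_
    rintro q ⟨hq, rfl | ⟨m, h1, h2⟩⟩
    · rfl
    · by_contra hne
      have h3 := CVM.two_le_sum (fun q => IB q X ∧ IA q m) q p hne ⟨hq, h2⟩ ⟨hp, h1⟩
      have h4 := hall m h1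
      unfold kap at h4
      linarith
  · -- (7)
    have h3 := Finset.single_le_sum
      (f := fun q => ind (IB q X ∧ (q = p ∨ ∃ m, IA p m ∧ IA q m)))
      (fun x _ => ind_nonneg _) (Finset.mem_univ p)
    have h4 : ind (IB p X ∧ (p = p ∨ ∃ m, IA p m ∧ IA p m)) = 1 := ind_pos ⟨hp, Or.inl rfl⟩
    exact h4.symm.le.trans h3
  · rw [← hK]
    exact CVM.sum_and_le _ _
  · -- (8)
    rw [← hK]
    exact CVM.sum_and_le _ _
  · intro hp
    exact CVM.of_sum_eq (fun q => IB q X) (fun q => IA q m) (hm.trans hK.symm) p hp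
  · intro hpm
    refine CVM.of_sum_eq (fun q => IA q m) (fun q => IB q X) ?_ p hpm
    have h1 : ∑ q, ind (IA q m ∧ IB q X) = ∑ q, ind (IB q X ∧ IA q m) :=
      Finset.sum_congr rfl fun q _ => ind_congr and_comm
    rw [h1, h.SA.c2 m]
    exact hm

end Pool.Agent.Lib.MP0ea612
end

section
/-!
# Module DX: a `B`-line with two points on an `A`-line has the same points
-/
set_option autoImplicit false

namespace Pool.Agent.Lib.MP0ea612

namespace DXM

/-- two different elements with the property: the count is at least two -/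
theorem two_le {α : Type} [Fintype α] {p : α → Prop} {a b : α} (hab : a ≠ b) (ha : p a)
    (hb : p b) : 2 ≤ ∑ x, ind (p x) := by
  classical
  have h1 : ∑ x ∈ ({a, b} : Finset α), ind (p x) = 2 := by
    rw [Finset.sum_pair hab, ind_pos ha, ind_pos hb]; norm_num
  rw [← h1]
  exact Finset.sum_le_sum_of_subset_of_nonneg (Finset.subset_univ _) fun _ _ _ => ind_nonneg _

end DXM

theorem specDX (hCV : SpecCV) (hFT : SpecFT) (hMO : SpecMO) (hSM : SpecSM) (hLB : SpecLB)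
    (hNU : SpecNU) : SpecDX := by
  intro P H A B _ _ _ _ IH IA IB k hT X m1 p p' hne hpX hpm hp'X hp'm
  obtain ⟨cv1, -, cv3, -, -, -, -, cv8⟩ := hCV IH IA IB k hT X
  have hk := hT.hk
  by_contra hcon
  have hK1 : kap IA IB X m1 ≠ KK k := fun h => hcon ((cv8 m1).2.2 h)
  have h2 : 2 ≤ kap IA IB X m1 := DXM.two_le hne ⟨hpX, hpm⟩ ⟨hp'X, hp'm⟩
  have hlt : ∀ m, kap IA IB X m < KK k := by
    intro m
    refine lt_of_le_of_ne (cv8 m).2.1 fun h => ?_
    have hs := (cv8 m).2.2 h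
    have : m1 = m := hT.SA.u22 p p' m1 m hne hpm hp'm ((hs p).1 hpX) ((hs p').1 hp'X)
    rw [← this] at h
    exact hK1 h
  have hup : ∀ m, 2 ≤ kap IA IB X m → kap IA IB X m ≤ hh k + 1 := by
    intro m hm
    obtain ⟨b, hbm, hbX⟩ : ∃ b, IA b m ∧ ¬ IB b X := by
      by_contra hno
      push Not at hno
      have : kap IA IB X m = KK k := by
        rw [← hT.SA.c2 m]
        exact Finset.sum_congr rfl fun q _ => ind_congr ⟨fun h => h.2, fun h => ⟨hno q h, h⟩⟩
      exact absurd this (ne_of_lt (hlt m))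
    have hft := (hFT IH IA IB k hT X m hm b hbm hbX).2
    have hle : cc IH IA IB X m ≤ 2 * (k + 1) ^ 3 := by
      rw [← hft]
      have := Finset.single_le_sum (f := fun m' => ind (IA b m') * cc IH IA IB X m')
        (fun m' _ => mul_nonneg (ind_nonneg _) (cv1 m')) (Finset.mem_univ m)
      simpa [ind_pos hbm] using this
    rw [cv3 m hm] at hle
    unfold KK at hle
    unfold hh
    by_contra hc
    push Not at hc
    nlinarith
  have e0 := hMO IH IA IB k hT X
  have e1 := hSM IH IA IB k hT X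
  have e2 := hLB IH IA IB k hT X
  have e3 : ∑ m, EE k IH IA IB X m = ∑ m, ind (kap IA IB X m = 0) * EE k IH IA IB X m +
      ∑ m, ind (kap IA IB X m ≠ 0) * EE k IH IA IB X m := by
    rw [← Finset.sum_add_distrib]
    refine Finset.sum_congr rfl fun m _ => ?_
    rw [ne_eq, ind_not]; ring
  have e4 : ∑ m, ind (2 ≤ kap IA IB X m) * (kap IA IB X m * (KK k - kap IA IB X m) * k *
      (kap IA IB X m - 1) ^ 2 * (th k + kap IA IB X m - 1)) +
      KK k * ∑ m, ind (2 ≤ kap IA IB X m) * ((kap IA IB X m - 1) ^ 2 * k *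
        FF k (kap IA IB X m)) ≤ 0 := by
    rw [← e1]
    have : KK k * (∑ m, ind (kap IA IB X m = 0) * EE k IH IA IB X m +
      ∑ m, ind (kap IA IB X m ≠ 0) * EE k IH IA IB X m) = 0 := by
      rw [← e3, e0, mul_zero]
    linarith
  rw [Finset.mul_sum, ← Finset.sum_add_distrib] at e4
  have e5 : 0 < ∑ m, (ind (2 ≤ kap IA IB X m) * (kap IA IB X m * (KK k - kap IA IB X m) * k *
      (kap IA IB X m - 1) ^ 2 * (th k + kap IA IB X m - 1)) +
      KK k * (ind (2 ≤ kap IA IB X m) * ((kap IA IB X m - 1) ^ 2 * k *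
        FF k (kap IA IB X m)))) := by
    have hpos : ∀ m, 2 ≤ kap IA IB X m →
        0 < (ind (2 ≤ kap IA IB X m) * (kap IA IB X m * (KK k - kap IA IB X m) * k *
      (kap IA IB X m - 1) ^ 2 * (th k + kap IA IB X m - 1)) +
      KK k * (ind (2 ≤ kap IA IB X m) * ((kap IA IB X m - 1) ^ 2 * k *
        FF k (kap IA IB X m)))) := by
      intro m hm
      have hv := hNU k (kap IA IB X m) hk hm (hup m hm)
      rw [ind_pos hm]
      have h3 : 0 < (kap IA IB X m - 1) ^ 2 * k :=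
        mul_pos (pow_pos (by linarith) 2) (by linarith)
      have := mul_pos h3 hv
      nlinarith [this]
    refine Finset.sum_pos' (fun m _ => ?_) ⟨m1, Finset.mem_univ _, hpos m1 h2⟩
    by_cases hm : 2 ≤ kap IA IB X m
    · exact (hpos m hm).le
    · rw [ind_neg hm]; simp
  linarith

end Pool.Agent.Lib.MP0ea612
end

section
/-!
# The third quadrangle
-/
set_option autoImplicit false

namespace Pool.Agent.Lib.MP0ea612

namespace G3M

theorem sum_ne {α : Type} [Fintype α] (p : α → Prop) (a : α) (ha : p a) :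
    ∑ b, ind (p b ∧ b ≠ a) = ∑ b, ind (p b) - 1 := by
  have h1 := FTM.sum_ind_split p (fun b => b = a)
  have h2 : ∑ b, ind (p b ∧ b = a) = 1 := sum_ind_of_unique _ a ⟨ha, rfl⟩ fun b hb => hb.2
  linarith

variable {P H A B : Type} [Fintype P] [Fintype H] [Fintype A] [Fintype B]
  {IH : P → H → Prop} {IA : P → A → Prop} {IB : P → B → Prop} {k : ℤ}

/-- (i) -/
theorem toH (h : Two IH IA IB k)
    (hno : ∀ p p' m X, p ≠ p' → IA p m → IA p' m → IB p X → IB p' X → False) (X : B) (r : P)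
    (hr : ¬ IB r X) (p : P) (m : A) (hp : IB p X) (hrm : IA r m) (hpm : IA p m) :
    ∃ q l, IB q X ∧ IH r l ∧ IH q l := by
  have hu : ∀ p', IB p' X → IA p' m → p' = p := by
    intro p' h1 h2
    by_contra hne
    exact hno p' p m X hne h2 hpm h1 hp
  have hs := FTM.surj_of_inj (fun q => IB q X ∧ q ≠ p) (fun b => IA b m ∧ b ≠ p)
    (fun q b => ∃ l, IH q l ∧ IH b l)
    (by rw [sum_ne (fun q => IB q X) p hp, sum_ne (fun b => IA b m) p hpm, h.SA.c2, h.SB.c2]) (by
      rintro q ⟨hq, hqp⟩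
      obtain ⟨l, hl, b, hbl, hbm⟩ := LAM.la3a h X m p q hp hpm hu hq hqp (by
        rintro ⟨m1, h1, h2⟩
        exact hno q p m1 X hqp h2 h1 hq hp)
      refine ⟨b, ⟨hbm, ?_⟩, l, hl, hbl⟩
      rintro rfl
      exact h.SB.u12 q b l X hqp hl hbl hq hp) (by
      rintro q q' b ⟨hq, -⟩ ⟨hq', -⟩ - ⟨l, h1, h2⟩ ⟨l', h3, h4⟩
      by_contra hne
      exact LAM.la0 h X q q' l l' hq hq' hne h1 h3 ⟨b, h2, h4⟩)
  obtain ⟨q, ⟨hq, -⟩, l, hql, hrl⟩ := hs r ⟨hrm, fun e => hr (e ▸ hp)⟩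
  exact ⟨q, l, hq, hrl, hql⟩

/-- (ii) -/
theorem toA (h : Two IH IA IB k)
    (hno : ∀ p p' m X, p ≠ p' → IA p m → IA p' m → IB p X → IB p' X → False) (X : B) (r : P)
    (hr : ¬ IB r X) (p : P) (l : H) (hp : IB p X) (hrl : IH r l) (hpl : IH p l) :
    ∃ q m, IB q X ∧ IA r m ∧ IA q m := by
  have hql : ∀ q, IB q X → q ≠ p → ¬ IH q l := fun q hq hqp hc =>
    h.SB.u12 q p l X hqp hc hpl hq hp
  have hs := FTM.surj_of_inj (fun q => IB q X ∧ q ≠ p) (fun b => IH b l ∧ b ≠ p)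
    (fun q b => ∃ n, IA q n ∧ IA b n)
    (by rw [sum_ne (fun q => IB q X) p hp, sum_ne (fun b => IH b l) p hpl, h.SA.c1, h.SB.c2]) (by
      rintro q ⟨hq, hqp⟩
      obtain ⟨b, hb, hc⟩ := h.SA.e1 q l (hql q hq hqp)
      rcases hc with ⟨n, h1, h2⟩ | ⟨n, h1, h2⟩
      · exact absurd ⟨b, hb, h2⟩ (LAM.la0 h X p q l n hp hq (fun e => hqp e.symm) hpl h1)
      · refine ⟨b, ⟨hb, ?_⟩, n, h1, h2⟩
        rintro rfl
        exact hno q b n X hqp h1 h2 hq hp) (by
      rintro q q' b ⟨hq, hqp⟩ ⟨hq', hqp'⟩ ⟨hb, -⟩ ⟨n, h1, h2⟩ ⟨n', h3, h4⟩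
      by_contra hne
      have hbq : b ≠ q := fun e => hql q hq hqp (e ▸ hb)
      have hbq' : b ≠ q' := fun e => hql q' hq' hqp' (e ▸ hb)
      have e := LAM.la1 h X q q' b n n' hq hq' hne hbq hbq' h1 h2 h3 h4
      subst e
      exact hno q q' n X hne h1 h3 hq hq')
  obtain ⟨q, ⟨hq, -⟩, m, hqm, hrm⟩ := hs r ⟨hrl, fun e => hr (e ▸ hp)⟩
  exact ⟨q, m, hq, hrm, hqm⟩

/-- (iii) -/
theorem uniqA (h : Two IH IA IB k)
    (hno : ∀ p p' m X, p ≠ p' → IA p m → IA p' m → IB p X → IB p' X → False) (X : B) (r : P)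
    (hr : ¬ IB r X) (p p' : P) (m m' : A) (hp : IB p X) (hp' : IB p' X) (hrm : IA r m)
    (hpm : IA p m) (hrm' : IA r m') (hpm' : IA p' m') : p = p' := by
  by_contra hne
  have e := LAM.la1 h X p p' r m m' hp hp' hne (fun e => hr (e ▸ hp)) (fun e => hr (e ▸ hp'))
    hpm hrm hpm' hrm'
  subst e
  exact hno p p' m X hne hpm hpm' hp hp'

theorem ex2 (h : Two IH IA IB k)
    (hno : ∀ p p' m X, p ≠ p' → IA p m → IA p' m → IB p X → IB p' X → False) (X : B) (r : P)
    (hr : ¬ IB r X) : ∃ p, IB p X ∧ Col IA IB r p := by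
  obtain ⟨p0, hp0, hc⟩ := h.SB.e2 r X hr
  rcases hc with ⟨l, h1, h2⟩ | ⟨Y, h1, h2⟩
  · obtain ⟨q, m, h3, h4, h5⟩ := toA h hno X r hr p0 l hp0 h1 h2
    exact ⟨q, h3, Or.inl ⟨m, h4, h5⟩⟩
  · exact ⟨p0, hp0, Or.inr ⟨Y, h1, h2⟩⟩

theorem mixed (h : Two IH IA IB k)
    (hno : ∀ p p' m X, p ≠ p' → IA p m → IA p' m → IB p X → IB p' X → False) (X : B) (r : P)
    (hr : ¬ IB r X) (p p' : P) (m : A) (Y : B) (hp : IB p X) (hp' : IB p' X) (hrm : IA r m)
    (hpm : IA p m) (hrY : IB r Y) (hpY : IB p' Y) : False := by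
  obtain ⟨q, l, h1, h2, h3⟩ := toH h hno X r hr p m hp hrm hpm
  have e : q = p' := h.SB.e2' r X q p' hr h1 (Or.inl ⟨l, h2, h3⟩) hp' (Or.inr ⟨Y, hrY, hpY⟩)
  subst e
  exact h.SB.u12 r q l Y (fun e => hr (e ▸ hp')) h2 h3 hrY hpY

theorem un2 (h : Two IH IA IB k)
    (hno : ∀ p p' m X, p ≠ p' → IA p m → IA p' m → IB p X → IB p' X → False) (X : B) (r : P)
    (hr : ¬ IB r X) (p p' : P) (hp : IB p X) (hc : Col IA IB r p) (hp' : IB p' X)
    (hc' : Col IA IB r p') : p = p' := by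
  rcases hc with ⟨m, h1, h2⟩ | ⟨Y, h1, h2⟩ <;> rcases hc' with ⟨m', h3, h4⟩ | ⟨Y', h3, h4⟩
  · exact uniqA h hno X r hr p p' m m' hp hp' h1 h2 h3 h4
  · exact (mixed h hno X r hr p p' m Y' hp hp' h1 h2 h3 h4).elim
  · exact (mixed h hno X r hr p' p m' Y hp' hp h3 h4 h1 h2).elim
  · exact h.SB.e2' r X p p' hr hp (Or.inr ⟨Y, h1, h2⟩) hp' (Or.inr ⟨Y', h3, h4⟩)

end G3M

theorem specG3 : SpecG3 := by
  intro P H A B _ _ _ _ IH IA IB k h hno
  have hno' : ∀ p p' (X : B) (m : A), p ≠ p' → IB p X → IB p' X → IA p m → IA p' m → False :=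
    fun p p' X m hne a b c d => hno p p' m X hne c d a b
  refine ⟨{
    ne := h.SA.ne
    c1 := h.SA.c2
    c2 := h.SB.c2
    d1 := h.SA.d2
    d2 := h.SB.d2
    u11 := h.SA.u22
    u22 := h.SB.u22
    u12 := fun p p' m X hne a b c d => hno p p' m X hne a b c d
    e1 := fun p m hp => (G3M.ex2 h.symm hno' m p hp).imp fun _ h' => ⟨h'.1, h'.2.swap⟩
    e1' := fun p m p' p'' hp a b c d => G3M.un2 h.symm hno' m p hp p' p'' a b.swap c d.swap
    e2 := fun p X hp => G3M.ex2 h hno X p hp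
    e2' := fun p X p' p'' hp a b c d => G3M.un2 h hno X p hp p' p'' a b c d }, ?_⟩
  intro X r hr
  refine ⟨⟨?_, ?_⟩, ?_⟩
  · rintro ⟨p, m, h1, h2, h3⟩
    exact G3M.toH h hno X r hr p m h1 h2 h3
  · rintro ⟨p, l, h1, h2, h3⟩
    exact G3M.toA h hno X r hr p l h1 h2 h3
  · intro p p' m m' h1 h2 h3 h4 h5 h6
    exact G3M.uniqA h hno X r hr p p' m m' h1 h2 h3 h4 h5 h6

end Pool.Agent.Lib.MP0ea612
end

section
/-!
# GL: the global dichotomy
-/
set_option autoImplicit false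

namespace Pool.Agent.Lib.MP0ea612

namespace GLM

/-- a sum of indicators which is at least two has two terms -/
theorem exists_two {α : Type} [Fintype α] (p : α → Prop) (h : 2 ≤ ∑ a, ind (p a)) :
    ∃ a b, a ≠ b ∧ p a ∧ p b := by
  obtain ⟨a, ha⟩ := exists_of_sum_ind_pos (p := p) (by linarith)
  by_contra hne
  push Not at hne
  have : ∑ b, ind (p b) = 1 := sum_ind_of_unique p a ha fun b hb => by
    by_contra hba
    exact hne b a hba hb ha
  linarith

theorem KK_ge {k : ℤ} (hk : 1 ≤ k) : 10 ≤ KK k := by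
  unfold KK; nlinarith

end GLM

theorem specGL (hDX : SpecDX) (hLA : SpecLA) (hPR : SpecPR) : SpecGL := by
  intro P H A B _ _ _ _ IH IA IB k h
  classical
  by_cases hsec : ∀ p p' m X, p ≠ p' → IA p m → IA p' m → IB p X → IB p' X → False
  · exact Or.inr hsec
  left
  push Not at hsec
  obtain ⟨p0, p0', m0, X0, hne0, ha0, ha0', hb0, hb0', -⟩ := hsec
  have hK := GLM.KK_ge h.hk
  have h0 : ∀ b, IB b X0 ↔ IA b m0 := hDX IH IA IB k h X0 m0 p0 p0' hne0 hb0 ha0 hb0' ha0'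
  -- the claim
  have claim : ∀ X X' : B, (∃ m, ∀ b, IB b X ↔ IA b m) → ∀ p, IB p X → IB p X' →
      ∃ m, ∀ b, IB b X' ↔ IA b m := by
    rintro X X' ⟨m, hm⟩ p hpX hpX'
    by_contra hbad
    have hXX : X ≠ X' := by
      rintro rfl
      exact hbad ⟨m, hm⟩
    have star : ∀ n q q', q ≠ q' → IB q X' → IA q n → IB q' X' → IA q' n → False := by
      intro n q q' hne h1 h2 h3 h4
      exact hbad ⟨n, hDX IH IA IB k h X' n q q' hne h1 h2 h3 h4⟩
    obtain ⟨q, hqp, hqX'⟩ : ∃ q, q ≠ p ∧ IB q X' := by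
      obtain ⟨a, b, hab, h1, h2⟩ := GLM.exists_two (fun q => IB q X')
        (by rw [h.SB.c2 X']; linarith)
      by_cases hap : a = p
      · exact ⟨b, fun hbp => hab (hap.trans hbp.symm), h2⟩
      · exact ⟨a, hap, h1⟩
    have hqX : ¬ IB q X := fun hq => hXX (h.SB.u22 p q X X' hqp.symm hpX hq hpX' hqX')
    have hqm : ¬ IA q m := fun hq => hqX ((hm q).2 hq)
    obtain ⟨b, hbm, hcol⟩ := h.SA.e2 q m hqm
    have hbX : IB b X := (hm b).2 hbm
    by_cases hbp : b = p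
    · subst hbp
      rcases hcol with ⟨n, h1, h2⟩ | ⟨n, h1, h2⟩
      · exact h.SB.u12 q b n X' hqp h1 h2 hqX' hpX'
      · exact star n q b hqp hqX' h1 hpX' h2
    · rcases hcol with ⟨n, h1, h2⟩ | ⟨n, h1, h2⟩
      · exact hbp (h.SB.e2' q X b p hqX hbX (Or.inl ⟨n, h1, h2⟩) hpX (Or.inr ⟨X', hqX', hpX'⟩))
      · have hbq : b ≠ q := fun e => hqX (e ▸ hbX)
        have := (hLA IH IA IB k h X').2.1 p q b m n hpX' hqX' hqp.symm hbp hbq
          ((hm p).1 hpX) hbm h1 h2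
        subst this
        exact hqm h1
  have all : ∀ X : B, ∃ m, ∀ b, IB b X ↔ IA b m := by
    intro X
    by_cases hX : Mt IB IB X X0
    · obtain ⟨p, h1, h2⟩ := hX
      exact claim X0 X ⟨m0, h0⟩ p h2 h1
    · have h8 := (hPR IB IH k h.hk h.SB.symm).2.2.2.2.2.2.2 X X0 hX
      have hk := h.hk
      obtain ⟨Z, ⟨a, ha1, ha2⟩, ⟨b, hb1, hb2⟩⟩ := exists_of_sum_ind_pos
        (p := fun z => Mt IB IB z X ∧ Mt IB IB z X0) (by rw [h8]; positivity)
      have hZ := claim X0 Z ⟨m0, h0⟩ b hb2 hb1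
      exact claim Z X hZ a ha1 ha2
  choose f hf using all
  have finj : Function.Injective f := by
    intro X X' hXX
    obtain ⟨a, b, hab, h1, h2⟩ := GLM.exists_two (fun q => IB q X)
      (by rw [h.SB.c2 X]; linarith)
    have key : ∀ c, IB c X → IB c X' := fun c hc => (hf X' c).2 (hXX ▸ (hf X c).1 hc)
    exact h.SB.u22 a b X X' hab h1 h2 (key a h1) (key b h2)
  have hcard : Fintype.card B = Fintype.card A := by
    have e1 := (hPR IH IA k h.hk h.SA).2.2.2.2.2.1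
    have e2 := (hPR IH IB k h.hk h.SB).2.2.2.2.2.1
    have : (Fintype.card B : ℤ) = (Fintype.card A : ℤ) := by
      have c1 : (∑ _y : A, (1 : ℤ)) = (Fintype.card A : ℤ) := by simp
      have c2 : (∑ _y : B, (1 : ℤ)) = (Fintype.card B : ℤ) := by simp
      rw [← c1, ← c2, e1, e2]
    exact_mod_cast this
  have fbij : Function.Bijective f := (Fintype.bijective_iff_injective_and_card f).2 ⟨finj, hcard⟩
  refine ⟨(Equiv.ofBijective f fbij).symm, fun p m => ?_⟩
  have e := hf ((Equiv.ofBijective f fbij).symm m) p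
  have e2 : f ((Equiv.ofBijective f fbij).symm m) = m :=
    (Equiv.ofBijective f fbij).apply_symm_apply m
  rw [e2] at e
  exact e.symm

end Pool.Agent.Lib.MP0ea612
end

section
/-!
# Hemisystem graphs, module LB: the lower bound for the lines without a point on `X`
-/
set_option autoImplicit false

namespace Pool.Agent.Lib.MP0ea612

namespace LBM

theorem sum_ind_le_one {α : Type} [Fintype α] (p : α → Prop) (h : ∀ a b, p a → p b → a = b) :
    ∑ a, ind (p a) ≤ 1 := by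
  by_cases hex : ∃ a, p a
  · obtain ⟨a, ha⟩ := hex
    exact (sum_ind_of_unique p a ha fun b hb => h b a hb ha).le
  · push Not at hex
    rw [sum_ind_eq_zero p hex]
    norm_num

theorem tangent (θ η t : ℤ) (h : 0 ≤ θ - η - 2 * t) :
    t ^ 2 * (θ - t) + (2 * θ * t - 3 * t ^ 2) * (η - t) ≤ η ^ 2 * (θ - η) := by
  have h1 : 0 ≤ (η - t) ^ 2 * (θ - η - 2 * t) := mul_nonneg (sq_nonneg _) h
  nlinarith

end LBM

open FTM LBM

/-- LB -/
theorem specLB (hCV : SpecCV) (hFT : SpecFT) (hLA : SpecLA) : SpecLB := by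
  intro P H A B _ _ _ _ IH IA IB k h X
  obtain ⟨-, cv2, cv3, -, -, -, -, cv8⟩ := hCV IH IA IB k h X
  obtain ⟨-, -, -, -, -, la4⟩ := hLA IH IA IB k h X
  have hk := h.hk
  have hK : KK k = 2 * hh k := by unfold KK hh; ring
  have hth : th k = hh k + k := by unfold th hh; ring
  have E0 : ∀ m, kap IA IB X m = 0 → 0 ≤ EE k IH IA IB X m := by
    intro m hm
    have h1 := cv2 m hm
    unfold EE
    exact mul_nonneg (sq_nonneg _) (by linarith)
  have L1 : ∀ m1, 2 ≤ kap IA IB X m1 → ∀ b, IA b m1 → ¬ IB b X →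
      k * (kap IA IB X m1 - 1) ^ 2 * (th k + kap IA IB X m1 - 1) ≤
        ∑ m, ind (IA b m ∧ m ≠ m1) * EE k IH IA IB X m := by
    intro m1 hm1 b hb hbX
    obtain ⟨f1, f2⟩ := hFT IH IA IB k h X m1 hm1 b hb hbX
    set κ := kap IA IB X m1 with hκ
    have N1 : ∑ m, ind (IA b m ∧ m ≠ m1) = k := by
      have e1 := sum_ind_split (fun m => IA b m) (fun m => m = m1)
      have e2 : ∑ m, ind (IA b m ∧ m = m1) = 1 :=
        sum_ind_of_unique _ m1 ⟨hb, rfl⟩ fun m hm => hm.2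
      have e3 := h.SA.d2 b
      have e4 : ∑ m, ind (IA b m ∧ m ≠ m1) = ∑ m, ind (IA b m ∧ ¬ m = m1) := rfl
      linarith
    have N2 : ∑ m, ind (IA b m ∧ m ≠ m1) * cc IH IA IB X m =
        2 * (k + 1) ^ 3 - (κ * (k + 1) + (KK k - κ)) := by
      have e1 : ∑ m, ind (IA b m) * cc IH IA IB X m =
          ∑ m, ind (IA b m ∧ m ≠ m1) * cc IH IA IB X m + ∑ m, ind (m = m1) * cc IH IA IB X m := by
        rw [← Finset.sum_add_distrib]
        refine Finset.sum_congr rfl fun m _ => ?_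
        by_cases hmm : m = m1
        · subst hmm
          rw [ind_pos hb, ind_pos rfl, ind_neg (fun h' => h'.2 rfl : ¬ (IA b m ∧ m ≠ m))]
          ring
        · rw [ind_neg hmm, ind_and, ind_pos hmm]
          ring
      have e2 : ∑ m, ind (m = m1) * cc IH IA IB X m = cc IH IA IB X m1 := by
        rw [Finset.sum_eq_single m1]
        · rw [ind_pos rfl, one_mul]
        · intro m _ hm
          rw [ind_neg hm, zero_mul]
        · intro h'
          exact absurd (Finset.mem_univ _) h'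
      have e3 := cv3 m1 hm1
      rw [← hκ] at e3
      linarith
    have T : ∀ m, ind (IA b m ∧ m ≠ m1) * ((1 - κ) ^ 2 * (th k - (1 - κ)) +
        (2 * th k * (1 - κ) - 3 * (1 - κ) ^ 2) * (cc IH IA IB X m - hh k - (1 - κ))) ≤
        ind (IA b m ∧ m ≠ m1) * EE k IH IA IB X m := by
      intro m
      by_cases hm : IA b m ∧ m ≠ m1
      · refine mul_le_mul_of_nonneg_left ?_ (ind_nonneg _)
        have h1 := cv2 m (f1 m hm.1 hm.2)
        exact tangent (th k) (cc IH IA IB X m - hh k) (1 - κ) (by linarith)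
      · rw [ind_neg hm, zero_mul, zero_mul]
    have S := Finset.sum_le_sum fun m (_ : m ∈ Finset.univ) => T m
    have e5 : ∑ m, ind (IA b m ∧ m ≠ m1) * ((1 - κ) ^ 2 * (th k - (1 - κ)) +
        (2 * th k * (1 - κ) - 3 * (1 - κ) ^ 2) * (cc IH IA IB X m - hh k - (1 - κ))) =
        (∑ m, ind (IA b m ∧ m ≠ m1)) * ((1 - κ) ^ 2 * (th k - (1 - κ)) -
          (2 * th k * (1 - κ) - 3 * (1 - κ) ^ 2) * (hh k + (1 - κ))) +
        (2 * th k * (1 - κ) - 3 * (1 - κ) ^ 2) *
          ∑ m, ind (IA b m ∧ m ≠ m1) * cc IH IA IB X m := by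
      rw [Finset.mul_sum, Finset.sum_mul, ← Finset.sum_add_distrib]
      refine Finset.sum_congr rfl fun m _ => ?_
      ring
    rw [e5, N1, N2] at S
    refine le_trans (le_of_eq ?_) S
    unfold th hh KK
    ring
  have L2 : ∑ m1, ind (2 ≤ kap IA IB X m1) * kap IA IB X m1 ≤ KK k := by
    have e1 : ∑ m1, ind (2 ≤ kap IA IB X m1) * kap IA IB X m1 =
        ∑ p, ind (IB p X) * ∑ m1, ind (2 ≤ kap IA IB X m1 ∧ IA p m1) := by
      have e2 : ∀ m1, ind (2 ≤ kap IA IB X m1) * kap IA IB X m1 =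
          ∑ p, ind (IB p X) * ind (2 ≤ kap IA IB X m1 ∧ IA p m1) := by
        intro m1
        conv_lhs => rw [kap, Finset.mul_sum]
        refine Finset.sum_congr rfl fun p _ => ?_
        rw [ind_and, ind_and]
        unfold kap
        ring
      rw [Finset.sum_congr rfl fun m1 _ => e2 m1, Finset.sum_comm]
      exact Finset.sum_congr rfl fun p _ => (Finset.mul_sum _ _ _).symm
    rw [e1, ← h.SB.c2 X]
    refine Finset.sum_le_sum fun p _ => ?_
    by_cases hp : IB p X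
    · rw [ind_pos hp, one_mul]
      refine sum_ind_le_one _ ?_
      rintro m m' ⟨h1, h2⟩ ⟨h3, h4⟩
      have key : ∀ m, 2 ≤ kap IA IB X m → ∃ p', p ≠ p' ∧ IB p' X ∧ IA p' m := by
        intro m hm
        obtain ⟨a, a', haa, ha, ha'⟩ := two_of_sum hm
        by_cases hpa : p = a
        · exact ⟨a', fun h' => haa (hpa.symm.trans h'), ha'⟩
        · exact ⟨a, hpa, ha⟩
      obtain ⟨p', h5, h6, h7⟩ := key m h1
      obtain ⟨p'', h8, h9, h10⟩ := key m' h3
      exact la4 m m' p p' p'' h5 hp h2 h6 h7 h8 h4 h9 h10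
    · rw [ind_neg hp, zero_mul]
  have L3 : ∀ m1, 2 ≤ kap IA IB X m1 → (KK k - kap IA IB X m1) *
      (k * (kap IA IB X m1 - 1) ^ 2 * (th k + kap IA IB X m1 - 1)) ≤
        ∑ m, ind (kap IA IB X m = 0 ∧ Mt IA IA m1 m) * EE k IH IA IB X m := by
    intro m1 hm1
    have e1 : KK k - kap IA IB X m1 = ∑ b, ind (IA b m1 ∧ ¬ IB b X) := by
      have e2 := sum_ind_split (fun b => IA b m1) (fun b => IB b X)
      have e3 : ∑ b, ind (IA b m1 ∧ IB b X) = kap IA IB X m1 :=
        Finset.sum_congr rfl fun b _ => ind_congr and_comm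
      have e4 := h.SA.c2 m1
      linarith
    rw [e1, Finset.sum_mul]
    have e5 : ∑ b, ind (IA b m1 ∧ ¬ IB b X) *
        (k * (kap IA IB X m1 - 1) ^ 2 * (th k + kap IA IB X m1 - 1)) ≤
        ∑ b, ind (IA b m1 ∧ ¬ IB b X) * ∑ m, ind (IA b m ∧ m ≠ m1) * EE k IH IA IB X m := by
      refine Finset.sum_le_sum fun b _ => ?_
      by_cases hb : IA b m1 ∧ ¬ IB b X
      · exact mul_le_mul_of_nonneg_left (L1 m1 hm1 b hb.1 hb.2) (ind_nonneg _)
      · rw [ind_neg hb, zero_mul, zero_mul]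
    refine e5.trans ?_
    have e6 : ∑ b, ind (IA b m1 ∧ ¬ IB b X) * ∑ m, ind (IA b m ∧ m ≠ m1) * EE k IH IA IB X m =
        ∑ m, (∑ b, ind ((IA b m1 ∧ ¬ IB b X) ∧ IA b m ∧ m ≠ m1)) * EE k IH IA IB X m := by
      simp_rw [Finset.mul_sum, Finset.sum_mul]
      rw [Finset.sum_comm]
      refine Finset.sum_congr rfl fun m _ => Finset.sum_congr rfl fun b _ => ?_
      rw [ind_and (IA b m1 ∧ ¬ IB b X)]
      ring
    rw [e6]
    refine Finset.sum_le_sum fun m _ => ?_
    by_cases hex : ∃ b, (IA b m1 ∧ ¬ IB b X) ∧ IA b m ∧ m ≠ m1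
    · obtain ⟨b, ⟨h1, h2⟩, h3, h4⟩ := hex
      have h5 : kap IA IB X m = 0 := (hFT IH IA IB k h X m1 hm1 b h1 h2).1 m h3 h4
      have h6 : ∑ b, ind ((IA b m1 ∧ ¬ IB b X) ∧ IA b m ∧ m ≠ m1) = 1 := by
        refine sum_ind_of_unique _ b ⟨⟨h1, h2⟩, h3, h4⟩ ?_
        rintro b' ⟨⟨h7, -⟩, h8, -⟩
        by_contra hne
        exact h4 (h.SA.u22 b' b m m1 hne h8 h3 h7 h1)
      rw [h6, ind_pos (⟨h5, b, h1, h3⟩ : kap IA IB X m = 0 ∧ Mt IA IA m1 m)]
    · push Not at hex
      rw [sum_ind_eq_zero _ fun b hb => hb.2.2 (hex b hb.1 hb.2.1), zero_mul]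
      by_cases h7 : kap IA IB X m = 0 ∧ Mt IA IA m1 m
      · exact mul_nonneg (ind_nonneg _) (E0 m h7.1)
      · rw [ind_neg h7, zero_mul]
  -- the end
  have M1 : ∑ m, ind (2 ≤ kap IA IB X m) * (kap IA IB X m * (KK k - kap IA IB X m) * k *
      (kap IA IB X m - 1) ^ 2 * (th k + kap IA IB X m - 1)) ≤
      ∑ m1, ind (2 ≤ kap IA IB X m1) * kap IA IB X m1 *
        ∑ m, ind (kap IA IB X m = 0 ∧ Mt IA IA m1 m) * EE k IH IA IB X m := by
    refine Finset.sum_le_sum fun m1 _ => ?_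
    by_cases h1 : 2 ≤ kap IA IB X m1
    · have h2 := mul_le_mul_of_nonneg_left (L3 m1 h1) (by linarith : 0 ≤ kap IA IB X m1)
      rw [ind_pos h1]
      linarith
    · rw [ind_neg h1]
      simp
  refine M1.trans ?_
  have M2 : ∑ m1, ind (2 ≤ kap IA IB X m1) * kap IA IB X m1 *
        ∑ m, ind (kap IA IB X m = 0 ∧ Mt IA IA m1 m) * EE k IH IA IB X m =
      ∑ m, (∑ m1, ind (2 ≤ kap IA IB X m1) * kap IA IB X m1 * ind (Mt IA IA m1 m)) *
        (ind (kap IA IB X m = 0) * EE k IH IA IB X m) := by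
    simp_rw [Finset.mul_sum, Finset.sum_mul]
    rw [Finset.sum_comm]
    refine Finset.sum_congr rfl fun m _ => Finset.sum_congr rfl fun m1 _ => ?_
    rw [ind_and]
    ring
  rw [M2, Finset.mul_sum]
  refine Finset.sum_le_sum fun m _ => ?_
  by_cases hm : kap IA IB X m = 0
  · refine mul_le_mul_of_nonneg_right ?_ (mul_nonneg (ind_nonneg _) (E0 m hm))
    refine le_trans (Finset.sum_le_sum fun m1 _ => ?_) L2
    have h1 : 0 ≤ ind (2 ≤ kap IA IB X m1) * kap IA IB X m1 :=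
      mul_nonneg (ind_nonneg _) (cv8 m1).1
    calc ind (2 ≤ kap IA IB X m1) * kap IA IB X m1 * ind (Mt IA IA m1 m)
        ≤ ind (2 ≤ kap IA IB X m1) * kap IA IB X m1 * 1 :=
          mul_le_mul_of_nonneg_left (ind_le_one _) h1
      _ = _ := mul_one _
  · rw [ind_neg hm]
    simp

end Pool.Agent.Lib.MP0ea612
end

section
/-!
# Module `MO`: the moment identity
-/
set_option autoImplicit false

namespace Pool.Agent.Lib.MP0ea612

namespace MOM

section general

variable {P : Type} [Fintype P]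

theorem sum_ind_eq (a : P) (F : P → ℤ) : ∑ b, ind (a = b) * F b = F a := by
  classical
  rw [Finset.sum_eq_single a (fun b _ hb => by rw [ind_neg (Ne.symm hb), zero_mul])
    (fun h => absurd (Finset.mem_univ a) h), ind_pos rfl, one_mul]

/-- sums over pairs of different elements -/
theorem sum_pair (S : P → Prop) (u v : P → ℤ) :
    ∑ p, ∑ p', ind (S p ∧ S p' ∧ p ≠ p') * (u p * v p') =
      (∑ p, ind (S p) * u p) * (∑ p, ind (S p) * v p) - ∑ p, ind (S p) * (u p * v p) := by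
  have h1 : ∀ p, ∑ p', ind (S p ∧ S p' ∧ p ≠ p') * (u p * v p') =
      ind (S p) * u p * (∑ p, ind (S p) * v p) - ind (S p) * (u p * v p) := by
    intro p
    have h2 : ∀ p', ind (S p ∧ S p' ∧ p ≠ p') * (u p * v p') =
        ind (S p) * u p * (ind (S p') * v p') -
          ind (p = p') * (ind (S p) * u p * (ind (S p') * v p')) := by
      intro p'
      rw [ind_and, ind_and, ind_not]
      ring
    rw [Finset.sum_congr rfl fun p' _ => h2 p', Finset.sum_sub_distrib, sum_ind_eq,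
      ← Finset.mul_sum]
    have h3 := ind_sq (S p)
    linear_combination (-(u p * v p)) * h3
  rw [Finset.sum_congr rfl fun p _ => h1 p, Finset.sum_sub_distrib, Finset.sum_mul]

/-- sums over triples of different elements -/
theorem sum_triple (S : P → Prop) (e : P → ℤ) :
    ∑ p, ∑ p', ∑ p'', ind (S p ∧ S p' ∧ S p'' ∧ p ≠ p' ∧ p ≠ p'' ∧ p' ≠ p'') *
        (e p * e p' * e p'') =
      (∑ p, ind (S p) * e p) ^ 3 - 3 * (∑ p, ind (S p) * e p) * (∑ p, ind (S p) * e p ^ 2) +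
        2 * ∑ p, ind (S p) * e p ^ 3 := by
  set c := ∑ p, ind (S p) * e p with hc
  have h1 : ∀ p p', ∑ p'', ind (S p ∧ S p' ∧ S p'' ∧ p ≠ p' ∧ p ≠ p'' ∧ p' ≠ p'') *
        (e p * e p' * e p'') =
      ind (S p ∧ S p' ∧ p ≠ p') * (c * e p * e p') - ind (S p ∧ S p' ∧ p ≠ p') * (e p ^ 2 * e p')
        - ind (S p ∧ S p' ∧ p ≠ p') * (e p * e p' ^ 2) := by
    intro p p'
    by_cases h2 : S p ∧ S p' ∧ p ≠ p'
    · have h3 : ∀ p'', ind (S p ∧ S p' ∧ S p'' ∧ p ≠ p' ∧ p ≠ p'' ∧ p' ≠ p'') *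
          (e p * e p' * e p'') = e p * e p' * (ind (S p'') * e p'') -
          ind (p = p'') * (e p * e p' * (ind (S p'') * e p'')) -
          ind (p' = p'') * (e p * e p' * (ind (S p'') * e p'')) := by
        intro p''
        rw [ind_and, ind_and, ind_and, ind_and, ind_and, ind_pos h2.1, ind_pos h2.2.1,
          ind_pos h2.2.2, ind_not, ind_not]
        have h4 : ind (p = p'') * ind (p' = p'') = 0 := by
          rw [← ind_and]
          exact ind_neg fun h => h2.2.2 (h.1.trans h.2.symm)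
        linear_combination (e p * e p' * (ind (S p'') * e p'')) * h4
      rw [Finset.sum_congr rfl fun p'' _ => h3 p'', Finset.sum_sub_distrib,
        Finset.sum_sub_distrib, sum_ind_eq, sum_ind_eq, ← Finset.mul_sum, ← hc, ind_pos h2,
        ind_pos h2.1, ind_pos h2.2.1]
      ring
    · rw [ind_neg h2, Finset.sum_eq_zero fun p'' _ => ?_]
      · ring
      · rw [ind_neg (fun h => h2 ⟨h.1, h.2.1, h.2.2.2.1⟩), zero_mul]
  have h2 : ∀ p, ∑ p', ∑ p'', ind (S p ∧ S p' ∧ S p'' ∧ p ≠ p' ∧ p ≠ p'' ∧ p' ≠ p'') *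
        (e p * e p' * e p'') = ∑ p', ind (S p ∧ S p' ∧ p ≠ p') * ((c * e p) * e p') -
        ∑ p', ind (S p ∧ S p' ∧ p ≠ p') * (e p ^ 2 * e p') -
        ∑ p', ind (S p ∧ S p' ∧ p ≠ p') * (e p * e p' ^ 2) := by
    intro p
    rw [Finset.sum_congr rfl fun p' _ => h1 p p', Finset.sum_sub_distrib, Finset.sum_sub_distrib]
  rw [Finset.sum_congr rfl fun p _ => h2 p, Finset.sum_sub_distrib, Finset.sum_sub_distrib,
    sum_pair S (fun p => c * e p) e, sum_pair S (fun p => e p ^ 2) e,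
    sum_pair S e (fun p => e p ^ 2)]
  have h3 : ∑ p, ind (S p) * (c * e p) = c * c := by
    rw [hc, Finset.mul_sum]
    exact Finset.sum_congr rfl fun p _ => by ring
  have h4 : ∑ p, ind (S p) * (c * e p * e p) = c * ∑ p, ind (S p) * e p ^ 2 := by
    rw [Finset.mul_sum]
    exact Finset.sum_congr rfl fun p _ => by ring
  have h5 : ∑ p, ind (S p) * (e p ^ 2 * e p) = ∑ p, ind (S p) * e p ^ 3 :=
    Finset.sum_congr rfl fun p _ => by ring
  have h6 : ∑ p, ind (S p) * (e p * e p ^ 2) = ∑ p, ind (S p) * e p ^ 3 :=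
    Finset.sum_congr rfl fun p _ => by ring
  rw [h3, h4, h5, h6, ← hc]
  ring

end general

end MOM

open MOM in
theorem specMO (hPR : SpecPR) (hTA : SpecTA) (hTB : SpecTB) (hTC : SpecTC) : SpecMO := by
  intro P H A B _ _ _ _ IH IA IB k T X
  obtain ⟨-, -, -, -, -, hcard, -, -⟩ := hPR IH IA k T.hk T.SA
  obtain ⟨ta1, ta2, ta3, ta4, ta5⟩ := hTA IH IA IB k T X
  obtain ⟨tb1, tb2⟩ := hTB IH IA IB k T X
  have tc := hTC IH IA IB k T X
  have hX : ∑ p, ind (IB p X) = KK k := T.SB.c2 X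
  -- abbreviations
  set S : P → Prop := fun p => IB p X with hS
  set c : A → ℤ := fun m => cc IH IA IB X m with hc
  set κ : A → ℤ := fun m => kap IA IB X m with hκ
  set e : P → A → ℤ := fun p m => ee IH IA p m with he
  have hκ' : ∀ m, κ m = ∑ p, ind (S p) * ind (IA p m) := fun m =>
    Finset.sum_congr rfl fun p _ => ind_and _ _
  have hc' : ∀ m, c m = ∑ p, ind (S p) * e p m := fun m => ta5 m
  -- second and third power sums
  have hS2 : ∀ m, ∑ p, ind (S p) * e p m ^ 2 = c m + κ m * (k * (k + 1)) := by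
    intro m
    rw [hκ', hc', Finset.sum_mul, ← Finset.sum_add_distrib]
    refine Finset.sum_congr rfl fun p _ => ?_
    by_cases h : IA p m
    · rw [show e p m = k + 1 from (ta4 p m).1 h, ind_pos h]
      ring
    · rw [ind_neg h]
      rcases (ta4 p m).2 h with h1 | h1
      · rw [show e p m = 0 from h1]; ring
      · rw [show e p m = 1 from h1]; ring
  have hS3 : ∀ m, ∑ p, ind (S p) * e p m ^ 3 = c m + κ m * ((k + 1) ^ 3 - (k + 1)) := by
    intro m
    rw [hκ', hc', Finset.sum_mul, ← Finset.sum_add_distrib]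
    refine Finset.sum_congr rfl fun p _ => ?_
    by_cases h : IA p m
    · rw [show e p m = k + 1 from (ta4 p m).1 h, ind_pos h]
      ring
    · rw [ind_neg h]
      rcases (ta4 p m).2 h with h1 | h1
      · rw [show e p m = 0 from h1]; ring
      · rw [show e p m = 1 from h1]; ring
  have hSa : ∀ m, ∑ p, ind (S p) * (ind (IA p m) * e p m) = κ m * (k + 1) := by
    intro m
    rw [hκ', Finset.sum_mul]
    refine Finset.sum_congr rfl fun p _ => ?_
    by_cases h : IA p m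
    · rw [show e p m = k + 1 from (ta4 p m).1 h, ind_pos h]
      ring
    · rw [ind_neg h]
      ring
  -- the three sums over different points
  have e1 : ∀ m, ∑ p, ∑ p', ind (S p ∧ S p' ∧ p ≠ p') * (e p m * e p' m) =
      c m ^ 2 - (c m + κ m * (k * (k + 1))) := by
    intro m
    rw [sum_pair S (fun p => e p m) (fun p => e p m), ← hc', ← hS2]
    rw [show ∑ p, ind (S p) * (e p m * e p m) = ∑ p, ind (S p) * e p m ^ 2 from
      Finset.sum_congr rfl fun p _ => by ring]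
    ring
  have e2 : ∀ m, ∑ p, ∑ p', ind (S p ∧ S p' ∧ p ≠ p') * (ind (IA p m) * e p' m) =
      κ m * c m - κ m * (k + 1) := by
    intro m
    rw [sum_pair S (fun p => ind (IA p m)) (fun p => e p m), ← hc', ← hκ', hSa]
  have e3 : ∀ m, ∑ p, ∑ p', ∑ p'', ind (S p ∧ S p' ∧ S p'' ∧ p ≠ p' ∧ p ≠ p'' ∧ p' ≠ p'') *
      (e p m * e p' m * e p'' m) =
      c m ^ 3 - 3 * c m * (c m + κ m * (k * (k + 1))) +
        2 * (c m + κ m * ((k + 1) ^ 3 - (k + 1))) := by
    intro m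
    rw [sum_triple S (fun p => e p m), ← hc', hS2, hS3]
  -- number of pairs and of triples
  have n2 : ∑ p, ∑ p', ind (S p ∧ S p' ∧ p ≠ p') = KK k ^ 2 - KK k := by
    have h := sum_pair S (fun _ => 1) (fun _ => 1)
    simp only [mul_one] at h
    rw [h, hX]
    ring
  have n3 : ∑ p, ∑ p', ∑ p'', ind (S p ∧ S p' ∧ S p'' ∧ p ≠ p' ∧ p ≠ p'' ∧ p' ≠ p'') =
      KK k ^ 3 - 3 * KK k * KK k + 2 * KK k := by
    have h := sum_triple S (fun _ => 1)
    simp only [mul_one, one_pow] at h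
    rw [h, hX]
  -- sum over `m`
  have f1 : ∑ m, (c m ^ 2 - (c m + κ m * (k * (k + 1)))) =
      (KK k ^ 2 - KK k) * (2 * (k + 1) ^ 4) := by
    rw [← Finset.sum_congr rfl fun m _ => e1 m, Finset.sum_comm]
    rw [← n2, Finset.sum_mul]
    refine Finset.sum_congr rfl fun p _ => ?_
    rw [Finset.sum_comm, Finset.sum_mul]
    refine Finset.sum_congr rfl fun p' _ => ?_
    rw [← Finset.mul_sum]
    by_cases h : S p ∧ S p' ∧ p ≠ p'
    · rw [tb1 p p' h.1 h.2.1 h.2.2]
    · rw [ind_neg h, zero_mul, zero_mul]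
  have f2 : ∑ m, (κ m * c m - κ m * (k + 1)) = (KK k ^ 2 - KK k) * (k + 1) := by
    rw [← Finset.sum_congr rfl fun m _ => e2 m, Finset.sum_comm]
    rw [← n2, Finset.sum_mul]
    refine Finset.sum_congr rfl fun p _ => ?_
    rw [Finset.sum_comm, Finset.sum_mul]
    refine Finset.sum_congr rfl fun p' _ => ?_
    rw [← Finset.mul_sum]
    by_cases h : S p ∧ S p' ∧ p ≠ p'
    · rw [ta3 p p' h.1 h.2.1 h.2.2]
    · rw [ind_neg h, zero_mul, zero_mul]
  have f3 : ∑ m, (c m ^ 3 - 3 * c m * (c m + κ m * (k * (k + 1))) +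
        2 * (c m + κ m * ((k + 1) ^ 3 - (k + 1)))) =
      (KK k ^ 3 - 3 * KK k * KK k + 2 * KK k) * (2 * (k + 1) ^ 4) -
        ((k + 1) * ((2 * k + 1) ^ 3 + 1) - KK k * (k + 1)) *
          (hh k * (hh k - 1) * (hh k - 2)) := by
    rw [← Finset.sum_congr rfl fun m _ => e3 m, ← tc, ← n3, Finset.sum_comm, Finset.sum_mul,
      ← Finset.sum_sub_distrib]
    refine Finset.sum_congr rfl fun p _ => ?_
    rw [Finset.sum_comm, Finset.sum_mul, ← Finset.sum_sub_distrib]
    refine Finset.sum_congr rfl fun p' _ => ?_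
    rw [Finset.sum_comm, Finset.sum_mul, ← Finset.sum_sub_distrib]
    refine Finset.sum_congr rfl fun p'' _ => ?_
    rw [← Finset.mul_sum]
    by_cases h : S p ∧ S p' ∧ S p'' ∧ p ≠ p' ∧ p ≠ p'' ∧ p' ≠ p''
    · rw [tb2 p p' p'' h.1 h.2.1 h.2.2.1 h.2.2.2.1 h.2.2.2.2.1 h.2.2.2.2.2]
      rw [ind_pos h]
      ring
    · rw [ind_neg h]
      ring
  -- expand
  have g1 : ∑ m, (c m ^ 2 - (c m + κ m * (k * (k + 1)))) =
      ∑ m, c m ^ 2 - ∑ m, c m - (∑ m, κ m) * (k * (k + 1)) := by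
    rw [Finset.sum_sub_distrib, Finset.sum_add_distrib, ← Finset.sum_mul]
    ring
  have g2 : ∑ m, (κ m * c m - κ m * (k + 1)) = ∑ m, κ m * c m - (∑ m, κ m) * (k + 1) := by
    rw [Finset.sum_sub_distrib, ← Finset.sum_mul]
  have g3 : ∑ m, (c m ^ 3 - 3 * c m * (c m + κ m * (k * (k + 1))) +
        2 * (c m + κ m * ((k + 1) ^ 3 - (k + 1)))) =
      ∑ m, c m ^ 3 - 3 * ∑ m, c m ^ 2 - 3 * (k * (k + 1)) * ∑ m, κ m * c m + 2 * ∑ m, c m +
        2 * ((k + 1) ^ 3 - (k + 1)) * ∑ m, κ m := by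
    rw [Finset.mul_sum, Finset.mul_sum, Finset.mul_sum, Finset.mul_sum,
      ← Finset.sum_sub_distrib, ← Finset.sum_sub_distrib, ← Finset.sum_add_distrib,
      ← Finset.sum_add_distrib]
    exact Finset.sum_congr rfl fun m _ => by ring
  have g4 : ∑ m, EE k IH IA IB X m = - ∑ m, c m ^ 3 + (th k + hh k + 2 * hh k) * ∑ m, c m ^ 2 -
      (2 * hh k * (th k + hh k) + hh k ^ 2) * ∑ m, c m +
        hh k ^ 2 * (th k + hh k) * ∑ _m : A, (1 : ℤ) := by
    rw [Finset.mul_sum, Finset.mul_sum, Finset.mul_sum, ← Finset.sum_neg_distrib,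
      ← Finset.sum_add_distrib, ← Finset.sum_sub_distrib, ← Finset.sum_add_distrib]
    refine Finset.sum_congr rfl fun m _ => ?_
    change (c m - hh k) ^ 2 * (th k - (c m - hh k)) = _
    ring
  have ta1' : ∑ m, c m = (KK k * (k + 1)) ^ 2 := ta1
  have ta2' : ∑ m, κ m = KK k * (k + 1) := ta2
  rw [g1, ta1', ta2'] at f1
  rw [g2, ta2'] at f2
  rw [g3, ta1', ta2'] at f3
  rw [g4, ta1', hcard]
  have k2 : ∑ m, c m ^ 2 = (KK k ^ 2 - KK k) * (2 * (k + 1) ^ 4) + (KK k * (k + 1)) ^ 2 +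
      KK k * (k + 1) * (k * (k + 1)) := by linear_combination f1
  have k1 : ∑ m, κ m * c m = (KK k ^ 2 - KK k) * (k + 1) + KK k * (k + 1) * (k + 1) := by
    linear_combination f2
  rw [k2, k1] at f3
  rw [k2]
  unfold th KK hh at *
  linear_combination (-1) * f3

end Pool.Agent.Lib.MP0ea612
end

section
/-!
# Module NU: the cubic inequality
-/
set_option autoImplicit false

namespace Pool.Agent.Lib.MP0ea612

theorem specNU : SpecNU := by
  intro k x hk h2 hx
  rcases eq_or_lt_of_le hk with h1 | h1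
  · subst h1
    have hx' : x ≤ 6 := by
      unfold hh at hx
      linarith
    unfold KK th FF hh
    interval_cases x <;> norm_num
  · have hk2 : 2 ≤ k := h1
    obtain ⟨h, hh'⟩ : ∃ h, h = hh k := ⟨_, rfl⟩
    have hK : KK k = 2 * h := by rw [hh']; unfold KK hh; ring
    have hT : th k = h + k := by rw [hh']; unfold th hh; ring
    have hF : FF k x = x ^ 2 - x * (5 * k ^ 2 + 6 * k + 3) + h ^ 2 := by rw [hh']; rfl
    have e1 : x * (KK k - x) * (th k + x - 1) + KK k * FF k x =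
        (2 * h - x) * (x ^ 2 - x * h + h ^ 2 + x * (k - 1)) - (2 * k + 1) * x * h := by
      rw [hK, hT, hF]
      have : h = 2 * k ^ 2 + 2 * k + 1 := hh'
      rw [this]; ring
    rw [e1]
    rw [← hh'] at hx
    have hval : h = 2 * k ^ 2 + 2 * k + 1 := hh'
    have h13 : 13 ≤ h := by rw [hval]; nlinarith
    have key : 4 * (2 * k + 1) * (h + 1) < 3 * (h - 1) * h := by
      obtain ⟨j, rfl⟩ : ∃ j, k = j + 2 := ⟨k - 2, by ring⟩
      have hj : 0 ≤ j := by linarith
      rw [hval]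
      have : 0 < 3 * (2 * (j + 2) ^ 2 + 2 * (j + 2) + 1 - 1) * (2 * (j + 2) ^ 2 + 2 * (j + 2) + 1)
          - 4 * (2 * (j + 2) + 1) * (2 * (j + 2) ^ 2 + 2 * (j + 2) + 1 + 1) := by
        ring_nf
        positivity
      linarith
    have s1 : 3 * h ^ 2 ≤ 4 * (x ^ 2 - x * h + h ^ 2 + x * (k - 1)) := by
      nlinarith [sq_nonneg (2 * x - h), mul_nonneg (by linarith : (0:ℤ) ≤ x)
        (by linarith : (0:ℤ) ≤ k - 1)]
    have s2 : (h - 1) * (3 * h ^ 2) ≤
        (2 * h - x) * (4 * (x ^ 2 - x * h + h ^ 2 + x * (k - 1))) :=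
      mul_le_mul (by linarith) s1 (by positivity) (by linarith)
    have s3 : (2 * k + 1) * x * h ≤ (2 * k + 1) * (h + 1) * h := by
      apply mul_le_mul_of_nonneg_right _ (by linarith)
      exact mul_le_mul_of_nonneg_left hx (by linarith)
    have s4 : 4 * (2 * k + 1) * (h + 1) * h < 3 * (h - 1) * h * h :=
      mul_lt_mul_of_pos_right key (by linarith)
    nlinarith

end Pool.Agent.Lib.MP0ea612
end

section
/-!
# Module `SM`: lines which meet `X`
-/
set_option autoImplicit false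

namespace Pool.Agent.Lib.MP0ea612

namespace SMM

/-- value of `EE` at a line with one point on `X` -/
def gg (k x : ℤ) : ℤ := (th k - x + 1) ^ 2 * (x - 1)

/-- if exactly one or more elements satisfy the property there is another one -/
theorem exists_ne {α : Type} [Fintype α] {p : α → Prop} (h : 2 ≤ ∑ a, ind (p a)) (a : α) :
    ∃ b, a ≠ b ∧ p b := by
  classical
  by_contra hne
  push Not at hne
  have h1 : ∑ b, ind (p b) ≤ 1 := by
    rw [Finset.sum_eq_single a (fun b _ hb => ind_neg (hne b (Ne.symm hb)))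
      (fun h => absurd (Finset.mem_univ a) h)]
    exact ind_le_one _
  omega

section

variable {P H A B : Type} [Fintype P] [Fintype H] [Fintype A] [Fintype B]
  {IH : P → H → Prop} {IA : P → A → Prop} {IB : P → B → Prop} {k : ℤ}

theorem kap_pos {X : B} {p : P} {m : A} (h1 : IB p X) (h2 : IA p m) : 1 ≤ kap IA IB X m := by
  have h3 : ind (IB p X ∧ IA p m) ≤ ∑ p, ind (IB p X ∧ IA p m) :=
    Finset.single_le_sum (f := fun p => ind (IB p X ∧ IA p m)) (fun _ _ => ind_nonneg _)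
      (Finset.mem_univ p)
  rw [ind_pos ⟨h1, h2⟩] at h3
  exact h3

end

end SMM

open SMM in
theorem specSM (hCV : SpecCV) (hLA : SpecLA) : SpecSM := by
  intro P H A B _ _ _ _ IH IA IB k T X
  obtain ⟨-, -, cv3, cv4, cv5, cv6, -, cv8⟩ := hCV IH IA IB k T X
  obtain ⟨-, -, -, -, -, la4⟩ := hLA IH IA IB k T X
  -- uniqueness of the line through `p` with two points on `X`
  have huniq : ∀ p m m', IB p X → IA p m → IA p m' → 2 ≤ kap IA IB X m → 2 ≤ kap IA IB X m' →
      m = m' := by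
    intro p m m' hp hm hm' h2 h2'
    obtain ⟨p', hne, h3, h4⟩ := exists_ne h2 p
    obtain ⟨p'', hne', h5, h6⟩ := exists_ne h2' p
    exact la4 m m' p p' p'' hne hp hm h3 h4 hne' hm' h5 h6
  -- step A
  have hA : ∀ m, ind (kap IA IB X m ≠ 0) * EE k IH IA IB X m =
      ind (kap IA IB X m = 1) * EE k IH IA IB X m +
        ind (2 ≤ kap IA IB X m) * EE k IH IA IB X m := by
    intro m
    have h0 := (cv8 m).1
    rcases lt_trichotomy (kap IA IB X m) 1 with h | h | h
    · rw [ind_neg (p := kap IA IB X m ≠ 0) (by omega), ind_neg (p := kap IA IB X m = 1) (by omega),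
        ind_neg (p := 2 ≤ kap IA IB X m) (by omega)]
      ring
    · rw [ind_pos (p := kap IA IB X m ≠ 0) (by omega), ind_pos (p := kap IA IB X m = 1) h,
        ind_neg (p := 2 ≤ kap IA IB X m) (by omega)]
      ring
    · rw [ind_pos (p := kap IA IB X m ≠ 0) (by omega), ind_neg (p := kap IA IB X m = 1) (by omega),
        ind_pos (p := 2 ≤ kap IA IB X m) (by omega)]
      ring
  -- step B
  have hB : ∀ m, ind (kap IA IB X m = 1) * EE k IH IA IB X m =
      ∑ p, ind (IB p X) * (ind (kap IA IB X m = 1 ∧ IA p m) * gg k (cl IA IB X p)) := by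
    intro m
    by_cases h1 : kap IA IB X m = 1
    · rw [ind_pos h1, one_mul]
      have h2 : ∀ p, ind (IB p X) * (ind (kap IA IB X m = 1 ∧ IA p m) * gg k (cl IA IB X p)) =
          ind (IB p X ∧ IA p m) * EE k IH IA IB X m := by
        intro p
        by_cases h3 : IB p X ∧ IA p m
        · rw [ind_pos h3, ind_pos h3.1, ind_pos ⟨h1, h3.2⟩]
          have h4 := cv4 m p h1 h3.1 h3.2
          unfold EE gg
          rw [h4]
          unfold th hh KK
          ring
        · rw [ind_neg h3]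
          by_cases h4 : IB p X
          · rw [ind_neg (p := kap IA IB X m = 1 ∧ IA p m) (fun h => h3 ⟨h4, h.2⟩)]
            ring
          · rw [ind_neg h4]
            ring
      rw [Finset.sum_congr rfl fun p _ => h2 p, ← Finset.sum_mul]
      have h5 : ∑ p, ind (IB p X ∧ IA p m) = 1 := h1
      rw [h5, one_mul]
    · rw [ind_neg h1, zero_mul]
      symm
      refine Finset.sum_eq_zero fun p _ => ?_
      rw [ind_neg (p := kap IA IB X m = 1 ∧ IA p m) (fun h => h1 h.1)]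
      ring
  -- step C
  have hC : ∀ p, IB p X →
      ∑ m, ind (kap IA IB X m = 1 ∧ IA p m) * gg k (cl IA IB X p) =
        ∑ m, ind (2 ≤ kap IA IB X m ∧ IA p m) * (k * gg k (kap IA IB X m)) := by
    intro p hp
    by_cases h1 : ∃ m, IA p m ∧ 2 ≤ kap IA IB X m
    · obtain ⟨m1, h2, h3⟩ := h1
      have h4 : cl IA IB X p = kap IA IB X m1 := cv5 m1 p h3 hp h2
      have h5 : ∑ m, ind (2 ≤ kap IA IB X m ∧ IA p m) = 1 :=
        sum_ind_of_unique _ m1 ⟨h3, h2⟩ fun m hm => huniq p m m1 hp hm.2 h2 hm.1 h3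
      have h6 : ∑ m, ind (kap IA IB X m = 1 ∧ IA p m) = k := by
        have h7 := T.SA.d2 p
        have h8 : ∀ m, ind (IA p m) = ind (kap IA IB X m = 1 ∧ IA p m) +
            ind (2 ≤ kap IA IB X m ∧ IA p m) := by
          intro m
          by_cases h9 : IA p m
          · have h10 := kap_pos hp h9
            by_cases h11 : kap IA IB X m = 1
            · rw [ind_pos h9, ind_pos (p := kap IA IB X m = 1 ∧ IA p m) ⟨h11, h9⟩,
                ind_neg (p := 2 ≤ kap IA IB X m ∧ IA p m) (fun h => by omega)]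
              rfl
            · rw [ind_pos h9, ind_neg (p := kap IA IB X m = 1 ∧ IA p m) (fun h => h11 h.1),
                ind_pos (p := 2 ≤ kap IA IB X m ∧ IA p m) ⟨by omega, h9⟩]
              rfl
          · rw [ind_neg h9, ind_neg (p := kap IA IB X m = 1 ∧ IA p m) (fun h => h9 h.2),
                ind_neg (p := 2 ≤ kap IA IB X m ∧ IA p m) (fun h => h9 h.2)]
            rfl
        rw [Finset.sum_congr rfl fun m _ => h8 m, Finset.sum_add_distrib, h5] at h7
        omega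
      rw [← Finset.sum_mul, h6, h4]
      have h12 : ∀ m, ind (2 ≤ kap IA IB X m ∧ IA p m) * (k * gg k (kap IA IB X m)) =
          ind (2 ≤ kap IA IB X m ∧ IA p m) * (k * gg k (kap IA IB X m1)) := by
        intro m
        by_cases h13 : 2 ≤ kap IA IB X m ∧ IA p m
        · rw [huniq p m m1 hp h13.2 h2 h13.1 h3]
        · rw [ind_neg h13, zero_mul, zero_mul]
      rw [Finset.sum_congr rfl fun m _ => h12 m, ← Finset.sum_mul, h5, one_mul]
    · push Not at h1
      have h2 : cl IA IB X p = 1 := cv6 p hp fun m hm => by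
        have := h1 m hm
        omega
      rw [h2]
      have h3 : gg k 1 = 0 := by unfold gg; ring
      rw [h3]
      rw [Finset.sum_eq_zero fun m _ => by rw [mul_zero]]
      symm
      refine Finset.sum_eq_zero fun m _ => ?_
      rw [ind_neg (p := 2 ≤ kap IA IB X m ∧ IA p m) (fun h => by
        have := h1 m h.2
        omega), zero_mul]
  -- step D
  have hD : ∑ m, ind (kap IA IB X m = 1) * EE k IH IA IB X m =
      ∑ m, ind (2 ≤ kap IA IB X m) * (kap IA IB X m * (k * gg k (kap IA IB X m))) := by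
    rw [Finset.sum_congr rfl fun m _ => hB m, Finset.sum_comm]
    have h1 : ∀ p, ∑ m, ind (IB p X) * (ind (kap IA IB X m = 1 ∧ IA p m) * gg k (cl IA IB X p)) =
        ∑ m, ind (IB p X) *
          (ind (2 ≤ kap IA IB X m ∧ IA p m) * (k * gg k (kap IA IB X m))) := by
      intro p
      rw [← Finset.mul_sum, ← Finset.mul_sum]
      by_cases h2 : IB p X
      · rw [hC p h2]
      · rw [ind_neg h2, zero_mul, zero_mul]
    rw [Finset.sum_congr rfl fun p _ => h1 p, Finset.sum_comm]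
    refine Finset.sum_congr rfl fun m _ => ?_
    have h3 : ∀ p, ind (IB p X) *
        (ind (2 ≤ kap IA IB X m ∧ IA p m) * (k * gg k (kap IA IB X m))) =
        ind (IB p X ∧ IA p m) * (ind (2 ≤ kap IA IB X m) * (k * gg k (kap IA IB X m))) := by
      intro p
      rw [ind_and, ind_and]
      ring
    rw [Finset.sum_congr rfl fun p _ => h3 p, ← Finset.sum_mul]
    have h4 : ∑ p, ind (IB p X ∧ IA p m) = kap IA IB X m := rfl
    rw [h4]
    ring
  rw [Finset.sum_congr rfl fun m _ => hA m, Finset.sum_add_distrib, hD, ← Finset.sum_add_distrib]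
  refine Finset.sum_congr rfl fun m _ => ?_
  by_cases h1 : 2 ≤ kap IA IB X m
  · rw [ind_pos h1]
    have h2 := cv3 m h1
    unfold EE gg FF
    rw [h2]
    unfold th hh KK
    ring
  · rw [ind_neg h1]
    ring

end Pool.Agent.Lib.MP0ea612
end

section
/-!
# TB: second and third moments
-/
set_option autoImplicit false

namespace Pool.Agent.Lib.MP0ea612

namespace TBM

/-- a sum of products of two sums -/
theorem sum_two {α β γ : Type} [Fintype α] [Fintype β] [Fintype γ] (a : α → ℤ) (b : β → ℤ)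
    (r : α → γ → ℤ) (s : β → γ → ℤ) (c : ℤ)
    (h : ∀ x y, a x * b y * ∑ m, r x m * s y m = a x * b y * c) :
    ∑ m, (∑ x, a x * r x m) * (∑ y, b y * s y m) = (∑ x, a x) * (∑ y, b y) * c := by
  have e1 : ∀ m, (∑ x, a x * r x m) * (∑ y, b y * s y m) =
      ∑ x, ∑ y, a x * b y * (r x m * s y m) := by
    intro m
    rw [Finset.sum_mul_sum]
    refine Finset.sum_congr rfl fun x _ => Finset.sum_congr rfl fun y _ => ?_
    ring
  rw [Finset.sum_congr rfl fun m _ => e1 m, Finset.sum_comm, Finset.sum_mul_sum, Finset.sum_mul]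
  refine Finset.sum_congr rfl fun x _ => ?_
  rw [Finset.sum_comm, Finset.sum_mul]
  refine Finset.sum_congr rfl fun y _ => ?_
  rw [← Finset.mul_sum, h x y]

/-- a sum of products of three sums -/
theorem sum_three {α β γ δ : Type} [Fintype α] [Fintype β] [Fintype γ] [Fintype δ]
    (a : α → ℤ) (b : β → ℤ) (c : γ → ℤ) (r : α → δ → ℤ) (s : β → δ → ℤ) (t : γ → δ → ℤ) :
    ∑ m, (∑ x, a x * r x m) * (∑ y, b y * s y m) * (∑ z, c z * t z m) =
      ∑ x, ∑ y, ∑ z, a x * b y * c z * ∑ m, r x m * s y m * t z m := by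
  have e1 : ∀ m, (∑ x, a x * r x m) * (∑ y, b y * s y m) * (∑ z, c z * t z m) =
      ∑ x, ∑ y, ∑ z, a x * b y * c z * (r x m * s y m * t z m) := by
    intro m
    rw [Finset.sum_mul_sum, Finset.sum_mul]
    refine Finset.sum_congr rfl fun x _ => ?_
    rw [Finset.sum_mul]
    refine Finset.sum_congr rfl fun y _ => ?_
    rw [Finset.mul_sum]
    refine Finset.sum_congr rfl fun z _ => ?_
    ring
  rw [Finset.sum_congr rfl fun m _ => e1 m, Finset.sum_comm]
  refine Finset.sum_congr rfl fun x _ => ?_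
  rw [Finset.sum_comm]
  refine Finset.sum_congr rfl fun y _ => ?_
  rw [Finset.sum_comm]
  refine Finset.sum_congr rfl fun z _ => ?_
  rw [← Finset.mul_sum]

theorem ee_eq {P H A : Type} [Fintype H] (IH : P → H → Prop) (IA : P → A → Prop) (p : P) (m : A) :
    ee IH IA p m = ∑ l, ind (IH p l) * ind (Mt IH IA l m) :=
  Finset.sum_congr rfl fun _ _ => ind_and _ _

end TBM

theorem specTB (hPR : SpecPR) (hLA : SpecLA) : SpecTB := by
  intro P H A B _ _ _ _ IH IA IB k h X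
  have hLA0 := (hLA IH IA IB k h X).1
  have hP := hPR IH IA k h.hk h.SA
  constructor
  · intro p p' hp hp' hne
    simp only [TBM.ee_eq]
    rw [TBM.sum_two (fun l => ind (IH p l)) (fun l => ind (IH p' l))
      (fun l m => ind (Mt IH IA l m)) (fun l m => ind (Mt IH IA l m)) (2 * (k + 1) ^ 2), h.SA.d1 p,
      h.SA.d1 p']
    · ring
    · intro l l'
      by_cases hl : IH p l
      · by_cases hl' : IH p' l'
        · congr 1
          rw [← hP.2.2.1 l l' (hLA0 p p' l l' hp hp' hne hl hl')]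
          exact Finset.sum_congr rfl fun m _ => (ind_and _ _).symm
        · rw [ind_neg hl']; ring
      · rw [ind_neg hl]; ring
  · intro p p' p'' hp hp' hp'' h1 h2 h3
    simp only [TBM.ee_eq]
    rw [TBM.sum_three (fun l => ind (IH p l)) (fun l => ind (IH p' l)) (fun l => ind (IH p'' l))
      (fun l m => ind (Mt IH IA l m)) (fun l m => ind (Mt IH IA l m))
      (fun l m => ind (Mt IH IA l m)),
      TBM.sum_three (fun l => ind (IH p l)) (fun l => ind (IH p' l)) (fun l => ind (IH p'' l))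
      (fun l m => ind (Mt IH IH l m)) (fun l m => ind (Mt IH IH l m))
      (fun l m => ind (Mt IH IH l m))]
    have e1 : ∀ x y z : H, ind (IH p x) * ind (IH p' y) * ind (IH p'' z) *
        ∑ m, ind (Mt IH IA x m) * ind (Mt IH IA y m) * ind (Mt IH IA z m) =
        ind (IH p x) * ind (IH p' y) * ind (IH p'' z) * (2 * k + 2) -
        ind (IH p x) * ind (IH p' y) * ind (IH p'' z) *
        ∑ m, ind (Mt IH IH x m) * ind (Mt IH IH y m) * ind (Mt IH IH z m) := by
      intro x y z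
      by_cases hx : IH p x
      · by_cases hy : IH p' y
        · by_cases hz : IH p'' z
          · have g := hP.2.2.2.2.1 x y z (hLA0 p p' x y hp hp' h1 hx hy)
              (hLA0 p p'' x z hp hp'' h2 hx hz) (hLA0 p' p'' y z hp' hp'' h3 hy hz)
            have g1 : ∑ m : A, ind (Mt IH IA x m) * ind (Mt IH IA y m) * ind (Mt IH IA z m) =
                ∑ m : A, ind (Mt IH IA x m ∧ Mt IH IA y m ∧ Mt IH IA z m) := by
              refine Finset.sum_congr rfl fun m _ => ?_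
              rw [ind_and, ind_and]; ring
            have g2 : ∑ m : H, ind (Mt IH IH x m) * ind (Mt IH IH y m) * ind (Mt IH IH z m) =
                ∑ m : H, ind (Mt IH IH m x ∧ Mt IH IH m y ∧ Mt IH IH m z) := by
              refine Finset.sum_congr rfl fun m _ => ?_
              rw [ind_and, ind_and]
              have sw : ∀ u v : H, ind (Mt IH IH u v) = ind (Mt IH IH v u) := fun u v =>
                ind_congr ⟨fun ⟨p, a, b⟩ => ⟨p, b, a⟩, fun ⟨p, a, b⟩ => ⟨p, b, a⟩⟩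
              rw [sw m x, sw m y, sw m z]; ring
            rw [g1, g2, ← g]; ring
          · rw [ind_neg hz]; ring
        · rw [ind_neg hy]; ring
      · rw [ind_neg hx]; ring
    rw [Finset.sum_congr rfl fun x _ => Finset.sum_congr rfl fun y _ =>
      Finset.sum_congr rfl fun z _ => e1 x y z]
    simp only [Finset.sum_sub_distrib]
    congr 1
    have e2 : ∀ x y : H, ∑ z : H, ind (IH p x) * ind (IH p' y) * ind (IH p'' z) * (2 * k + 2) =
        ind (IH p x) * ind (IH p' y) * ((k + 1) * (2 * k + 2)) := by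
      intro x y
      rw [← Finset.sum_mul, ← Finset.mul_sum, h.SA.d1 p'']; ring
    rw [Finset.sum_congr rfl fun x _ => Finset.sum_congr rfl fun y _ => e2 x y]
    have e3 : ∀ x : H, ∑ y : H, ind (IH p x) * ind (IH p' y) * ((k + 1) * (2 * k + 2)) =
        ind (IH p x) * ((k + 1) * ((k + 1) * (2 * k + 2))) := by
      intro x
      rw [← Finset.sum_mul, ← Finset.mul_sum, h.SA.d1 p']; ring
    rw [Finset.sum_congr rfl fun x _ => e3 x, ← Finset.sum_mul, h.SA.d1 p]
    ring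

end Pool.Agent.Lib.MP0ea612
end

section
/-!
# TC: the triple sum
-/
set_option autoImplicit false

namespace Pool.Agent.Lib.MP0ea612

namespace TCM

theorem sum_ne {α : Type} [Fintype α] (s : α → ℤ) (p : α) :
    ∑ q, ind (p ≠ q) * s q = (∑ q, s q) - s p := by
  classical
  have e1 : ∀ q, ind (p ≠ q) * s q = s q - ind (p = q) * s q := by
    intro q
    have : ind (p ≠ q) = 1 - ind (p = q) := ind_not _
    rw [this]; ring
  rw [Finset.sum_congr rfl fun q _ => e1 q, Finset.sum_sub_distrib]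
  congr 1
  rw [Finset.sum_eq_single p (fun q _ hq => by rw [ind_neg (Ne.symm hq)]; ring)
    (fun h => absurd (Finset.mem_univ p) h), ind_pos rfl, one_mul]

/-- ordered triples of different elements of a set -/
theorem triples {α : Type} [Fintype α] (s : α → ℤ) (hs : ∀ p, s p * s p = s p) :
    ∑ p, ∑ p', ∑ p'', ind (p ≠ p' ∧ p ≠ p'' ∧ p' ≠ p'') * (s p * s p' * s p'') =
      (∑ p, s p) * ((∑ p, s p) - 1) * ((∑ p, s p) - 2) := by
  set h := ∑ p, s p with hh
  have e1 : ∀ p p', ∑ p'', ind (p ≠ p' ∧ p ≠ p'' ∧ p' ≠ p'') * (s p * s p' * s p'') =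
      ind (p ≠ p') * (s p * s p' * (h - s p - s p')) := by
    intro p p'
    by_cases hp : p = p'
    · rw [ind_neg (p := p ≠ p') (by simpa using hp)]
      rw [Finset.sum_congr rfl fun p'' _ => by
        rw [ind_neg (p := p ≠ p' ∧ p ≠ p'' ∧ p' ≠ p'') (fun g => g.1 hp)]]
      simp
    · rw [ind_pos (p := p ≠ p') hp]
      have e2 : ∀ p'', ind (p ≠ p' ∧ p ≠ p'' ∧ p' ≠ p'') * (s p * s p' * s p'') =
          s p * s p' * (ind (p ≠ p'') * (ind (p' ≠ p'') * s p'')) := by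
        intro p''
        rw [ind_and, ind_and, ind_pos (p := p ≠ p') hp]; ring
      rw [Finset.sum_congr rfl fun p'' _ => e2 p'', ← Finset.mul_sum,
        sum_ne (fun p'' => ind (p' ≠ p'') * s p'') p, sum_ne s p',
        ind_pos (p := p' ≠ p) (Ne.symm hp)]
      ring
  rw [Finset.sum_congr rfl fun p _ => Finset.sum_congr rfl fun p' _ => e1 p p']
  have e3 : ∀ p, ∑ p', ind (p ≠ p') * (s p * s p' * (h - s p - s p')) =
      s p * ((h - 1) * (h - 2)) := by
    intro p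
    rw [sum_ne (fun p' => s p * s p' * (h - s p - s p')) p]
    have e4 : ∀ p', s p * s p' * (h - s p - s p') = s p * (h - 2) * s p' := by
      intro p'
      have a1 := hs p
      have a2 := hs p'
      linear_combination (-(s p')) * a1 - s p * a2
    rw [Finset.sum_congr rfl fun p' _ => e4 p', ← Finset.mul_sum, ← hh]
    have a1 := hs p
    linear_combination (2 * s p + 2 - h) * a1
  rw [Finset.sum_congr rfl fun p _ => e3 p, ← Finset.sum_mul, ← hh]
  ring

theorem Mt_swap {P L M : Type} (I : P → L → Prop) (J : P → M → Prop) (x : L) (y : M) :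
    Mt I J x y ↔ Mt J I y x :=
  ⟨fun ⟨p, h1, h2⟩ => ⟨p, h2, h1⟩, fun ⟨p, h1, h2⟩ => ⟨p, h2, h1⟩⟩

end TCM

theorem specTC (hPR : SpecPR) (hLA : SpecLA) : SpecTC := by
  intro P H A B _ _ _ _ IH IA IB k h X
  have hLA0 := (hLA IH IA IB k h X).1
  have hV : ∑ l, ind (Mt IH IB l X) = KK k * (k + 1) := by
    rw [← (hPR IB IH k h.hk h.SB.symm).1 X]
    exact Finset.sum_congr rfl fun l _ => ind_congr (TCM.Mt_swap _ _ _ _)
  have hH : (∑ _x : H, (1 : ℤ)) = (k + 1) * ((2 * k + 1) ^ 3 + 1) :=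
    (hPR IH IB k h.hk h.SB).2.2.2.2.2.2.1
  -- the sum for a fixed `l0`
  have key : ∀ l0 : H, ∑ p, ∑ p', ∑ p'',
      ind (IB p X ∧ IB p' X ∧ IB p'' X ∧ p ≠ p' ∧ p ≠ p'' ∧ p' ≠ p'') *
        (ee IH IH p l0 * ee IH IH p' l0 * ee IH IH p'' l0) =
      (1 - ind (Mt IH IB l0 X)) * (hh k * (hh k - 1) * (hh k - 2)) := by
    intro l0
    set s : P → ℤ := fun p => ind (IB p X) * ee IH IH p l0 with hs
    have e1 : ∀ p p' p'', ind (IB p X ∧ IB p' X ∧ IB p'' X ∧ p ≠ p' ∧ p ≠ p'' ∧ p' ≠ p'') *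
        (ee IH IH p l0 * ee IH IH p' l0 * ee IH IH p'' l0) =
        ind (p ≠ p' ∧ p ≠ p'' ∧ p' ≠ p'') * (s p * s p' * s p'') := by
      intro p p' p''
      rw [ind_and, ind_and, ind_and]
      simp only [hs]
      ring
    rw [Finset.sum_congr rfl fun p _ => Finset.sum_congr rfl fun p' _ =>
      Finset.sum_congr rfl fun p'' _ => e1 p p' p'']
    by_cases hm : Mt IH IB l0 X
    · rw [ind_pos hm]
      obtain ⟨p0, hp0, hp0X⟩ := hm
      have hz : ∀ p, p ≠ p0 → s p = 0 := by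
        intro p hp
        simp only [hs]
        by_cases hpX : IB p X
        · have : ee IH IH p l0 = 0 := by
            unfold ee
            exact sum_ind_eq_zero _ fun l hl => hLA0 p p0 l l0 hpX hp0X hp hl.1 hp0 hl.2
          rw [this, mul_zero]
        · rw [ind_neg hpX, zero_mul]
      rw [sub_self, zero_mul]
      refine Finset.sum_eq_zero fun p _ => Finset.sum_eq_zero fun p' _ =>
        Finset.sum_eq_zero fun p'' _ => ?_
      by_cases hpp : p = p'
      · rw [ind_neg (fun g => g.1 hpp), zero_mul]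
      · by_cases h1 : p = p0
        · have : s p' = 0 := hz p' fun h2 => hpp (h1.trans h2.symm)
          rw [this]; ring
        · rw [hz p h1]; ring
    · rw [ind_neg hm]
      have hsum : ∑ p, s p = hh k := by
        have g := (hPR IH IB k h.hk h.SB).2.2.2.1 l0 X hm
        rw [← g]
        simp only [hs, ee]
        have e0 : ∀ p : P, ind (IB p X) * ∑ l, ind (IH p l ∧ Mt IH IH l l0) =
            ∑ l, ind (Mt IH IH l l0) * ind (IB p X ∧ IH p l) := by
          intro p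
          rw [Finset.mul_sum]
          refine Finset.sum_congr rfl fun l _ => ?_
          rw [ind_and, ind_and]; ring
        rw [Finset.sum_congr rfl fun p _ => e0 p, Finset.sum_comm]
        refine Finset.sum_congr rfl fun l _ => ?_
        rw [← Finset.mul_sum, ind_and]
        congr 1
        by_cases h1 : Mt IH IB l X
        · rw [ind_pos h1]
          obtain ⟨p, h2, h3⟩ := h1
          refine sum_ind_of_unique _ p ⟨h3, h2⟩ fun b hb => ?_
          by_contra hne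
          exact h.SB.u12 b p l X hne hb.2 h2 hb.1 h3
        · rw [ind_neg h1]
          exact sum_ind_eq_zero _ fun p hp => h1 ⟨p, hp.2, hp.1⟩
      have hsq : ∀ p, s p * s p = s p := by
        intro p
        simp only [hs]
        by_cases hpX : IB p X
        · rw [ind_pos hpX]
          have hpl : ¬ IH p l0 := fun g => hm ⟨p, g, hpX⟩
          have h01 : ee IH IH p l0 = 0 ∨ ee IH IH p l0 = 1 := by
            unfold ee
            by_cases he : ∃ l, IH p l ∧ Mt IH IH l l0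
            · obtain ⟨l, hl, b, h2, h3⟩ := he
              right
              refine sum_ind_of_unique _ l ⟨hl, b, h2, h3⟩ ?_
              rintro l' ⟨hl', b', h2', h3'⟩
              have hbb : b' = b := h.SA.e1' p l0 b' b hpl h3' (Or.inl ⟨l', hl', h2'⟩) h3
                (Or.inl ⟨l, hl, h2⟩)
              subst hbb
              have hpb : p ≠ b' := fun e => hpl (e ▸ h3)
              exact h.SA.u11 p b' l' l hpb hl' h2' hl h2
            · push Not at he
              left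
              exact sum_ind_eq_zero _ fun l hl => he l hl.1 hl.2
          rcases h01 with h01 | h01 <;> rw [h01] <;> norm_num
        · rw [ind_neg hpX]; ring
      rw [TCM.triples s hsq, hsum]
      ring
  have e2 : ∀ p p' p'', ind (IB p X ∧ IB p' X ∧ IB p'' X ∧ p ≠ p' ∧ p ≠ p'' ∧ p' ≠ p'') *
      (∑ l0, ee IH IH p l0 * ee IH IH p' l0 * ee IH IH p'' l0) =
      ∑ l0, ind (IB p X ∧ IB p' X ∧ IB p'' X ∧ p ≠ p' ∧ p ≠ p'' ∧ p' ≠ p'') *
        (ee IH IH p l0 * ee IH IH p' l0 * ee IH IH p'' l0) := by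
    intro p p' p''
    rw [Finset.mul_sum]
  rw [Finset.sum_congr rfl fun p _ => Finset.sum_congr rfl fun p' _ =>
    Finset.sum_congr rfl fun p'' _ => e2 p p' p'']
  have e3 : ∀ p p' : P, ∑ p'', ∑ l0, ind (IB p X ∧ IB p' X ∧ IB p'' X ∧ p ≠ p' ∧ p ≠ p'' ∧
      p' ≠ p'') * (ee IH IH p l0 * ee IH IH p' l0 * ee IH IH p'' l0) =
      ∑ l0, ∑ p'', ind (IB p X ∧ IB p' X ∧ IB p'' X ∧ p ≠ p' ∧ p ≠ p'' ∧ p' ≠ p'') *
        (ee IH IH p l0 * ee IH IH p' l0 * ee IH IH p'' l0) := fun p p' => Finset.sum_comm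
  rw [Finset.sum_congr rfl fun p _ => Finset.sum_congr rfl fun p' _ => e3 p p']
  rw [Finset.sum_congr rfl fun p _ => Finset.sum_comm, Finset.sum_comm,
    Finset.sum_congr rfl fun l0 _ => key l0, ← Finset.sum_mul, Finset.sum_sub_distrib, hH, hV]

end Pool.Agent.Lib.MP0ea612
end
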