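import Pool.Agent.Lib.MP_0ea612_co.Spec
import Pool.Agent.Lib.MP_0ea612_co.FinB
import Pool.Agent.Lib.MP_0ea612_co.TC

section
/-!
# TR: the graph determines the points
-/
set_option autoImplicit false

namespace Pool.Agent.Lib.MP0ea612

namespace TRM

/-- three pairwise concurrent lines of the first family have a common point -/
theorem tri {P H A : Type} [Fintype P] [Fintype H] [Fintype A] {IH : P → H → Prop}
    {IA : P → A → Prop} {k : ℤ} (h : Pair IH IA k) {x y z : H} (hxy : Adj IH x y)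
    (hyz : Adj IH y z) (hxz : Adj IH x z) : ∃ p, IH p x ∧ IH p y ∧ IH p z := by
  obtain ⟨-, a, hax, hay⟩ := hxy
  obtain ⟨-, b, hby, hbz⟩ := hyz
  obtain ⟨-, c, hcx, hcz⟩ := hxz
  by_cases hc : IH c y
  · exact ⟨c, hcx, hc, hcz⟩
  · have hab : a = b := h.e1' c y a b hc hay (Or.inl ⟨x, hcx, hax⟩) hby (Or.inl ⟨z, hcz, hbz⟩)
    subst hab
    exact ⟨a, hax, hay, hbz⟩

/-- a sum of indicators which is at least two has two terms -/
theorem exists_two {α : Type} [Fintype α] (p : α → Prop) (h : 2 ≤ ∑ a, ind (p a)) :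
    ∃ a b, a ≠ b ∧ p a ∧ p b := by
  obtain ⟨a, ha⟩ := exists_of_sum_ind_pos (p := p) (by linarith)
  by_contra hne
  push Not at hne
  have : ∑ b, ind (p b) = 1 := sum_ind_of_unique p a ha fun b hb => by
    by_contra hba
    exact hne b a hba hb ha
  linarith

theorem lines {P H A : Type} [Fintype P] [Fintype H] [Fintype A] {IH : P → H → Prop}
    {IA : P → A → Prop} {k : ℤ} (hk : 1 ≤ k) (h : Pair IH IA k) (p : P) :
    ∃ l l', l ≠ l' ∧ IH p l ∧ IH p l' :=
  exists_two (fun l => IH p l) (by rw [h.d1 p]; linarith)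

theorem uniq {P H A : Type} [Fintype P] [Fintype H] [Fintype A] {IH : P → H → Prop}
    {IA : P → A → Prop} {k : ℤ} (hk : 1 ≤ k) (h : Pair IH IA k) (p p' : P)
    (hpp : ∀ l, IH p l ↔ IH p' l) : p = p' := by
  by_contra hne
  obtain ⟨l, l', hl, h1, h2⟩ := lines hk h p
  exact hl (h.u11 p p' l l' hne h1 ((hpp l).1 h1) h2 ((hpp l').1 h2))

theorem point {P1 H1 A1 P2 H2 A2 : Type} [Fintype P1] [Fintype H1] [Fintype A1]
    [Fintype P2] [Fintype H2] [Fintype A2] {IH1 : P1 → H1 → Prop} {IA1 : P1 → A1 → Prop}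
    {IH2 : P2 → H2 → Prop} {IA2 : P2 → A2 → Prop} {k : ℤ} (hk : 1 ≤ k) (h1 : Pair IH1 IA1 k)
    (h2 : Pair IH2 IA2 k) (φ : H1 ≃ H2) (hφ : ∀ l l', Adj IH1 l l' ↔ Adj IH2 (φ l) (φ l'))
    (p : P1) : ∃ q : P2, ∀ l, IH1 p l ↔ IH2 q (φ l) := by
  obtain ⟨l, l', hl, hpl, hpl'⟩ := lines hk h1 p
  have ha : Adj IH1 l l' := ⟨hl, p, hpl, hpl'⟩
  have hb := (hφ l l').1 ha
  obtain ⟨hb1, q, hql, hql'⟩ := hb
  refine ⟨q, fun m => ⟨fun hm => ?_, fun hm => ?_⟩⟩
  · by_cases e1 : m = l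
    · subst e1; exact hql
    by_cases e2 : m = l'
    · subst e2; exact hql'
    have c1 : Adj IH1 l m := ⟨fun h => e1 h.symm, p, hpl, hm⟩
    have c2 : Adj IH1 m l' := ⟨e2, p, hm, hpl'⟩
    obtain ⟨q', g1, g2, g3⟩ := tri h2 ((hφ _ _).1 c1) ((hφ _ _).1 c2) ⟨hb1, q, hql, hql'⟩
    have : q = q' := by
      by_contra hne
      exact hb1 (h2.u11 q q' _ _ hne hql g1 hql' g3)
    rw [this]; exact g2
  · by_cases e1 : m = l
    · subst e1; exact hpl
    by_cases e2 : m = l'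
    · subst e2; exact hpl'
    have c1 : Adj IH2 (φ l) (φ m) := ⟨fun h => e1 (φ.injective h).symm, q, hql, hm⟩
    have c2 : Adj IH2 (φ m) (φ l') := ⟨fun h => e2 (φ.injective h), q, hm, hql'⟩
    obtain ⟨p', g1, g2, g3⟩ := tri h1 ((hφ _ _).2 c1) ((hφ _ _).2 c2) ha
    have : p = p' := by
      by_contra hne
      exact hl (h1.u11 p p' _ _ hne hpl g1 hpl' g3)
    rw [this]; exact g2

end TRM

theorem specTR : SpecTR := by
  intro P1 H1 A1 P2 H2 A2 _ _ _ _ _ _ IH1 IA1 IH2 IA2 k hk h1 h2 φ hφ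
  have hφ' : ∀ m m', Adj IH2 m m' ↔ Adj IH1 (φ.symm m) (φ.symm m') := by
    intro m m'
    rw [hφ, φ.apply_symm_apply, φ.apply_symm_apply]
  choose e he using TRM.point hk h1 h2 φ hφ
  choose e' he' using TRM.point hk h2 h1 φ.symm hφ'
  refine ⟨⟨e, e', fun p => ?_, fun q => ?_⟩, he⟩
  · apply TRM.uniq hk h1
    intro l
    rw [he p l, he' (e p) (φ l), φ.symm_apply_apply]
  · apply TRM.uniq hk h2
    intro m
    rw [he' q m, he (e' q) (φ.symm m), φ.apply_symm_apply]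

end Pool.Agent.Lib.MP0ea612
end

section
/-!
# Hemisystem graphs: assembly of the modules
-/
set_option autoImplicit false

namespace Pool.Agent.Lib.MP0ea612.FinM

open Pool.Agent.Lib.MP0ea612

theorem hPR : SpecPR := specPR
theorem hLA : SpecLA := specLA
theorem hCV : SpecCV := specCV
theorem hFT : SpecFT := specFT hLA hPR
theorem hMO : SpecMO := specMO hPR (specTA hPR hLA) (specTB hPR hLA) (specTC hPR hLA)
theorem hDX : SpecDX :=
  specDX hCV hFT hMO (specSM hCV hLA) (specLB hCV hFT hLA) specNU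
theorem hTR : SpecTR := specTR
theorem hGL : SpecGL := specGL hDX hLA hPR
theorem hG3 : SpecG3 := specG3
theorem hBD : SpecBD := specBD (specSA hPR) hLA

end Pool.Agent.Lib.MP0ea612.FinM
end
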